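import Pool.Agent.H.MP_027d00_lc.GS

/-!
# Amplification by iterated majorities
-/

set_option autoImplicit false

open Finset

namespace Pool.Agent.H.MP_027d00_lc

/-- the real number `0` or `1` -/
noncomputable def ind (b : Bool) : ℝ := if b = true then 1 else 0

theorem ind_true : ind true = 1 := by simp [ind]

theorem ind_false : ind false = 0 := by simp [ind]

theorem ind_nonneg (b : Bool) : 0 ≤ ind b := by cases b <;> simp [ind]

theorem ind_le_one (b : Bool) : ind b ≤ 1 := by cases b <;> simp [ind]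

/-- `A` is a convex combination of monotone functions of depth at most `D`. -/
def Rand {V : Type} (D : ℕ) (A : (V → Bool) → ℝ) : Prop :=
  ∃ (ι : Type) (_ : Fintype ι) (p : ι → ℝ) (f : ι → (V → Bool) → Bool),
    (∀ i, 0 ≤ p i) ∧ ∑ i, p i = 1 ∧ (∀ i, MonoDepth D (f i)) ∧
      ∀ x, A x = ∑ i, p i * ind (f i x)

/-- the majority polynomial -/
noncomputable def maj (p : ℝ) : ℝ := 3 * p ^ 2 - 2 * p ^ 3

theorem ind_maj (a b c : Bool) : ind ((a && b) || (c && (a || b))) =
    ind a * ind b + ind b * ind c + ind c * ind a - 2 * (ind a * ind b * ind c) := by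
  cases a <;> cases b <;> cases c <;> simp [ind] <;> norm_num

theorem Rand.maj {V : Type} {D : ℕ} {A : (V → Bool) → ℝ} (h : Rand D A) :
    Rand (D + 3) (fun x => maj (A x)) := by
  obtain ⟨ι, _, p, f, hp, hs, hf, hA⟩ := h
  refine ⟨ι × ι × ι, inferInstance, fun i => p i.1 * (p i.2.1 * p i.2.2),
    fun i x => (f i.1 x && f i.2.1 x) || (f i.2.2 x && (f i.1 x || f i.2.1 x)), ?_, ?_, ?_, ?_⟩
  · rintro ⟨i, j, k⟩
    exact mul_nonneg (hp i) (mul_nonneg (hp j) (hp k))
  · rw [Fintype.sum_prod_type]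
    have h1 : ∀ i : ι, ∑ y : ι × ι, p i * (p y.1 * p y.2) = p i := by
      intro i
      rw [← Finset.mul_sum, Fintype.sum_prod_type]
      have h2 : ∀ j : ι, ∑ k : ι, p j * p k = p j := by
        intro j
        rw [← Finset.mul_sum, hs, mul_one]
      rw [Finset.sum_congr rfl (fun j _ => h2 j), hs, mul_one]
    rw [Finset.sum_congr rfl (fun i _ => h1 i), hs]
  · rintro ⟨i, j, k⟩
    have h1 : MonoDepth (D + 2) (fun x => f i x && f j x) := ((hf i).and (hf j)).succ
    have h2 : MonoDepth (D + 2) (fun x => f k x && (f i x || f j x)) :=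
      (hf k).succ.and ((hf i).or (hf j))
    exact h1.or h2
  · intro x
    have e1 : ∀ i j k : ι, p i * (p j * p k) *
        ind ((f i x && f j x) || (f k x && (f i x || f j x))) =
        (p i * ind (f i x)) * ((p j * ind (f j x)) * p k) +
        p i * ((p j * ind (f j x)) * (p k * ind (f k x))) +
        (p i * ind (f i x)) * (p j * (p k * ind (f k x))) -
        2 * ((p i * ind (f i x)) * ((p j * ind (f j x)) * (p k * ind (f k x)))) := by
      intro i j k
      rw [ind_maj]
      ring
    simp only [MP_027d00_lc.maj]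
    rw [Fintype.sum_prod_type]
    have e2 : ∀ i : ι, ∑ y : ι × ι, p i * (p y.1 * p y.2) *
        ind ((f i x && f y.1 x) || (f y.2 x && (f i x || f y.1 x))) =
        (p i * ind (f i x)) * (A x * 1) + p i * (A x * A x) + (p i * ind (f i x)) * (1 * A x) -
        2 * ((p i * ind (f i x)) * (A x * A x)) := by
      intro i
      rw [Fintype.sum_prod_type]
      have e3 : ∀ j : ι, ∑ k : ι, p i * (p j * p k) *
          ind ((f i x && f j x) || (f k x && (f i x || f j x))) =
          (p i * ind (f i x)) * ((p j * ind (f j x)) * 1) +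
          p i * ((p j * ind (f j x)) * A x) +
          (p i * ind (f i x)) * (p j * A x) -
          2 * ((p i * ind (f i x)) * ((p j * ind (f j x)) * A x)) := by
        intro j
        rw [Finset.sum_congr rfl (fun k _ => e1 i j k), Finset.sum_sub_distrib,
          Finset.sum_add_distrib, Finset.sum_add_distrib, ← Finset.mul_sum, ← Finset.mul_sum,
          ← Finset.mul_sum, ← Finset.mul_sum, ← Finset.mul_sum, ← Finset.mul_sum, ← Finset.mul_sum,
          ← Finset.mul_sum, ← Finset.mul_sum, hs, ← hA x]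
      rw [Finset.sum_congr rfl (fun j _ => e3 j), Finset.sum_sub_distrib,
          Finset.sum_add_distrib, Finset.sum_add_distrib, ← Finset.mul_sum, ← Finset.mul_sum,
          ← Finset.mul_sum, ← Finset.mul_sum, ← Finset.mul_sum, ← Finset.sum_mul, ← Finset.sum_mul,
          ← Finset.sum_mul, hs, ← hA x]
    rw [Finset.sum_congr rfl (fun i _ => e2 i), Finset.sum_sub_distrib,
          Finset.sum_add_distrib, Finset.sum_add_distrib, ← Finset.sum_mul, ← Finset.sum_mul,
          ← Finset.sum_mul, ← Finset.mul_sum, ← Finset.sum_mul, hs, ← hA x]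
    ring

theorem Rand.mix {V : Type} {D : ℕ} {A : (V → Bool) → ℝ} (h : Rand D A) (b : Bool) {t : ℝ}
    (ht0 : 0 ≤ t) (ht1 : t ≤ 1) : Rand D (fun x => t * A x + (1 - t) * ind b) := by
  obtain ⟨ι, _, p, f, hp, hs, hf, hA⟩ := h
  refine ⟨Option ι, inferInstance, fun i => i.elim (1 - t) (fun i => t * p i),
    fun i => i.elim (fun _ => b) f, ?_, ?_, ?_, ?_⟩
  · intro i
    cases i with
    | none => simpa using ht1
    | some i => exact mul_nonneg ht0 (hp i)
  · rw [Fintype.sum_option]
    simp only [Option.elim]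
    rw [← Finset.mul_sum, hs]
    ring
  · intro i
    cases i with
    | none => exact .const D b
    | some i => exact hf i
  · intro x
    rw [Fintype.sum_option]
    simp only [Option.elim]
    rw [hA x, Finset.mul_sum]
    have : ∀ i, t * p i * ind (f i x) = t * (p i * ind (f i x)) := fun i => by ring
    rw [Finset.sum_congr rfl (fun i _ => this i)]
    ring

theorem Rand.derand {V : Type} {D : ℕ} {A : (V → Bool) → ℝ} (h : Rand D A)
    {κ : Type} [Fintype κ] (y z : κ → V → Bool)
    (herr : ∑ k, ((1 - A (y k)) + A (z k)) < 1) :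
    ∃ f : (V → Bool) → Bool, MonoDepth D f ∧ ∀ k, f (y k) = true ∧ f (z k) = false := by
  obtain ⟨ι, _, p, f, hp, hs, hf, hA⟩ := h
  by_contra hcon
  push Not at hcon
  have h1 : ∀ i, 1 ≤ ∑ k, ((1 - ind (f i (y k))) + ind (f i (z k))) := by
    intro i
    obtain ⟨k, hk⟩ := hcon (f i) (hf i)
    have hterm : ∀ k, 0 ≤ (1 - ind (f i (y k))) + ind (f i (z k)) := by
      intro k
      have h1 := ind_le_one (f i (y k))
      have h2 := ind_nonneg (f i (z k))
      linarith
    refine le_trans ?_ (Finset.single_le_sum (fun k _ => hterm k) (Finset.mem_univ k))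
    by_cases hy : f i (y k) = true
    · have hz : f i (z k) = true := by
        have := hk hy
        simpa using this
      rw [hy, hz, ind_true]
      norm_num
    · have hy' : f i (y k) = false := by simpa using hy
      rw [hy', ind_false]
      have h2 := ind_nonneg (f i (z k))
      linarith
  have h2 : (1 : ℝ) ≤ ∑ k, ((1 - A (y k)) + A (z k)) := by
    calc (1 : ℝ) = ∑ i, p i * 1 := by simp [hs]
      _ ≤ ∑ i, p i * ∑ k, ((1 - ind (f i (y k))) + ind (f i (z k))) :=
        Finset.sum_le_sum (fun i _ => mul_le_mul_of_nonneg_left (h1 i) (hp i))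
      _ = ∑ k, ∑ i, (p i * 1 - p i * ind (f i (y k)) + p i * ind (f i (z k))) := by
        rw [Finset.sum_comm]
        refine Finset.sum_congr rfl fun i _ => ?_
        rw [Finset.mul_sum]
        refine Finset.sum_congr rfl fun k _ => by ring
      _ = ∑ k, ((1 - A (y k)) + A (z k)) := by
        refine Finset.sum_congr rfl fun k _ => ?_
        rw [Finset.sum_add_distrib, Finset.sum_sub_distrib, ← hA, ← hA]
        simp [hs]
  linarith

/-! ### analysis of the iteration -/

theorem maj_mono {p r : ℝ} (hp : 0 ≤ p) (hpr : p ≤ r) (hr : r ≤ 1) : maj p ≤ maj r := by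
  unfold maj
  have h1 : 3 * r ^ 2 - 2 * r ^ 3 - (3 * p ^ 2 - 2 * p ^ 3) =
      (r - p) * (3 * (r + p) - 2 * (r ^ 2 + r * p + p ^ 2)) := by ring
  have h2 : 0 ≤ 3 * (r + p) - 2 * (r ^ 2 + r * p + p ^ 2) := by nlinarith
  have h3 : 0 ≤ (r - p) * (3 * (r + p) - 2 * (r ^ 2 + r * p + p ^ 2)) :=
    mul_nonneg (by linarith) h2
  linarith

theorem maj_compl (p : ℝ) : maj (1 - p) = 1 - maj p := by
  unfold maj; ring

theorem maj_nonneg {p : ℝ} (hp : 0 ≤ p) (hp1 : p ≤ 1) : 0 ≤ maj p := by
  unfold maj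
  have : 3 * p ^ 2 - 2 * p ^ 3 = p ^ 2 * (3 - 2 * p) := by ring
  rw [this]
  exact mul_nonneg (sq_nonneg _) (by linarith)

theorem maj_le_one {p : ℝ} (hp : 0 ≤ p) (hp1 : p ≤ 1) : maj p ≤ 1 := by
  have := maj_nonneg (p := 1 - p) (by linarith) (by linarith)
  rw [maj_compl] at this
  linarith

theorem maj_iter_mem {p : ℝ} (hp : 0 ≤ p) (hp1 : p ≤ 1) (k : ℕ) :
    0 ≤ maj^[k] p ∧ maj^[k] p ≤ 1 := by
  induction k with
  | zero => exact ⟨hp, hp1⟩
  | succ k ih =>
    rw [Function.iterate_succ_apply']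
    exact ⟨maj_nonneg ih.1 ih.2, maj_le_one ih.1 ih.2⟩

theorem maj_iter_compl (p : ℝ) (k : ℕ) : maj^[k] (1 - p) = 1 - maj^[k] p := by
  induction k with
  | zero => rfl
  | succ k ih =>
    rw [Function.iterate_succ_apply', Function.iterate_succ_apply', ih, maj_compl]

theorem maj_iter_grow {p δ : ℝ} (hδ : 0 ≤ δ) (hp : 1 / 2 + δ ≤ p) (hp1 : p ≤ 1) (k : ℕ) :
    1 / 2 + min ((11 / 8) ^ k * δ) (1 / 4) ≤ maj^[k] p := by
  induction k with
  | zero =>
    simp only [pow_zero, one_mul, Function.iterate_zero, id]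
    have := min_le_left δ (1 / 4)
    linarith
  | succ k ih =>
    rw [Function.iterate_succ_apply']
    set m : ℝ := min ((11 / 8) ^ k * δ) (1 / 4) with hm
    have hm0 : 0 ≤ m := le_min (by positivity) (by norm_num)
    have hm4 : m ≤ 1 / 4 := min_le_right _ _
    have hmem := maj_iter_mem (p := p) (by linarith) hp1 k
    have h1 : maj (1 / 2 + m) ≤ maj (maj^[k] p) := maj_mono (by linarith) ih hmem.2
    refine le_trans ?_ h1
    have h2 : maj (1 / 2 + m) = 1 / 2 + 3 / 2 * m - 2 * m ^ 3 := by unfold maj; ring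
    have h3 : m ^ 3 ≤ m * (1 / 16) := by
      have : m ^ 2 ≤ 1 / 16 := by nlinarith
      calc m ^ 3 = m * m ^ 2 := by ring
        _ ≤ m * (1 / 16) := mul_le_mul_of_nonneg_left this hm0
    have h4 : min ((11 / 8) ^ (k + 1) * δ) (1 / 4) ≤ 11 / 8 * m := by
      rw [hm, mul_min_of_nonneg _ _ (by norm_num : (0 : ℝ) ≤ 11 / 8)]
      apply min_le_min
      · rw [pow_succ]; linarith
      · norm_num
    rw [h2]
    linarith

theorem maj_iter_fast {p : ℝ} (hp : 3 / 4 ≤ p) (hp1 : p ≤ 1) (k : ℕ) :
    3 * (1 - maj^[k] p) ≤ (3 / 4) ^ (2 ^ k) := by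
  induction k with
  | zero =>
    simp only [Function.iterate_zero, id, pow_zero, pow_one]
    linarith
  | succ k ih =>
    rw [Function.iterate_succ_apply', ← maj_compl]
    have hmem := maj_iter_mem (p := p) (by linarith) hp1 k
    set e : ℝ := 1 - maj^[k] p with he
    have he0 : 0 ≤ e := by rw [he]; linarith [hmem.2]
    have h1 : maj e ≤ 3 * e ^ 2 := by
      unfold maj
      have : 0 ≤ e ^ 3 := by positivity
      linarith
    calc 3 * maj e ≤ 3 * (3 * e ^ 2) := by linarith
      _ = (3 * e) ^ 2 := by ring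
      _ ≤ ((3 / 4) ^ (2 ^ k)) ^ 2 := pow_le_pow_left₀ (by positivity) ih 2
      _ = (3 / 4) ^ (2 ^ (k + 1)) := by rw [← pow_mul, pow_succ]

theorem Rand.maj_iter {V : Type} {D : ℕ} {A : (V → Bool) → ℝ} (h : Rand D A) (k : ℕ) :
    Rand (D + 3 * k) (fun x => MP_027d00_lc.maj^[k] (A x)) := by
  induction k with
  | zero => exact h
  | succ k ih =>
    have := ih.maj
    have e : (fun x => MP_027d00_lc.maj^[k + 1] (A x)) =
        fun x => MP_027d00_lc.maj (MP_027d00_lc.maj^[k] (A x)) := by
      funext x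
      rw [Function.iterate_succ_apply']
    rw [e]
    exact this

end Pool.Agent.H.MP_027d00_lc
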