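import Pool.Agent.H.MP_027d00_lc.Amp

/-!
# One-sided average case hardness of layered reachability
-/

set_option autoImplicit false

open Finset

namespace Pool.Agent.H.MP_027d00_lc

section

variable {w : ℕ} [NeZero w]

/-- translation of the vertices of the layers -/
def shift {l : ℕ} (c : Fin l → Fin w) (F : E w → Bool) : E w → Bool :=
  fun e => F (e.1, e.2.1 + vert 0 c e.1, e.2.2 + vert 0 c (e.1 + 1))

theorem vert_sub {l : ℕ} (s : Fin w) (u c : Fin l → Fin w) (i : ℕ) :
    vert s (fun k => u k - c k) i = vert s u i - vert 0 c i := by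
  cases i with
  | zero => simp [vert_zero]
  | succ i =>
    rw [vert_succ, vert_succ, vert_succ]
    by_cases h : i < l
    · rw [dif_pos h, dif_pos h, dif_pos h]
    · rw [dif_neg h, dif_neg h, dif_neg h, sub_zero]

theorem shift_path {l : ℕ} (s : Fin w) (u c : Fin l → Fin w) :
    shift c (path s u) = path s (fun k => u k - c k) := by
  funext e
  simp only [shift, path, vert_sub, eq_sub_iff_add_eq]

theorem shift_cut {l : ℕ} (s : Fin w) (u c : Fin l → Fin w) :
    shift c (cut s u) = cut s (fun k => u k - c k) := by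
  funext e
  simp only [shift, cut, vert_sub, ne_eq, eq_sub_iff_add_eq]

theorem sum_shift {l : ℕ} (g : (Fin l → Fin w) → ℝ) (u : Fin l → Fin w) :
    ∑ c : Fin l → Fin w, g (fun k => u k - c k) = ∑ c : Fin l → Fin w, g c := by
  refine Finset.sum_bij' (fun c _ => fun k => u k - c k) (fun c _ => fun k => u k - c k)
    (fun _ _ => Finset.mem_univ _) (fun _ _ => Finset.mem_univ _) ?_ ?_ ?_
  · intro c _
    funext k
    simp
  · intro c _
    funext k
    simp
  · intro c _
    rfl

end

theorem quarter_pow {m k : ℕ} (h : 3 * k ≤ m) : ((3 : ℝ) / 4) ^ m ≤ (1 / 2) ^ k := by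
  calc ((3 : ℝ) / 4) ^ m ≤ (3 / 4) ^ (3 * k) :=
        pow_le_pow_of_le_one (by norm_num) (by norm_num) h
    _ = ((3 / 4) ^ 3) ^ k := by rw [pow_mul]
    _ ≤ (1 / 2) ^ k := pow_le_pow_left₀ (by norm_num) (by norm_num) k

/-- One-sided average case hardness: a monotone circuit of small depth accepts the random paths
with at most a tiny advantage over the random cuts. -/
theorem base_hard {q w : ℕ} (hq : 2 ≤ q) [NeZero w] (hw : w = 16 ^ q) (j N : ℕ)
    (hj : j + 1 ≤ 2 * q) {D : ℕ} (hD : D + 9 * N + 3 * j + 12 < j * (q - 2))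
    (s : Fin w) {h : (E w → Bool) → Bool} (hh : MonoDepth D h) :
    ∑ u : Fin (2 ^ j) → Fin w, ind (h (path s u)) ≤
      ∑ u : Fin (2 ^ j) → Fin w, ind (h (cut s u)) + (1 / 2) ^ N * (w : ℝ) ^ (2 ^ j) := by
  classical
  by_contra hcon
  push Not at hcon
  set l : ℕ := 2 ^ j with hl
  set W : ℝ := (w : ℝ) ^ l with hW
  have hwpos : 0 < w := Nat.pos_of_neZero w
  have hwpos' : (0 : ℝ) < w := by exact_mod_cast hwpos
  have hWpos : 0 < W := pow_pos hwpos' l
  set a : ℝ := (∑ u : Fin l → Fin w, ind (h (path s u))) / W with ha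
  set b : ℝ := (∑ u : Fin l → Fin w, ind (h (cut s u))) / W with hb
  have hcardW : (∑ _u : Fin l → Fin w, (1 : ℝ)) = W := by
    simp [hW]
  have hab : (1 / 2) ^ N < a - b := by
    rw [ha, hb, ← sub_div, lt_div_iff₀ hWpos]
    linarith
  have ha1 : a ≤ 1 := by
    rw [ha, div_le_one hWpos, ← hcardW]
    exact Finset.sum_le_sum (fun u _ => ind_le_one _)
  have hb0 : 0 ≤ b := div_nonneg (Finset.sum_nonneg (fun u _ => ind_nonneg _)) hWpos.le
  -- the symmetrised random function
  let A0 : (E w → Bool) → ℝ := fun x => ∑ c : Fin l → Fin w, (1 / W) * ind (h (shift c x))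
  have hA0 : Rand D A0 := by
    refine ⟨Fin l → Fin w, inferInstance, fun _ => 1 / W, fun c x => h (shift c x), ?_, ?_, ?_,
      fun x => rfl⟩
    · intro c; positivity
    · have h1 : ∑ _c : Fin l → Fin w, (1 / W) = (1 / W) * ∑ _c : Fin l → Fin w, (1 : ℝ) := by
        rw [Finset.mul_sum]; simp
      rw [h1, hcardW, one_div, inv_mul_cancel₀ hWpos.ne']
    · intro c
      exact hh.subst (fun e x => x (e.1, e.2.1 + vert 0 c e.1, e.2.2 + vert 0 c (e.1 + 1)))
        (fun e => Or.inl ⟨_, rfl⟩)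
  have hA0p : ∀ u : Fin l → Fin w, A0 (path s u) = a := by
    intro u
    simp only [A0, shift_path]
    rw [← Finset.mul_sum, sum_shift (fun c => ind (h (path s c))) u, ha]
    ring
  have hA0c : ∀ u : Fin l → Fin w, A0 (cut s u) = b := by
    intro u
    simp only [A0, shift_cut]
    rw [← Finset.mul_sum, sum_shift (fun c => ind (h (cut s c))) u, hb]
    ring
  -- shift the threshold to 1/2
  have hmix : ∃ A1 : (E w → Bool) → ℝ, Rand D A1 ∧
      ∃ a1 b1 : ℝ, (∀ u : Fin l → Fin w, A1 (path s u) = a1) ∧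
        (∀ u : Fin l → Fin w, A1 (cut s u) = b1) ∧ 1 / 2 + (1 / 2) ^ N / 4 ≤ a1 ∧ a1 ≤ 1 ∧
        b1 ≤ 1 / 2 - (1 / 2) ^ N / 4 ∧ 0 ≤ b1 := by
    set θ : ℝ := (a + b) / 2 with hθ
    have hpowpos : (0 : ℝ) < (1 / 2) ^ N := by positivity
    by_cases hθ2 : 1 / 2 ≤ θ
    · -- multiply by t = 1 / (2 θ)
      set t : ℝ := 1 / (2 * θ) with ht
      have hθpos : 0 < θ := by linarith
      have ht0 : 0 ≤ t := by positivity
      have htθ : t * θ = 1 / 2 := by rw [ht]; field_simp
      have ht1 : t ≤ 1 := by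
        rw [ht, div_le_one (by linarith)]
        linarith
      have htge : 1 / 2 ≤ t := by
        rw [ht, div_le_div_iff_of_pos_left (by norm_num) (by norm_num) (by linarith)]
        linarith
      refine ⟨fun x => t * A0 x + (1 - t) * ind false, hA0.mix false ht0 ht1, t * a, t * b,
        ?_, ?_, ?_, ?_, ?_, ?_⟩
      · intro u; simp only [hA0p, ind_false]; ring
      · intro u; simp only [hA0c, ind_false]; ring
      · have : t * a = 1 / 2 + t * ((a - b) / 2) := by rw [← htθ, hθ]; ring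
        rw [this]
        nlinarith
      · nlinarith
      · have : t * b = 1 / 2 - t * ((a - b) / 2) := by rw [← htθ, hθ]; ring
        rw [this]
        nlinarith
      · exact mul_nonneg ht0 hb0
    · push Not at hθ2
      set t : ℝ := 1 / (2 * (1 - θ)) with ht
      have hθpos : 0 < 1 - θ := by linarith
      have ht0 : 0 ≤ t := by positivity
      have htθ : t * (1 - θ) = 1 / 2 := by rw [ht]; field_simp
      have hθ0 : 0 ≤ θ := by
        rw [hθ]
        have : 0 ≤ a := by linarith
        linarith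
      have ht1 : t ≤ 1 := by
        rw [ht, div_le_one (by linarith)]
        linarith
      have htge : 1 / 2 ≤ t := by
        rw [ht, div_le_div_iff_of_pos_left (by norm_num) (by norm_num) (by linarith)]
        linarith
      refine ⟨fun x => t * A0 x + (1 - t) * ind true, hA0.mix true ht0 ht1, t * a + (1 - t),
        t * b + (1 - t), ?_, ?_, ?_, ?_, ?_, ?_⟩
      · intro u; simp only [hA0p, ind_true]; ring
      · intro u; simp only [hA0c, ind_true]; ring
      · have : t * a + (1 - t) = 1 / 2 + t * ((a - b) / 2) := by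
          have h1 : t * a + (1 - t) = 1 - t * (1 - θ) + t * ((a - b) / 2) := by rw [hθ]; ring
          rw [h1, htθ]; ring
        rw [this]
        nlinarith
      · nlinarith
      · have : t * b + (1 - t) = 1 / 2 - t * ((a - b) / 2) := by
          have h1 : t * b + (1 - t) = 1 - t * (1 - θ) - t * ((a - b) / 2) := by rw [hθ]; ring
          rw [h1, htθ]; ring
        rw [this]
        nlinarith
      · nlinarith
  obtain ⟨A1, hA1, a1, b1, hA1p, hA1c, ha1lo, ha1hi, hb1hi, hb1lo⟩ := hmix
  -- iterate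
  set k2 : ℕ := j + q + 4 with hk2
  have hA2 := (hA1.maj_iter (3 * N)).maj_iter k2
  -- the value on paths
  have key : ∀ p : ℝ, 1 / 2 + (1 / 2) ^ N / 4 ≤ p → p ≤ 1 →
      3 * (1 - maj^[k2] (maj^[3 * N] p)) ≤ (3 / 4) ^ (2 ^ k2) := by
    intro p hp hp1
    have hδ : (0 : ℝ) ≤ (1 / 2) ^ N / 4 := by positivity
    have h1 := maj_iter_grow hδ hp hp1 (3 * N)
    have h2 : (1 : ℝ) / 4 ≤ (11 / 8) ^ (3 * N) * ((1 / 2) ^ N / 4) := by
      have h3 : (1 : ℝ) ≤ (11 / 8) ^ (3 * N) * (1 / 2) ^ N := by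
        rw [pow_mul, ← mul_pow]
        exact one_le_pow₀ (by norm_num)
      linarith
    rw [min_eq_right h2] at h1
    exact maj_iter_fast (by linarith) (maj_iter_mem (by linarith) hp1 _).2 k2
  have hbound : ((3 : ℝ) / 4) ^ (2 ^ k2) ≤ 1 / (2 * W) := by
    have h1 : 3 * (4 * q * l + 1) ≤ 2 ^ k2 := by
      have h2 : q + 1 ≤ 2 ^ q := Nat.lt_two_pow_self
      have h3 : 2 ^ k2 = 16 * (2 ^ q * l) := by
        rw [hk2, hl, pow_add, pow_add]; ring
      have h4 : (q + 1) * l ≤ 2 ^ q * l := Nat.mul_le_mul_right _ h2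
      have h5 : 1 ≤ l := Nat.one_le_two_pow
      rw [h3]
      nlinarith
    have h2 := quarter_pow h1
    have h3 : ((1 : ℝ) / 2) ^ (4 * q * l + 1) = 1 / (2 * W) := by
      have h16 : (w : ℝ) = 2 ^ (4 * q) := by
        rw [hw, pow_mul]; push_cast; norm_num
      rw [hW, h16, ← pow_mul, pow_succ, one_div_pow]
      field_simp
    rwa [h3] at h2
  have herr : ∑ u : Fin l → Fin w, ((1 - maj^[k2] (maj^[3 * N] (A1 (path s u)))) +
      maj^[k2] (maj^[3 * N] (A1 (cut s u)))) < 1 := by
    have hp := key a1 ha1lo ha1hi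
    have hc := key (1 - b1) (by linarith) (by linarith)
    rw [maj_iter_compl, maj_iter_compl] at hc
    have h1 : ∀ u : Fin l → Fin w, (1 - maj^[k2] (maj^[3 * N] (A1 (path s u)))) +
        maj^[k2] (maj^[3 * N] (A1 (cut s u))) ≤ (1 / 3) * (1 / W) := by
      intro u
      rw [hA1p, hA1c]
      have h2 : 1 / (2 * W) = (1 / 2) * (1 / W) := by field_simp
      rw [h2] at hbound
      linarith
    calc _ ≤ ∑ _u : Fin l → Fin w, (1 / 3) * (1 / W) := Finset.sum_le_sum (fun u _ => h1 u)
      _ = (1 / 3) * (1 / W) * ∑ _u : Fin l → Fin w, (1 : ℝ) := by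
        rw [Finset.mul_sum]; simp
      _ = 1 / 3 := by rw [hcardW]; field_simp
      _ < 1 := by norm_num
  obtain ⟨f, hf, hfv⟩ := hA2.derand (fun u : Fin l → Fin w => path s u) (fun u => cut s u) herr
  have := gs hq hw j hj s hf hfv
  omega

end Pool.Agent.H.MP_027d00_lc
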