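import Mathlib

/-!
# Definitions used in the statements
-/

set_option autoImplicit false

namespace Pool.Agent.H.MP_027d00_lc

/-! ### monotone circuits of bounded depth -/

/-- `MonoDepth D f`: the Boolean function `f` is computed by a circuit of depth at most `D` with
fan-in two AND and OR gates, whose inputs are variables and constants (no NOT gates). -/
inductive MonoDepth {V : Type} : ℕ → ((V → Bool) → Bool) → Prop
  | var (D : ℕ) (v : V) : MonoDepth D (fun x => x v)
  | const (D : ℕ) (b : Bool) : MonoDepth D (fun _ => b)
  | and {D : ℕ} {f g : (V → Bool) → Bool} (hf : MonoDepth D f) (hg : MonoDepth D g) :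
      MonoDepth (D + 1) (fun x => f x && g x)
  | or {D : ℕ} {f g : (V → Bool) → Bool} (hf : MonoDepth D f) (hg : MonoDepth D g) :
      MonoDepth (D + 1) (fun x => f x || g x)

/-! ### circuits with NOT gates -/

/-- A gate that may read the gates `0, ..., i - 1`: an input variable, a constant, an AND, OR gate
of fan-in two or a NOT gate. -/
inductive Gate (V : Type) (i : ℕ) : Type
  | var (v : V) : Gate V i
  | const (b : Bool) : Gate V i
  | and (a b : Fin i) : Gate V i
  | or (a b : Fin i) : Gate V i
  | not (a : Fin i) : Gate V i

/-- is it a NOT gate? -/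
def Gate.isNot {V : Type} {i : ℕ} : Gate V i → Bool
  | .not _ => true
  | _ => false

/-- A circuit with `s` gates in topological order and a distinguished output gate. -/
structure Circuit (V : Type) (s : ℕ) where
  /-- the gates -/
  gate : (i : Fin s) → Gate V i.val
  /-- the output gate -/
  out : Fin s

namespace Circuit

variable {V : Type} {s : ℕ}

/-- the value computed at gate `i` -/
def val (C : Circuit V s) (x : V → Bool) (i : Fin s) : Bool :=
  match C.gate i with
  | .var v => x v
  | .const b => b
  | .and a b => C.val x ⟨a.val, a.isLt.trans i.isLt⟩ && C.val x ⟨b.val, b.isLt.trans i.isLt⟩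
  | .or a b => C.val x ⟨a.val, a.isLt.trans i.isLt⟩ || C.val x ⟨b.val, b.isLt.trans i.isLt⟩
  | .not a => !(C.val x ⟨a.val, a.isLt.trans i.isLt⟩)
termination_by i.val
decreasing_by
  all_goals first | exact a.isLt | exact b.isLt

/-- the largest number of AND and OR gates on a path from an input to gate `i` -/
def depthAt (C : Circuit V s) (i : Fin s) : ℕ :=
  match C.gate i with
  | .var _ => 0
  | .const _ => 0
  | .and a b => max (C.depthAt ⟨a.val, a.isLt.trans i.isLt⟩)
      (C.depthAt ⟨b.val, b.isLt.trans i.isLt⟩) + 1
  | .or a b => max (C.depthAt ⟨a.val, a.isLt.trans i.isLt⟩)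
      (C.depthAt ⟨b.val, b.isLt.trans i.isLt⟩) + 1
  | .not a => C.depthAt ⟨a.val, a.isLt.trans i.isLt⟩
termination_by i.val
decreasing_by
  all_goals first | exact a.isLt | exact b.isLt

/-- the largest number of NOT gates on a path from an input to gate `i` (gate `i` included) -/
def negAt (C : Circuit V s) (i : Fin s) : ℕ :=
  match C.gate i with
  | .var _ => 0
  | .const _ => 0
  | .and a b => max (C.negAt ⟨a.val, a.isLt.trans i.isLt⟩) (C.negAt ⟨b.val, b.isLt.trans i.isLt⟩)
  | .or a b => max (C.negAt ⟨a.val, a.isLt.trans i.isLt⟩) (C.negAt ⟨b.val, b.isLt.trans i.isLt⟩)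
  | .not a => C.negAt ⟨a.val, a.isLt.trans i.isLt⟩ + 1
termination_by i.val
decreasing_by
  all_goals first | exact a.isLt | exact b.isLt

/-- the function computed by the circuit -/
def eval (C : Circuit V s) (x : V → Bool) : Bool := C.val x C.out

/-- the largest number of AND and OR gates on a path from an input to the output (at most the
depth of the circuit) -/
def depth (C : Circuit V s) : ℕ := C.depthAt C.out

/-- the negation depth: the largest number of NOT gates on a path from an input to the output -/
def negDepth (C : Circuit V s) : ℕ := C.negAt C.out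

/-- the number of NOT gates -/
def nots (C : Circuit V s) : ℕ := (Finset.univ.filter (fun i => (C.gate i).isNot = true)).card

end Circuit

/-! ### formulas -/

/-- Formulas over AND, OR and NOT. -/
inductive Formula (V : Type) : Type
  | var (v : V) : Formula V
  | const (b : Bool) : Formula V
  | and (F G : Formula V) : Formula V
  | or (F G : Formula V) : Formula V
  | not (F : Formula V) : Formula V

namespace Formula

variable {V : Type}

/-- the value of a formula -/
def eval : Formula V → (V → Bool) → Bool
  | var v, x => x v
  | const b, _ => b
  | and F G, x => F.eval x && G.eval x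
  | or F G, x => F.eval x || G.eval x
  | not F, x => !(F.eval x)

/-- the largest number of AND and OR gates on a path -/
def depth : Formula V → ℕ
  | var _ => 0
  | const _ => 0
  | and F G => max F.depth G.depth + 1
  | or F G => max F.depth G.depth + 1
  | not F => F.depth

/-- the number of NOT gates -/
def nots : Formula V → ℕ
  | var _ => 0
  | const _ => 0
  | and F G => F.nots + G.nots
  | or F G => F.nots + G.nots
  | not F => F.nots + 1

end Formula

/-! ### the explicit function -/

/-- Layered directed graph with `l + 2` layers, each with the `w` vertices `0, ..., w - 1`: the edge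
`(i, a, b)` goes from vertex `a` of layer `i` to vertex `b` of layer `i + 1`, and `x` is the
indicator of the edges that are present.  `Connected l w x`: there is a directed path from vertex
`0` of the first layer to vertex `0` of the last layer. -/
def Connected (l w : ℕ) [NeZero w] (x : Fin (l + 1) × Fin w × Fin w → Bool) : Prop :=
  ∃ p : Fin (l + 2) → Fin w, p 0 = 0 ∧ p (Fin.last (l + 1)) = 0 ∧
    ∀ i : Fin (l + 1), x (i, p i.castSucc, p i.succ) = true

/-- `K` disjoint layered graphs: at least one of them is connected. -/
def OrConn (K l w : ℕ) [NeZero w] (x : Fin K × Fin (l + 1) × Fin w × Fin w → Bool) : Prop :=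
  ∃ b : Fin K, Connected l w (fun e => x (b, e))

/-- the variables of the function `family m t`: the edges of `2 ^ (t ^ (m + 1))` disjoint layered
graphs with `2 ^ (t ^ m) + 2` layers of width `16 ^ (t ^ m)` -/
abbrev Var (m t : ℕ) : Type :=
  Fin (2 ^ (t ^ (m + 1))) × Fin (2 ^ (t ^ m) + 1) × Fin (16 ^ (t ^ m)) × Fin (16 ^ (t ^ m))

/-- the explicit function: in at least one of the layered graphs there is a path from vertex `0` of
the first layer to vertex `0` of the last layer -/
def family (m t : ℕ) (x : Var m t → Bool) : Prop :=
  OrConn (2 ^ (t ^ (m + 1))) (2 ^ (t ^ m)) (16 ^ (t ^ m)) x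

end Pool.Agent.H.MP_027d00_lc
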