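import Pool.Agent.H.MP_027d00_lc.Defs

/-!
# Circuits with NOT gates
-/

set_option autoImplicit false

namespace Pool.Agent.H.MP_027d00_lc

namespace Circuit

variable {V : Type} {s : ℕ}

/-- replace gate `i` by a constant -/
def setConst (C : Circuit V s) (i : Fin s) (b : Bool) : Circuit V s where
  gate := fun k => if k = i then Gate.const b else C.gate k
  out := C.out

theorem setConst_gate_self (C : Circuit V s) (i : Fin s) (b : Bool) :
    (C.setConst i b).gate i = Gate.const b := by
  simp [setConst]

theorem setConst_gate_ne (C : Circuit V s) (i k : Fin s) (b : Bool) (h : k ≠ i) :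
    (C.setConst i b).gate k = C.gate k := by
  simp [setConst, h]

theorem nots_setConst (C : Circuit V s) (i : Fin s) (b : Bool) (hi : (C.gate i).isNot = true) :
    (C.setConst i b).nots + 1 = C.nots := by
  classical
  unfold nots
  have h : (Finset.univ.filter (fun k => (C.gate k).isNot = true)) =
      insert i (Finset.univ.filter (fun k => ((C.setConst i b).gate k).isNot = true)) := by
    ext k
    rw [Finset.mem_insert, Finset.mem_filter, Finset.mem_filter]
    by_cases hk : k = i
    · subst hk
      simp [hi]
    · rw [setConst_gate_ne C i k b hk]
      simp [hk]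
  rw [h, Finset.card_insert_of_notMem]
  rw [Finset.mem_filter, setConst_gate_self]
  simp [Gate.isNot]

theorem depthAt_setConst (C : Circuit V s) (i : Fin s) (b : Bool) (k : Fin s) :
    (C.setConst i b).depthAt k ≤ C.depthAt k := by
  obtain ⟨n, hn⟩ : ∃ n, n = k.val := ⟨_, rfl⟩
  induction n using Nat.strong_induction_on generalizing k with
  | _ n ih =>
    by_cases hk : k = i
    · subst hk
      rw [depthAt, setConst_gate_self]
      exact Nat.zero_le _
    · rw [depthAt, depthAt, setConst_gate_ne C i k b hk]
      cases C.gate k with
      | var v => exact le_rfl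
      | const b => exact le_rfl
      | and a b =>
        simp only
        have h1 := ih a.val (by rw [hn]; exact a.isLt) ⟨a.val, a.isLt.trans k.isLt⟩ rfl
        have h2 := ih b.val (by rw [hn]; exact b.isLt) ⟨b.val, b.isLt.trans k.isLt⟩ rfl
        omega
      | or a b =>
        simp only
        have h1 := ih a.val (by rw [hn]; exact a.isLt) ⟨a.val, a.isLt.trans k.isLt⟩ rfl
        have h2 := ih b.val (by rw [hn]; exact b.isLt) ⟨b.val, b.isLt.trans k.isLt⟩ rfl
        omega
      | not a =>
        simp only
        exact ih a.val (by rw [hn]; exact a.isLt) ⟨a.val, a.isLt.trans k.isLt⟩ rfl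

/-- replacing a gate by the constant which is its value does not change anything -/
theorem val_setConst (C : Circuit V s) (i : Fin s) (b : Bool) (x : V → Bool)
    (hb : C.val x i = b) (k : Fin s) :
    (C.setConst i b).val x k = C.val x k := by
  obtain ⟨n, hn⟩ : ∃ n, n = k.val := ⟨_, rfl⟩
  induction n using Nat.strong_induction_on generalizing k with
  | _ n ih =>
    by_cases hk : k = i
    · subst hk
      rw [val, setConst_gate_self, hb]
    · rw [val, val, setConst_gate_ne C i k _ hk]
      cases C.gate k with
      | var v => rfl
      | const b => rfl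
      | and a b =>
        simp only
        rw [ih a.val (by rw [hn]; exact a.isLt) ⟨a.val, a.isLt.trans k.isLt⟩ rfl,
          ih b.val (by rw [hn]; exact b.isLt) ⟨b.val, b.isLt.trans k.isLt⟩ rfl]
      | or a b =>
        simp only
        rw [ih a.val (by rw [hn]; exact a.isLt) ⟨a.val, a.isLt.trans k.isLt⟩ rfl,
          ih b.val (by rw [hn]; exact b.isLt) ⟨b.val, b.isLt.trans k.isLt⟩ rfl]
      | not a =>
        simp only
        rw [ih a.val (by rw [hn]; exact a.isLt) ⟨a.val, a.isLt.trans k.isLt⟩ rfl]

/-- a gate of large depth does not influence a gate of smaller depth -/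
theorem val_setConst_of_depth (C : Circuit V s) (i : Fin s) (b : Bool) (x : V → Bool) (k : Fin s)
    (hd : C.depthAt k < C.depthAt i) : (C.setConst i b).val x k = C.val x k := by
  obtain ⟨n, hn⟩ : ∃ n, n = k.val := ⟨_, rfl⟩
  induction n using Nat.strong_induction_on generalizing k with
  | _ n ih =>
    have hk : k ≠ i := by rintro rfl; exact lt_irrefl _ hd
    rw [val, val, setConst_gate_ne C i k _ hk]
    rw [depthAt] at hd
    cases hg : C.gate k with
    | var v => rfl
    | const b => rfl
    | and a b =>
      rw [hg] at hd
      simp only at hd ⊢
      rw [ih a.val (by rw [hn]; exact a.isLt) ⟨a.val, a.isLt.trans k.isLt⟩ (by omega) rfl,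
        ih b.val (by rw [hn]; exact b.isLt) ⟨b.val, b.isLt.trans k.isLt⟩ (by omega) rfl]
    | or a b =>
      rw [hg] at hd
      simp only at hd ⊢
      rw [ih a.val (by rw [hn]; exact a.isLt) ⟨a.val, a.isLt.trans k.isLt⟩ (by omega) rfl,
        ih b.val (by rw [hn]; exact b.isLt) ⟨b.val, b.isLt.trans k.isLt⟩ (by omega) rfl]
    | not a =>
      rw [hg] at hd
      simp only at hd ⊢
      rw [ih a.val (by rw [hn]; exact a.isLt) ⟨a.val, a.isLt.trans k.isLt⟩ hd rfl]

/-- gates without NOT gates below them compute monotone functions of small depth -/
theorem mono_of_no_not (C : Circuit V s) (k : Fin s)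
    (h : ∀ i : Fin s, i.val ≤ k.val → (C.gate i).isNot = false) :
    MonoDepth (C.depthAt k) (fun x => C.val x k) := by
  obtain ⟨n, hn⟩ : ∃ n, n = k.val := ⟨_, rfl⟩
  induction n using Nat.strong_induction_on generalizing k with
  | _ n ih =>
    have hk := h k le_rfl
    have e1 : (fun x => C.val x k) = fun x => (match C.gate k with
      | .var v => x v
      | .const b => b
      | .and a b => C.val x ⟨a.val, a.isLt.trans k.isLt⟩ && C.val x ⟨b.val, b.isLt.trans k.isLt⟩
      | .or a b => C.val x ⟨a.val, a.isLt.trans k.isLt⟩ || C.val x ⟨b.val, b.isLt.trans k.isLt⟩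
      | .not a => !(C.val x ⟨a.val, a.isLt.trans k.isLt⟩)) := by
      funext x
      rw [val]
      cases C.gate k <;> rfl
    rw [e1, depthAt]
    cases hg : C.gate k with
    | var v => exact .var _ v
    | const b => exact .const _ b
    | and a b =>
      simp only
      have h1 := ih a.val (by rw [hn]; exact a.isLt) ⟨a.val, a.isLt.trans k.isLt⟩
        (fun i hi => h i (hi.trans a.isLt.le)) rfl
      have h2 := ih b.val (by rw [hn]; exact b.isLt) ⟨b.val, b.isLt.trans k.isLt⟩
        (fun i hi => h i (hi.trans b.isLt.le)) rfl
      exact (h1.mono (le_max_left _ _)).and (h2.mono (le_max_right _ _))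
    | or a b =>
      simp only
      have h1 := ih a.val (by rw [hn]; exact a.isLt) ⟨a.val, a.isLt.trans k.isLt⟩
        (fun i hi => h i (hi.trans a.isLt.le)) rfl
      have h2 := ih b.val (by rw [hn]; exact b.isLt) ⟨b.val, b.isLt.trans k.isLt⟩
        (fun i hi => h i (hi.trans b.isLt.le)) rfl
      exact (h1.mono (le_max_left _ _)).or (h2.mono (le_max_right _ _))
    | not a =>
      rw [hg] at hk
      exact absurd hk (by simp [Gate.isNot])

/-- A circuit with `r` NOT gates is determined by `2^(r+1) - 1` monotone functions whose depth is
at most the depth of the circuit. -/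
theorem features (D r : ℕ) : ∀ C : Circuit V s, C.nots = r → C.depth ≤ D →
    ∃ L : List ((V → Bool) → Bool), L.length + 1 ≤ 2 ^ (r + 1) ∧ (∀ f ∈ L, MonoDepth D f) ∧
      ∀ x y, (∀ f ∈ L, f x = f y) → C.eval x = C.eval y := by
  classical
  induction r with
  | zero =>
    intro C hC hD
    have hno : ∀ i : Fin s, (C.gate i).isNot = false := by
      intro i
      by_contra hcon
      have hi : (C.gate i).isNot = true := by simpa using hcon
      have : i ∈ Finset.univ.filter (fun i => (C.gate i).isNot = true) :=
        Finset.mem_filter.2 ⟨Finset.mem_univ _, hi⟩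
      have h2 : 0 < C.nots := Finset.card_pos.2 ⟨i, this⟩
      omega
    have hm := (C.mono_of_no_not C.out (fun i _ => hno i)).mono hD
    refine ⟨[fun x => C.val x C.out], by simp, ?_, ?_⟩
    · intro f hf
      rw [List.mem_singleton] at hf
      rw [hf]
      exact hm
    · intro x y hxy
      exact hxy _ (List.mem_singleton.2 rfl)
  | succ r ih =>
    intro C hC hD
    -- the first NOT gate
    have hne : (Finset.univ.filter (fun i => (C.gate i).isNot = true)).Nonempty := by
      rw [← Finset.card_pos]
      change 0 < C.nots
      omega
    obtain ⟨i, hi, hmin⟩ := Finset.exists_min_image _ (fun i : Fin s => i.val) hne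
    have hin : (C.gate i).isNot = true := (Finset.mem_filter.1 hi).2
    have hmin' : ∀ k : Fin s, k.val < i.val → (C.gate k).isNot = false := by
      intro k hk
      by_contra hcon
      have hkn : (C.gate k).isNot = true := by simpa using hcon
      have := hmin k (Finset.mem_filter.2 ⟨Finset.mem_univ _, hkn⟩)
      omega
    have hn0 := C.nots_setConst i false hin
    have hn1 := C.nots_setConst i true hin
    have hd0 : (C.setConst i false).depth ≤ D := (C.depthAt_setConst i false C.out).trans hD
    have hd1 : (C.setConst i true).depth ≤ D := (C.depthAt_setConst i true C.out).trans hD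
    obtain ⟨L0, hL0, hm0, hdet0⟩ := ih (C.setConst i false) (by omega) hd0
    obtain ⟨L1, hL1, hm1, hdet1⟩ := ih (C.setConst i true) (by omega) hd1
    by_cases hdi : C.depthAt i ≤ D
    · -- the input of the NOT gate is a monotone function
      cases hg : C.gate i with
      | var v => rw [hg] at hin; exact absurd hin (by simp [Gate.isNot])
      | const b => rw [hg] at hin; exact absurd hin (by simp [Gate.isNot])
      | and a b => rw [hg] at hin; exact absurd hin (by simp [Gate.isNot])
      | or a b => rw [hg] at hin; exact absurd hin (by simp [Gate.isNot])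
      | not a =>
        have hma := C.mono_of_no_not ⟨a.val, a.isLt.trans i.isLt⟩
          (fun k hk => hmin' k (lt_of_le_of_lt hk a.isLt))
        have hda : C.depthAt ⟨a.val, a.isLt.trans i.isLt⟩ = C.depthAt i := by
          conv_rhs => rw [depthAt, hg]
        have hval : ∀ x, C.val x i = !(C.val x ⟨a.val, a.isLt.trans i.isLt⟩) := by
          intro x
          conv_lhs => rw [val, hg]
        refine ⟨(fun x => C.val x ⟨a.val, a.isLt.trans i.isLt⟩) :: (L0 ++ L1), ?_, ?_, ?_⟩
        · rw [List.length_cons, List.length_append, pow_succ]
          omega
        · intro f hf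
          rw [List.mem_cons, List.mem_append] at hf
          rcases hf with rfl | hf | hf
          · exact hma.mono (hda.le.trans hdi)
          · exact hm0 f hf
          · exact hm1 f hf
        · intro x y hxy
          have h1 : C.val x ⟨a.val, a.isLt.trans i.isLt⟩ =
              C.val y ⟨a.val, a.isLt.trans i.isLt⟩ :=
            hxy (fun x => C.val x ⟨a.val, a.isLt.trans i.isLt⟩) List.mem_cons_self
          have h2 : C.val x i = C.val y i := by rw [hval, hval, h1]
          have h3 : ∀ f ∈ L0, f x = f y := fun f hf =>
            hxy f (List.mem_cons_of_mem _ (List.mem_append_left _ hf))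
          have h4 : ∀ f ∈ L1, f x = f y := fun f hf =>
            hxy f (List.mem_cons_of_mem _ (List.mem_append_right _ hf))
          change C.val x C.out = C.val y C.out
          cases hvi : C.val x i with
          | false =>
            rw [← C.val_setConst i false x hvi C.out,
              ← C.val_setConst i false y (h2 ▸ hvi) C.out]
            exact hdet0 x y h3
          | true =>
            rw [← C.val_setConst i true x hvi C.out,
              ← C.val_setConst i true y (h2 ▸ hvi) C.out]
            exact hdet1 x y h4
    · -- the NOT gate is irrelevant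
      push Not at hdi
      refine ⟨L0, ?_, hm0, ?_⟩
      · rw [pow_succ]; omega
      · intro x y hxy
        have h1 := hdet0 x y hxy
        have hlt : C.depthAt C.out < C.depthAt i := lt_of_le_of_lt hD hdi
        have ex := C.val_setConst_of_depth i false x C.out hlt
        have ey := C.val_setConst_of_depth i false y C.out hlt
        change C.val x C.out = C.val y C.out
        rw [← ex, ← ey]
        exact h1

end Circuit

/-! ### formulas -/

namespace Formula

variable {V : Type}

theorem mono_of_no_not (F : Formula V) (h : F.nots = 0) : MonoDepth F.depth F.eval := by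
  induction F with
  | var v => exact .var _ v
  | const b => exact .const _ b
  | and F G ihF ihG =>
    simp only [nots] at h
    exact ((ihF (by omega)).mono (le_max_left _ _)).and ((ihG (by omega)).mono (le_max_right _ _))
  | or F G ihF ihG =>
    simp only [nots] at h
    exact ((ihF (by omega)).mono (le_max_left _ _)).or ((ihG (by omega)).mono (le_max_right _ _))
  | not F _ => simp only [nots] at h; omega

theorem features_pos (F : Formula V) (h : 0 < F.nots) :
    ∃ (A B Q : (V → Bool) → Bool) (L : List ((V → Bool) → Bool)), MonoDepth F.depth A ∧
      MonoDepth F.depth B ∧ (∀ f ∈ L, MonoDepth F.depth f) ∧ L.length + 4 ≤ 5 * F.nots ∧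
      (∀ x y, (∀ f ∈ L, f x = f y) → Q x = Q y) ∧ ∀ x, F.eval x = (A x || (B x && Q x)) := by
  induction F with
  | var v => simp [nots] at h
  | const b => simp [nots] at h
  | not F ih =>
    by_cases h0 : F.nots = 0
    · refine ⟨fun _ => false, fun _ => true, (Formula.not F).eval, [F.eval], .const _ _,
        .const _ _, ?_, ?_, ?_, ?_⟩
      · intro f hf
        rw [List.mem_singleton] at hf
        rw [hf]
        exact F.mono_of_no_not h0
      · simp only [nots, h0, List.length_singleton]
        omega
      · intro x y hxy
        have := hxy F.eval (List.mem_singleton.2 rfl)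
        simp only [eval, this]
      · intro x
        simp
    · obtain ⟨A, B, Q, L, hA, hB, hL, hlen, hdet, hev⟩ := ih (by omega)
      refine ⟨fun _ => false, fun _ => true, (Formula.not F).eval, A :: B :: L, .const _ _,
        .const _ _, ?_, ?_, ?_, ?_⟩
      · intro f hf
        rw [List.mem_cons, List.mem_cons] at hf
        rcases hf with rfl | rfl | hf
        · exact hA
        · exact hB
        · exact hL f hf
      · simp only [nots, List.length_cons]
        omega
      · intro x y hxy
        have h1 := hxy A (by simp)
        have h2 := hxy B (by simp)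
        have h3 := hdet x y (fun f hf => hxy f (by simp [hf]))
        simp only [eval, hev, h1, h2, h3]
      · intro x
        simp
  | and F G ihF ihG =>
    by_cases hF : F.nots = 0
    · have hG : 0 < G.nots := by simp only [nots] at h; omega
      obtain ⟨A, B, Q, L, hA, hB, hL, hlen, hdet, hev⟩ := ihG hG
      have hm := (F.mono_of_no_not hF).mono (le_max_left F.depth G.depth)
      refine ⟨fun x => F.eval x && A x, fun x => F.eval x && B x, Q, L,
        hm.and (hA.mono (le_max_right _ _)), hm.and (hB.mono (le_max_right _ _)),
        fun f hf => (hL f hf).mono ((le_max_right _ _).trans (Nat.le_succ _)), ?_, hdet, ?_⟩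
      · simp only [nots]; omega
      · intro x
        simp only [eval, hev]
        cases F.eval x <;> simp
    · by_cases hG : G.nots = 0
      · obtain ⟨A, B, Q, L, hA, hB, hL, hlen, hdet, hev⟩ := ihF (by omega)
        have hm := (G.mono_of_no_not hG).mono (le_max_right F.depth G.depth)
        refine ⟨fun x => A x && G.eval x, fun x => B x && G.eval x, Q, L,
          (hA.mono (le_max_left _ _)).and hm, (hB.mono (le_max_left _ _)).and hm,
          fun f hf => (hL f hf).mono ((le_max_left _ _).trans (Nat.le_succ _)), ?_, hdet, ?_⟩
        · simp only [nots]; omega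
        · intro x
          simp only [eval, hev]
          cases G.eval x <;> simp
      · obtain ⟨A, B, Q, L, hA, hB, hL, hlen, hdet, hev⟩ := ihF (by omega)
        obtain ⟨A', B', Q', L', hA', hB', hL', hlen', hdet', hev'⟩ := ihG (by omega)
        refine ⟨fun _ => false, fun _ => true, (Formula.and F G).eval,
          (A :: B :: L) ++ (A' :: B' :: L'), .const _ _, .const _ _, ?_, ?_, ?_, ?_⟩
        · intro f hf
          simp only [List.cons_append, List.mem_cons, List.mem_append] at hf
          have h1 : F.depth ≤ (Formula.and F G).depth := (le_max_left _ _).trans (Nat.le_succ _)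
          have h2 : G.depth ≤ (Formula.and F G).depth := (le_max_right _ _).trans (Nat.le_succ _)
          rcases hf with rfl | rfl | hf | rfl | rfl | hf
          · exact hA.mono h1
          · exact hB.mono h1
          · exact (hL f hf).mono h1
          · exact hA'.mono h2
          · exact hB'.mono h2
          · exact (hL' f hf).mono h2
        · simp only [nots, List.length_append, List.length_cons]
          omega
        · intro x y hxy
          have h1 := hxy A (by simp)
          have h2 := hxy B (by simp)
          have h3 := hdet x y (fun f hf => hxy f (by simp [hf]))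
          have h4 := hxy A' (by simp)
          have h5 := hxy B' (by simp)
          have h6 := hdet' x y (fun f hf => hxy f (by simp [hf]))
          simp only [eval, hev, hev', h1, h2, h3, h4, h5, h6]
        · intro x
          simp
  | or F G ihF ihG =>
    by_cases hF : F.nots = 0
    · have hG : 0 < G.nots := by simp only [nots] at h; omega
      obtain ⟨A, B, Q, L, hA, hB, hL, hlen, hdet, hev⟩ := ihG hG
      have hm := (F.mono_of_no_not hF).mono (le_max_left F.depth G.depth)
      refine ⟨fun x => F.eval x || A x, B, Q, L,
        hm.or (hA.mono (le_max_right _ _)), hB.mono ((le_max_right _ _).trans (Nat.le_succ _)),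
        fun f hf => (hL f hf).mono ((le_max_right _ _).trans (Nat.le_succ _)), ?_, hdet, ?_⟩
      · simp only [nots]; omega
      · intro x
        simp only [eval, hev]
        cases F.eval x <;> simp
    · by_cases hG : G.nots = 0
      · obtain ⟨A, B, Q, L, hA, hB, hL, hlen, hdet, hev⟩ := ihF (by omega)
        have hm := (G.mono_of_no_not hG).mono (le_max_right F.depth G.depth)
        refine ⟨fun x => A x || G.eval x, B, Q, L,
          (hA.mono (le_max_left _ _)).or hm, hB.mono ((le_max_left _ _).trans (Nat.le_succ _)),
          fun f hf => (hL f hf).mono ((le_max_left _ _).trans (Nat.le_succ _)), ?_, hdet, ?_⟩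
        · simp only [nots]; omega
        · intro x
          simp only [eval, hev]
          cases G.eval x <;> simp
      · obtain ⟨A, B, Q, L, hA, hB, hL, hlen, hdet, hev⟩ := ihF (by omega)
        obtain ⟨A', B', Q', L', hA', hB', hL', hlen', hdet', hev'⟩ := ihG (by omega)
        refine ⟨fun _ => false, fun _ => true, (Formula.or F G).eval,
          (A :: B :: L) ++ (A' :: B' :: L'), .const _ _, .const _ _, ?_, ?_, ?_, ?_⟩
        · intro f hf
          simp only [List.cons_append, List.mem_cons, List.mem_append] at hf
          have h1 : F.depth ≤ (Formula.or F G).depth := (le_max_left _ _).trans (Nat.le_succ _)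
          have h2 : G.depth ≤ (Formula.or F G).depth := (le_max_right _ _).trans (Nat.le_succ _)
          rcases hf with rfl | rfl | hf | rfl | rfl | hf
          · exact hA.mono h1
          · exact hB.mono h1
          · exact (hL f hf).mono h1
          · exact hA'.mono h2
          · exact hB'.mono h2
          · exact (hL' f hf).mono h2
        · simp only [nots, List.length_append, List.length_cons]
          omega
        · intro x y hxy
          have h1 := hxy A (by simp)
          have h2 := hxy B (by simp)
          have h3 := hdet x y (fun f hf => hxy f (by simp [hf]))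
          have h4 := hxy A' (by simp)
          have h5 := hxy B' (by simp)
          have h6 := hdet' x y (fun f hf => hxy f (by simp [hf]))
          simp only [eval, hev, hev', h1, h2, h3, h4, h5, h6]
        · intro x
          simp

/-- A formula with `t` NOT gates is determined by `5 t + 1` monotone functions whose depth is at
most the depth of the formula. -/
theorem features (F : Formula V) :
    ∃ L : List ((V → Bool) → Bool), L.length ≤ 5 * F.nots + 1 ∧ (∀ f ∈ L, MonoDepth F.depth f) ∧
      ∀ x y, (∀ f ∈ L, f x = f y) → F.eval x = F.eval y := by
  by_cases h : F.nots = 0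
  · refine ⟨[F.eval], by simp, ?_, ?_⟩
    · intro f hf
      rw [List.mem_singleton] at hf
      rw [hf]
      exact F.mono_of_no_not h
    · intro x y hxy
      exact hxy _ (List.mem_singleton.2 rfl)
  · obtain ⟨A, B, Q, L, hA, hB, hL, hlen, hdet, hev⟩ := F.features_pos (by omega)
    refine ⟨A :: B :: L, ?_, ?_, ?_⟩
    · simp only [List.length_cons]
      omega
    · intro f hf
      rw [List.mem_cons, List.mem_cons] at hf
      rcases hf with rfl | rfl | hf
      · exact hA
      · exact hB
      · exact hL f hf
    · intro x y hxy
      have h1 := hxy A (by simp)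
      have h2 := hxy B (by simp)
      have h3 := hdet x y (fun f hf => hxy f (by simp [hf]))
      rw [hev, hev, h1, h2, h3]

end Formula

end Pool.Agent.H.MP_027d00_lc
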