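import Mathlib

/-!
# Random colourings hit dense product-type sets
-/

set_option autoImplicit false

open Finset

namespace Pool.Agent.H.MP_027d00_lc

/-- number of two-colourings of `Fin w` which are `true` at `a` and at `b` -/
theorem color_pair (w : ℕ) (a b : Fin w) :
    ∑ c : Fin w → Bool, (if c a = true ∧ c b = true then (1 : ℝ) else 0) =
      (if a = b then 1 / 2 else 1 / 4) * 2 ^ w := by
  have h1 : ∀ c : Fin w → Bool, (if c a = true ∧ c b = true then (1 : ℝ) else 0) =
      ∏ k : Fin w, (if k = a ∨ k = b then (if c k = true then (1 : ℝ) else 0) else 1) := by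
    intro c
    by_cases h : c a = true ∧ c b = true
    · rw [if_pos h]
      symm
      apply Finset.prod_eq_one
      intro k _
      by_cases hk : k = a ∨ k = b
      · rw [if_pos hk]
        rcases hk with rfl | rfl
        · rw [if_pos h.1]
        · rw [if_pos h.2]
      · rw [if_neg hk]
    · rw [if_neg h]
      symm
      rw [Finset.prod_eq_zero_iff]
      by_cases ha : c a = true
      · have hb : ¬ c b = true := fun hb => h ⟨ha, hb⟩
        exact ⟨b, Finset.mem_univ _, by simp [hb]⟩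
      · exact ⟨a, Finset.mem_univ _, by simp [ha]⟩
  rw [Finset.sum_congr rfl (fun c _ => h1 c)]
  have h2 : ∑ c : Fin w → Bool, ∏ k : Fin w,
      (if k = a ∨ k = b then (if c k = true then (1 : ℝ) else 0) else 1) =
      ∏ k : Fin w, ∑ t : Bool, (if k = a ∨ k = b then (if t = true then (1 : ℝ) else 0) else 1) := by
    rw [Finset.prod_univ_sum, Fintype.piFinset_univ]
  rw [h2]
  have h3 : ∀ k : Fin w, ∑ t : Bool,
      (if k = a ∨ k = b then (if t = true then (1 : ℝ) else 0) else 1) =
      2 * (if k = a ∨ k = b then 1 / 2 else 1) := by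
    intro k
    by_cases hk : k = a ∨ k = b
    · simp [hk]
    · simp [hk]
  rw [Finset.prod_congr rfl (fun k _ => h3 k), Finset.prod_mul_distrib, Finset.prod_const,
    Finset.card_univ, Fintype.card_fin, mul_comm]
  congr 1
  by_cases hab : a = b
  · subst hab
    rw [if_pos rfl]
    have : ∀ k : Fin w, (if k = a ∨ k = a then (1 / 2 : ℝ) else 1) = if k = a then 1 / 2 else 1 := by
      intro k; simp
    rw [Finset.prod_congr rfl (fun k _ => this k), Finset.prod_ite_eq' Finset.univ a]
    simp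
  · rw [if_neg hab]
    have : ∀ k : Fin w, (if k = a ∨ k = b then (1 / 2 : ℝ) else 1) =
        (if k = a then 1 / 2 else 1) * (if k = b then 1 / 2 else 1) := by
      intro k
      by_cases ha : k = a
      · have hb : k ≠ b := fun h => hab (ha ▸ h)
        simp [ha, hab]
      · simp [ha]
    rw [Finset.prod_congr rfl (fun k _ => this k), Finset.prod_mul_distrib,
      Finset.prod_ite_eq' Finset.univ a, Finset.prod_ite_eq' Finset.univ b]
    simp
    norm_num

/-- `y` lies in the box of the colouring `c` -/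
def InBox {L w : ℕ} (c : Fin L → Fin w → Bool) (y : Fin L → Fin w) : Prop := ∀ k, c k (y k) = true

instance {L w : ℕ} (c : Fin L → Fin w → Bool) (y : Fin L → Fin w) : Decidable (InBox c y) :=
  inferInstanceAs (Decidable (∀ k, c k (y k) = true))

theorem box_pair {L w : ℕ} (y z : Fin L → Fin w) :
    ∑ c : Fin L → Fin w → Bool, (if InBox c y ∧ InBox c z then (1 : ℝ) else 0) =
      (∏ k, (if y k = z k then (1 / 2 : ℝ) else 1 / 4)) * (2 ^ w) ^ L := by
  have h1 : ∀ c : Fin L → Fin w → Bool, (if InBox c y ∧ InBox c z then (1 : ℝ) else 0) =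
      ∏ k : Fin L, (if c k (y k) = true ∧ c k (z k) = true then (1 : ℝ) else 0) := by
    intro c
    by_cases h : InBox c y ∧ InBox c z
    · rw [if_pos h]
      symm
      apply Finset.prod_eq_one
      intro k _
      rw [if_pos ⟨h.1 k, h.2 k⟩]
    · rw [if_neg h]
      symm
      rw [Finset.prod_eq_zero_iff]
      by_contra hcon
      push Not at hcon
      apply h
      constructor
      · intro k
        have := hcon k (Finset.mem_univ _)
        by_contra hk
        exact this (if_neg (fun h => hk h.1))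
      · intro k
        have := hcon k (Finset.mem_univ _)
        by_contra hk
        exact this (if_neg (fun h => hk h.2))
  rw [Finset.sum_congr rfl (fun c _ => h1 c)]
  have h2 : ∑ c : Fin L → Fin w → Bool, ∏ k : Fin L,
      (if c k (y k) = true ∧ c k (z k) = true then (1 : ℝ) else 0) =
      ∏ k : Fin L, ∑ t : Fin w → Bool, (if t (y k) = true ∧ t (z k) = true then (1 : ℝ) else 0) := by
    rw [Finset.prod_univ_sum, Fintype.piFinset_univ]
  rw [h2, Finset.prod_congr rfl (fun k _ => color_pair w (y k) (z k)), Finset.prod_mul_distrib,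
    Finset.prod_const, Finset.card_univ, Fintype.card_fin]

theorem box_one {L w : ℕ} (y : Fin L → Fin w) :
    ∑ c : Fin L → Fin w → Bool, (if InBox c y then (1 : ℝ) else 0) =
      (1 / 2) ^ L * (2 ^ w) ^ L := by
  have := box_pair y y
  simp only [and_self, if_true, Finset.prod_const, Finset.card_univ, Fintype.card_fin] at this
  exact this

theorem sum_weights {L w : ℕ} (y : Fin L → Fin w) :
    ∑ z : Fin L → Fin w, ∏ k, (if y k = z k then (1 / 2 : ℝ) else 1 / 4) = ((w + 1) / 4) ^ L := by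
  have h : ∑ z : Fin L → Fin w, ∏ k, (if y k = z k then (1 / 2 : ℝ) else 1 / 4) =
      ∏ k : Fin L, ∑ t : Fin w, (if y k = t then (1 / 2 : ℝ) else 1 / 4) := by
    rw [Finset.prod_univ_sum, Fintype.piFinset_univ]
  rw [h]
  have h2 : ∀ k : Fin L, ∑ t : Fin w, (if y k = t then (1 / 2 : ℝ) else 1 / 4) = (w + 1) / 4 := by
    intro k
    have : ∀ t : Fin w, (if y k = t then (1 / 2 : ℝ) else 1 / 4) =
        1 / 4 + (if y k = t then 1 / 4 else 0) := by
      intro t
      split_ifs <;> norm_num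
    rw [Finset.sum_congr rfl (fun t _ => this t), Finset.sum_add_distrib, Finset.sum_const,
      Finset.card_univ, Fintype.card_fin, Finset.sum_ite_eq]
    simp
    ring
  rw [Finset.prod_congr rfl (fun k _ => h2 k), Finset.prod_const, Finset.card_univ,
    Fintype.card_fin]

/-- A set `T` of strings with `4 ((w+1)^L - w^L) ≤ |T|` is missed by at most a quarter of the
boxes. -/
theorem miss_le {L w : ℕ} (T : Finset (Fin L → Fin w))
    (hT : 4 * (((w : ℝ) + 1) ^ L - (w : ℝ) ^ L) ≤ T.card) (hT0 : 0 < T.card) :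
    4 * ((univ.filter (fun c : Fin L → Fin w → Bool => ∀ y ∈ T, ¬ InBox c y)).card : ℝ) ≤
      (Fintype.card (Fin L → Fin w → Bool) : ℝ) := by
  classical
  set M : ℝ := (2 ^ w) ^ L with hM
  have hMpos : 0 < M := by positivity
  have hcard : (Fintype.card (Fin L → Fin w → Bool) : ℝ) = M := by
    simp [hM]
  let Z : (Fin L → Fin w → Bool) → ℝ := fun c => ∑ y ∈ T, if InBox c y then (1 : ℝ) else 0
  have hZ0 : ∀ c, 0 ≤ Z c := fun c => Finset.sum_nonneg (fun y _ => by split_ifs <;> norm_num)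
  -- first moment
  have hfirst : ∑ c, Z c = T.card * ((1 / 2) ^ L * M) := by
    simp only [Z]
    rw [Finset.sum_comm, Finset.sum_congr rfl (fun y _ => box_one y), Finset.sum_const,
      nsmul_eq_mul]
  -- second moment
  have hsecond : ∑ c, Z c ^ 2 ≤ (5 / 4) * T.card ^ 2 * ((1 / 4) ^ L * M) := by
    have h1 : ∀ c, Z c ^ 2 = ∑ y ∈ T, ∑ z ∈ T, if InBox c y ∧ InBox c z then (1 : ℝ) else 0 := by
      intro c
      rw [sq, Finset.sum_mul_sum]
      refine Finset.sum_congr rfl fun y _ => Finset.sum_congr rfl fun z _ => ?_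
      by_cases hy : InBox c y
      · by_cases hz : InBox c z
        · simp [hy, hz]
        · simp [hz]
      · simp [hy]
    rw [Finset.sum_congr rfl (fun c _ => h1 c), Finset.sum_comm]
    have h2 : ∀ y ∈ T, ∑ c : Fin L → Fin w → Bool, ∑ z ∈ T,
        (if InBox c y ∧ InBox c z then (1 : ℝ) else 0) ≤ (5 / 4) * T.card * ((1 / 4) ^ L * M) := by
      intro y _
      rw [Finset.sum_comm, Finset.sum_congr rfl (fun z _ => box_pair y z), ← Finset.sum_mul]
      have h3 : ∑ z ∈ T, ∏ k, (if y k = z k then (1 / 2 : ℝ) else 1 / 4) ≤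
          (5 / 4) * T.card * (1 / 4) ^ L := by
        have h4 : ∑ z ∈ T, (∏ k, (if y k = z k then (1 / 2 : ℝ) else 1 / 4) - (1 / 4) ^ L) ≤
            ∑ z : Fin L → Fin w, (∏ k, (if y k = z k then (1 / 2 : ℝ) else 1 / 4) - (1 / 4) ^ L) := by
          apply Finset.sum_le_sum_of_subset_of_nonneg (Finset.subset_univ _)
          intro z _ _
          rw [sub_nonneg]
          calc ((1 : ℝ) / 4) ^ L = ∏ _k : Fin L, (1 / 4 : ℝ) := by simp
            _ ≤ _ := by
              apply Finset.prod_le_prod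
              · intro k _; norm_num
              · intro k _; split_ifs <;> norm_num
        rw [Finset.sum_sub_distrib, Finset.sum_sub_distrib, sum_weights, Finset.sum_const,
          Finset.sum_const, Finset.card_univ, nsmul_eq_mul, nsmul_eq_mul] at h4
        have h5 : (Fintype.card (Fin L → Fin w) : ℝ) = (w : ℝ) ^ L := by simp
        rw [h5] at h4
        have h6 : (((w : ℝ) + 1) / 4) ^ L = ((w : ℝ) + 1) ^ L * (1 / 4) ^ L := by
          rw [← mul_pow]; congr 1; ring
        rw [h6] at h4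
        have h7 : (0 : ℝ) < (1 / 4) ^ L := by positivity
        nlinarith [mul_le_mul_of_nonneg_right hT h7.le]
      calc (∑ z ∈ T, ∏ k, (if y k = z k then (1 / 2 : ℝ) else 1 / 4)) * (2 ^ w) ^ L
          ≤ ((5 / 4) * T.card * (1 / 4) ^ L) * (2 ^ w) ^ L :=
            mul_le_mul_of_nonneg_right h3 (by positivity)
        _ = _ := by rw [hM]; ring
    calc _ ≤ ∑ y ∈ T, (5 / 4) * (T.card : ℝ) * ((1 / 4) ^ L * M) := Finset.sum_le_sum h2
      _ = _ := by rw [Finset.sum_const, nsmul_eq_mul]; ring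
  -- Cauchy-Schwarz
  set P : Finset (Fin L → Fin w → Bool) := univ.filter (fun c => ¬ ∀ y ∈ T, ¬ InBox c y) with hPdef
  set Q : Finset (Fin L → Fin w → Bool) := univ.filter (fun c => ∀ y ∈ T, ¬ InBox c y) with hQdef
  have hQZ : ∀ c ∈ Q, Z c = 0 := by
    intro c hc
    rw [hQdef, Finset.mem_filter] at hc
    apply Finset.sum_eq_zero
    intro y hy
    rw [if_neg (hc.2 y hy)]
  have hsplit : ∑ c, Z c = ∑ c ∈ P, Z c := by
    rw [← Finset.sum_filter_add_sum_filter_not Finset.univ (fun c => ∀ y ∈ T, ¬ InBox c y) Z,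
      Finset.sum_eq_zero hQZ, zero_add]
  have hPQ : (Q.card : ℝ) + P.card = M := by
    rw [← hcard]
    have := Finset.card_filter_add_card_filter_not (s := (Finset.univ : Finset (Fin L → Fin w → Bool)))
      (fun c => ∀ y ∈ T, ¬ InBox c y)
    rw [Finset.card_univ] at this
    exact_mod_cast this
  have hCS : (∑ c ∈ P, Z c) ^ 2 ≤ P.card * ∑ c ∈ P, Z c ^ 2 := sq_sum_le_card_mul_sum_sq
  have hCS2 : ∑ c ∈ P, Z c ^ 2 ≤ ∑ c, Z c ^ 2 :=
    Finset.sum_le_sum_of_subset_of_nonneg (Finset.subset_univ _) (fun c _ _ => sq_nonneg _)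
  rw [← hsplit, hfirst] at hCS
  have hkey : ((T.card : ℝ) * ((1 / 2) ^ L * M)) ^ 2 ≤
      P.card * ((5 / 4) * T.card ^ 2 * ((1 / 4) ^ L * M)) :=
    hCS.trans (mul_le_mul_of_nonneg_left (hCS2.trans hsecond) (Nat.cast_nonneg _))
  have hT0' : (0 : ℝ) < T.card := by exact_mod_cast hT0
  have h14 : ((1 : ℝ) / 2) ^ L * (1 / 2) ^ L = (1 / 4) ^ L := by
    rw [← mul_pow]; norm_num
  have hkey2 : (T.card : ℝ) ^ 2 * ((1 / 4) ^ L * M) * M ≤
      (T.card : ℝ) ^ 2 * ((1 / 4) ^ L * M) * ((5 / 4) * P.card) := by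
    calc (T.card : ℝ) ^ 2 * ((1 / 4) ^ L * M) * M
        = ((T.card : ℝ) * ((1 / 2) ^ L * M)) ^ 2 := by rw [← h14]; ring
      _ ≤ _ := hkey
      _ = _ := by ring
  have hpos : 0 < (T.card : ℝ) ^ 2 * ((1 / 4) ^ L * M) := by positivity
  have hfin : M ≤ (5 / 4) * P.card := le_of_mul_le_mul_left hkey2 hpos
  rw [hcard]
  have hQ0 : (0 : ℝ) ≤ Q.card := Nat.cast_nonneg _
  nlinarith

/-- the opposite colouring -/
def flip {L w : ℕ} (c : Fin L → Fin w → Bool) : Fin L → Fin w → Bool := fun k a => !(c k a)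

theorem flip_flip {L w : ℕ} (c : Fin L → Fin w → Bool) : flip (flip c) = c := by
  funext k a
  simp [flip]

theorem miss_flip_le {L w : ℕ} (T : Finset (Fin L → Fin w))
    (hT : 4 * (((w : ℝ) + 1) ^ L - (w : ℝ) ^ L) ≤ T.card) (hT0 : 0 < T.card) :
    4 * ((univ.filter (fun c : Fin L → Fin w → Bool => ∀ y ∈ T, ¬ InBox (flip c) y)).card : ℝ) ≤
      (Fintype.card (Fin L → Fin w → Bool) : ℝ) := by
  have h := miss_le T hT hT0
  have hcard : (univ.filter (fun c : Fin L → Fin w → Bool => ∀ y ∈ T, ¬ InBox (flip c) y)).card =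
      (univ.filter (fun c : Fin L → Fin w → Bool => ∀ y ∈ T, ¬ InBox c y)).card := by
    apply Finset.card_bij' (fun c _ => flip c) (fun c _ => flip c)
    · intro c hc
      rw [Finset.mem_filter] at hc ⊢
      exact ⟨Finset.mem_univ _, hc.2⟩
    · intro c hc
      rw [Finset.mem_filter] at hc ⊢
      refine ⟨Finset.mem_univ _, ?_⟩
      rw [flip_flip]
      exact hc.2
    · intro c _
      exact flip_flip c
    · intro c _
      exact flip_flip c
  rw [hcard]
  exact h

/-- Some colouring is good for at least half of the sets. -/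
theorem exists_coloring {L w : ℕ} {ι : Type} (R : Finset ι) (T : ι → Finset (Fin L → Fin w))
    (hT : ∀ x ∈ R, 4 * (((w : ℝ) + 1) ^ L - (w : ℝ) ^ L) ≤ (T x).card)
    (hT0 : ∀ x ∈ R, 0 < (T x).card) :
    ∃ c : Fin L → Fin w → Bool, ∃ R' ⊆ R, R.card ≤ 2 * R'.card ∧
      ∀ x ∈ R', (∃ y ∈ T x, InBox c y) ∧ (∃ y ∈ T x, InBox (flip c) y) := by
  classical
  set N : ℝ := (Fintype.card (Fin L → Fin w → Bool) : ℝ) with hN
  have hNpos : 0 < N := by
    rw [hN]
    exact_mod_cast Fintype.card_pos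
  let bad : (Fin L → Fin w → Bool) → ι → Prop :=
    fun c x => (∀ y ∈ T x, ¬ InBox c y) ∨ (∀ y ∈ T x, ¬ InBox (flip c) y)
  have h1 : ∀ x ∈ R, ∑ c, (if bad c x then (1 : ℝ) else 0) ≤ N / 2 := by
    intro x hx
    have ha := miss_le (T x) (hT x hx) (hT0 x hx)
    have hb := miss_flip_le (T x) (hT x hx) (hT0 x hx)
    have hc : ∑ c, (if bad c x then (1 : ℝ) else 0) ≤
        ∑ c, (if (∀ y ∈ T x, ¬ InBox c y) then (1 : ℝ) else 0) +
        ∑ c, (if (∀ y ∈ T x, ¬ InBox (flip c) y) then (1 : ℝ) else 0) := by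
      rw [← Finset.sum_add_distrib]
      apply Finset.sum_le_sum
      intro c _
      by_cases h1 : ∀ y ∈ T x, ¬ InBox c y
      · have : bad c x := Or.inl h1
        rw [if_pos this, if_pos h1]
        split_ifs <;> norm_num
      · by_cases h2 : ∀ y ∈ T x, ¬ InBox (flip c) y
        · have : bad c x := Or.inr h2
          rw [if_pos this, if_neg h1, if_pos h2]
          norm_num
        · have : ¬ bad c x := fun h => h.elim h1 h2
          rw [if_neg this, if_neg h1, if_neg h2]
          norm_num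
    simp only [Finset.sum_boole] at hc ⊢
    linarith
  have h2 : ∑ c, ∑ x ∈ R, (if bad c x then (1 : ℝ) else 0) ≤ ∑ _c : Fin L → Fin w → Bool,
      (R.card : ℝ) / 2 := by
    rw [Finset.sum_comm, Finset.sum_const, Finset.card_univ, nsmul_eq_mul, ← hN]
    calc _ ≤ ∑ x ∈ R, N / 2 := Finset.sum_le_sum h1
      _ = _ := by rw [Finset.sum_const, nsmul_eq_mul]; ring
  obtain ⟨c, -, hc⟩ := Finset.exists_le_of_sum_le (Finset.univ_nonempty) h2
  refine ⟨c, R.filter (fun x => ¬ bad c x), Finset.filter_subset _ _, ?_, ?_⟩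
  · rw [Finset.sum_boole] at hc
    have h3 := Finset.card_filter_add_card_filter_not (s := R) (fun x => bad c x)
    have h4 : ((R.filter (fun x => bad c x)).card : ℝ) + (R.filter (fun x => ¬ bad c x)).card =
        R.card := by exact_mod_cast h3
    have h5 : (R.card : ℝ) ≤ 2 * (R.filter (fun x => ¬ bad c x)).card := by linarith
    exact_mod_cast h5
  · intro x hx
    rw [Finset.mem_filter] at hx
    have hx2 := hx.2
    simp only [bad, not_or, not_forall, not_not] at hx2
    obtain ⟨⟨y, hy, hy2⟩, ⟨z, hz, hz2⟩⟩ := hx2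
    exact ⟨⟨y, hy, hy2⟩, ⟨z, hz, hz2⟩⟩

end Pool.Agent.H.MP_027d00_lc
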