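import Pool.Agent.H.MP_027d00_lc.Basic

/-!
# Monotone circuits of bounded depth and layered reachability
-/

set_option autoImplicit false

namespace Pool.Agent.H.MP_027d00_lc

namespace MonoDepth

variable {V V' : Type}

theorem succ {D : ℕ} {f : (V → Bool) → Bool} (h : MonoDepth D f) : MonoDepth (D + 1) f := by
  induction h with
  | var D v => exact var _ v
  | const D b => exact const _ b
  | and _ _ ihf ihg => exact and ihf ihg
  | or _ _ ihf ihg => exact or ihf ihg

theorem mono {D E : ℕ} {f : (V → Bool) → Bool} (h : MonoDepth D f) (hDE : D ≤ E) :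
    MonoDepth E f := by
  induction hDE with
  | refl => exact h
  | step _ ih => exact ih.succ

/-- monotone circuits compute monotone functions -/
theorem monotone {D : ℕ} {f : (V → Bool) → Bool} (h : MonoDepth D f) : Monotone f := by
  induction h with
  | var D v => intro x y hxy; exact hxy v
  | const D b => intro x y _; exact le_rfl
  | and _ _ ihf ihg =>
    intro x y hxy
    have h1 := ihf hxy
    have h2 := ihg hxy
    revert h1 h2
    dsimp only
    generalize_proofs
    intro h1 h2
    exact inf_le_inf h1 h2
  | or _ _ ihf ihg =>
    intro x y hxy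
    have h1 := ihf hxy
    have h2 := ihg hxy
    exact sup_le_sup h1 h2

/-- substitution of variables and constants -/
theorem subst {D : ℕ} {f : (V' → Bool) → Bool} (h : MonoDepth D f)
    (θ : V' → (V → Bool) → Bool) (hθ : ∀ v, (∃ u, θ v = fun x => x u) ∨ ∃ b, θ v = fun _ => b) :
    MonoDepth D (fun x => f (fun v => θ v x)) := by
  induction h with
  | var D v =>
    rcases hθ v with ⟨u, hu⟩ | ⟨b, hb⟩
    · simp only [hu]; exact var _ u
    · simp only [hb]; exact const _ b
  | const D b => exact const _ b
  | and _ _ ihf ihg => exact and ihf ihg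
  | or _ _ ihf ihg => exact or ihf ihg

end MonoDepth

end Pool.Agent.H.MP_027d00_lc
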