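import Pool.Agent.H.MP_027d00_lc.Hybrid
import Pool.Agent.H.MP_027d00_lc.Circuit

/-!
# The explicit family and the numerical estimates
-/

set_option autoImplicit false

namespace Pool.Agent.H.MP_027d00_lc

/-- `log₂` of the number of variables -/
noncomputable def logVars (m t : ℕ) : ℝ := Real.logb 2 (Fintype.card (Var m t))

theorem card_var (m t : ℕ) : Fintype.card (Var m t) =
    2 ^ (t ^ (m + 1)) * ((2 ^ (t ^ m) + 1) * (16 ^ (t ^ m) * 16 ^ (t ^ m))) := by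
  simp

theorem card_le (m t : ℕ) : Fintype.card (Var m t) ≤ 2 ^ (t ^ (m + 1) + 9 * t ^ m + 1) := by
  rw [card_var]
  have h1 : 2 ^ (t ^ m) + 1 ≤ 2 ^ (t ^ m + 1) := by
    have : 1 ≤ 2 ^ (t ^ m) := Nat.one_le_two_pow
    rw [pow_succ]; omega
  have h2 : 16 ^ (t ^ m) * 16 ^ (t ^ m) = 2 ^ (8 * t ^ m) := by
    rw [← mul_pow, pow_mul]; norm_num
  rw [h2]
  calc 2 ^ (t ^ (m + 1)) * ((2 ^ (t ^ m) + 1) * 2 ^ (8 * t ^ m))
      ≤ 2 ^ (t ^ (m + 1)) * (2 ^ (t ^ m + 1) * 2 ^ (8 * t ^ m)) :=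
        Nat.mul_le_mul_left _ (Nat.mul_le_mul_right _ h1)
    _ = 2 ^ (t ^ (m + 1) + 9 * t ^ m + 1) := by
        rw [← pow_add, ← pow_add]; congr 1; ring

theorem le_card (m t : ℕ) : 2 ^ (t ^ (m + 1)) ≤ Fintype.card (Var m t) := by
  rw [card_var]
  apply Nat.le_mul_of_pos_right
  positivity

theorem logVars_le (m t : ℕ) : logVars m t ≤ (t : ℝ) ^ (m + 1) + 9 * (t : ℝ) ^ m + 1 := by
  have h := card_le m t
  have hpos : (0 : ℝ) < Fintype.card (Var m t) := by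
    have := le_card m t
    have h1 : 0 < 2 ^ (t ^ (m + 1)) := by positivity
    exact_mod_cast h1.trans_le this
  have h2 : (Fintype.card (Var m t) : ℝ) ≤ 2 ^ ((t ^ (m + 1) + 9 * t ^ m + 1 : ℕ)) := by
    exact_mod_cast h
  calc logVars m t ≤ Real.logb 2 (2 ^ ((t ^ (m + 1) + 9 * t ^ m + 1 : ℕ))) :=
        Real.logb_le_logb_of_le (by norm_num) hpos h2
    _ = ((t ^ (m + 1) + 9 * t ^ m + 1 : ℕ) : ℝ) := by
        rw [Real.logb_pow, Real.logb_self_eq_one (by norm_num), mul_one]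
    _ = _ := by push_cast; ring

theorem le_logVars (m t : ℕ) : (t : ℝ) ^ (m + 1) ≤ logVars m t := by
  have h := le_card m t
  have h2 : (2 : ℝ) ^ (t ^ (m + 1) : ℕ) ≤ (Fintype.card (Var m t) : ℝ) := by exact_mod_cast h
  calc (t : ℝ) ^ (m + 1) = ((t ^ (m + 1) : ℕ) : ℝ) := by push_cast; ring
    _ = Real.logb 2 (2 ^ (t ^ (m + 1) : ℕ)) := by
        rw [Real.logb_pow, Real.logb_self_eq_one (by norm_num), mul_one]
    _ ≤ _ := Real.logb_le_logb_of_le (by norm_num) (by positivity) h2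

theorem pow_le_rpow (m t : ℕ) : (t : ℝ) ^ m ≤ logVars m t ^ ((m : ℝ) / (m + 1)) := by
  have h1 : (0 : ℝ) ≤ (t : ℝ) ^ (m + 1) := by positivity
  calc (t : ℝ) ^ m = ((t : ℝ) ^ (m + 1)) ^ ((m : ℝ) / (m + 1)) := by
        rw [← Real.rpow_natCast (t : ℝ) (m + 1), ← Real.rpow_mul (Nat.cast_nonneg _)]
        rw [← Real.rpow_natCast (t : ℝ) m]
        congr 1
        push_cast
        field_simp
    _ ≤ _ := Real.rpow_le_rpow h1 (le_logVars m t) (by positivity)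

theorem depth_bound10 {m t D : ℕ} (hm : 2 ≤ m) (ht : 1000 ≤ t)
    (hD : (D : ℝ) ≤ logVars m t ^ ((2 * m : ℝ) / (m + 1)) / 2) :
    D + 10 * t ^ (m + 1) + 3 * t ^ m + 12 < t ^ m * (t ^ m - 2) := by
  have htR : (1000 : ℝ) ≤ t := by exact_mod_cast ht
  have ht0 : (0 : ℝ) < t := by linarith
  set q : ℝ := (t : ℝ) ^ m with hq
  have hq1 : (1000000 : ℝ) ≤ q := by
    calc (1000000 : ℝ) = 1000 ^ 2 := by norm_num
      _ ≤ (t : ℝ) ^ 2 := pow_le_pow_left₀ (by norm_num) htR 2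
      _ ≤ (t : ℝ) ^ m := pow_le_pow_right₀ (by linarith) hm
  have hq0 : 0 < q := by linarith
  have hlog0 : 0 ≤ logVars m t := le_trans (by positivity) (le_logVars m t)
  -- upper bound for the logarithm
  have h1 : logVars m t ≤ (t : ℝ) ^ (m + 1) * (101 / 100) := by
    have h2 := logVars_le m t
    have h3 : (t : ℝ) ^ (m + 1) = t * q := by rw [hq]; ring
    rw [h3] at h2 ⊢
    nlinarith
  have h2 : logVars m t ^ ((2 * m : ℝ) / (m + 1)) ≤ q ^ 2 * (103 / 100) := by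
    calc logVars m t ^ ((2 * m : ℝ) / (m + 1))
        ≤ ((t : ℝ) ^ (m + 1) * (101 / 100)) ^ ((2 * m : ℝ) / (m + 1)) :=
          Real.rpow_le_rpow hlog0 h1 (by positivity)
      _ = ((t : ℝ) ^ (m + 1)) ^ ((2 * m : ℝ) / (m + 1)) *
          (101 / 100) ^ ((2 * m : ℝ) / (m + 1)) :=
          Real.mul_rpow (by positivity) (by norm_num)
      _ ≤ q ^ 2 * (103 / 100) := by
          have h4 : ((t : ℝ) ^ (m + 1)) ^ ((2 * m : ℝ) / (m + 1)) = q ^ 2 := by
            rw [hq, ← Real.rpow_natCast (t : ℝ) (m + 1), ← Real.rpow_mul ht0.le, ← pow_mul,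
              ← Real.rpow_natCast (t : ℝ) (m * 2)]
            congr 1
            push_cast
            field_simp
          have h5 : ((101 : ℝ) / 100) ^ ((2 * m : ℝ) / (m + 1)) ≤ 103 / 100 := by
            calc ((101 : ℝ) / 100) ^ ((2 * m : ℝ) / (m + 1)) ≤ (101 / 100) ^ (2 : ℝ) := by
                  apply Real.rpow_le_rpow_of_exponent_le (by norm_num)
                  rw [div_le_iff₀ (by positivity)]
                  linarith
              _ ≤ 103 / 100 := by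
                  rw [show (2 : ℝ) = ((2 : ℕ) : ℝ) by norm_num, Real.rpow_natCast]
                  norm_num
          rw [h4]
          exact mul_le_mul_of_nonneg_left h5 (by positivity)
  have h3 : (D : ℝ) ≤ q ^ 2 * (52 / 100) := by nlinarith [sq_nonneg q]
  have h4 : (t : ℝ) ^ (m + 1) ≤ q ^ 2 / 1000 := by
    have h5 : (t : ℝ) ^ (m + 1) = t * q := by rw [hq]; ring
    have h6 : (t : ℝ) * 1000 ≤ q := by
      calc (t : ℝ) * 1000 ≤ t * t := mul_le_mul_of_nonneg_left htR ht0.le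
        _ = (t : ℝ) ^ 2 := by ring
        _ ≤ (t : ℝ) ^ m := pow_le_pow_right₀ (by linarith) hm
    rw [h5, le_div_iff₀ (by norm_num)]
    nlinarith
  have h5 : (D : ℝ) + 10 * (t : ℝ) ^ (m + 1) + 3 * q + 12 < q * (q - 2) := by
    nlinarith
  have h6 : 2 ≤ t ^ m := by
    have h7 : (2 : ℝ) ≤ ((t ^ m : ℕ) : ℝ) := by
      push_cast
      linarith
    exact_mod_cast h7
  have h7 : ((D + 10 * t ^ (m + 1) + 3 * t ^ m + 12 : ℕ) : ℝ) <
      ((t ^ m * (t ^ m - 2) : ℕ) : ℝ) := by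
    rw [Nat.cast_mul, Nat.cast_sub h6]
    push_cast
    exact h5
  exact_mod_cast h7

theorem depth_bound {m t D : ℕ} (hm : 2 ≤ m) (ht : 1000 ≤ t)
    (hD : (D : ℝ) ≤ logVars m t ^ ((2 * m : ℝ) / (m + 1)) / 2) :
    D + 9 * t ^ (m + 1) + 3 * t ^ m + 12 < t ^ m * (t ^ m - 2) := by
  have := depth_bound10 hm ht hD
  omega

/-- Main inequality for the family. -/
theorem family_features {m t D : ℕ} (hm : 2 ≤ m) (ht : 1000 ≤ t)
    (hD : (D : ℝ) ≤ logVars m t ^ ((2 * m : ℝ) / (m + 1)) / 2)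
    (L : List ((Var m t → Bool) → Bool)) (hL : ∀ f ∈ L, MonoDepth D f)
    (hdet : ∀ x y, (∀ f ∈ L, f x = f y) → (family m t x ↔ family m t y)) :
    2 ^ (t ^ (m + 1)) ≤ 2 * L.length := by
  classical
  have hb := depth_bound hm ht hD
  have hq : 2 ≤ t ^ m := by
    calc 2 ≤ t := by omega
      _ = t ^ 1 := (pow_one t).symm
      _ ≤ t ^ m := Nat.pow_le_pow_right (by omega) (by omega)
  have h := features (K := 2 ^ (t ^ (m + 1))) hq (rfl : 16 ^ (t ^ m) = 16 ^ (t ^ m)) (t ^ m)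
    (t ^ (m + 1)) (by omega) le_rfl hb L.toFinset (fun f => f)
    (fun f hf => hL f (List.mem_toFinset.1 hf))
    (fun x y hxy => hdet x y (fun f hf => hxy f (List.mem_toFinset.2 hf)))
  exact h.trans (Nat.mul_le_mul_left _ (List.toFinset_card_le L))

/-- Circuits with few NOT gates. -/
theorem circuit_nots {m t : ℕ} (hm : 2 ≤ m) (ht : 1000 ≤ t) {s : ℕ} (C : Circuit (Var m t) s)
    (hC : ∀ x, C.eval x = true ↔ family m t x)
    (hD : (C.depth : ℝ) ≤ logVars m t ^ ((2 * m : ℝ) / (m + 1)) / 2) :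
    logVars m t - 10 * logVars m t ^ ((m : ℝ) / (m + 1)) ≤ C.nots := by
  obtain ⟨L, hlen, hL, hdet⟩ := Circuit.features C.depth C.nots C rfl le_rfl
  have h := family_features hm ht hD L hL (fun x y hxy => by
    rw [← hC, ← hC, hdet x y hxy])
  have h1 : 2 ^ (t ^ (m + 1)) < 2 ^ (C.nots + 2) := by
    have h2 : 2 ^ (C.nots + 2) = 2 * 2 ^ (C.nots + 1) := by ring
    omega
  have h3 := (Nat.pow_lt_pow_iff_right (by norm_num : 1 < 2)).1 h1
  have h4 : (t : ℝ) ^ (m + 1) ≤ C.nots + 1 := by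
    have : t ^ (m + 1) ≤ C.nots + 1 := by omega
    exact_mod_cast this
  have h5 := logVars_le m t
  have h6 := pow_le_rpow m t
  have h7 : (2 : ℝ) ≤ (t : ℝ) ^ m := by
    have htR : (1000 : ℝ) ≤ t := by exact_mod_cast ht
    calc (2 : ℝ) ≤ (t : ℝ) ^ 1 := by linarith
      _ ≤ (t : ℝ) ^ m := pow_le_pow_right₀ (by linarith) (by omega)
  linarith

/-- numerical estimate for the number of features -/
theorem card_mul_le (m t : ℕ) : (Fintype.card (Var m t) : ℝ) *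
    2 ^ (-(10 * logVars m t ^ ((m : ℝ) / (m + 1)))) ≤ 2 ^ ((t : ℝ) ^ (m + 1) - (t : ℝ) ^ m + 1) := by
  have h1 : (Fintype.card (Var m t) : ℝ) ≤ 2 ^ ((t : ℝ) ^ (m + 1) + 9 * (t : ℝ) ^ m + 1) := by
    have h2 : (Fintype.card (Var m t) : ℝ) ≤ 2 ^ ((t ^ (m + 1) + 9 * t ^ m + 1 : ℕ)) := by
      exact_mod_cast card_le m t
    rw [← Real.rpow_natCast] at h2
    push_cast at h2
    exact h2
  have h3 : (2 : ℝ) ^ (-(10 * logVars m t ^ ((m : ℝ) / (m + 1)))) ≤ 2 ^ (-(10 * (t : ℝ) ^ m)) := by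
    apply Real.rpow_le_rpow_of_exponent_le (by norm_num)
    have := pow_le_rpow m t
    linarith
  calc _ ≤ (2 : ℝ) ^ ((t : ℝ) ^ (m + 1) + 9 * (t : ℝ) ^ m + 1) * 2 ^ (-(10 * (t : ℝ) ^ m)) :=
        mul_le_mul h1 h3 (by positivity) (by positivity)
    _ = _ := by
        rw [← Real.rpow_add (by norm_num)]
        congr 1
        ring

/-- Arbitrary functions of few monotone functions. -/
theorem few_features {m t : ℕ} (hm : 2 ≤ m) (ht : 1000 ≤ t) {D M : ℕ}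
    (h : Fin M → (Var m t → Bool) → Bool) (hh : ∀ i, MonoDepth D (h i))
    (Φ : (Fin M → Bool) → Bool) (hΦ : ∀ x, Φ (fun i => h i x) = true ↔ family m t x)
    (hD : (D : ℝ) ≤ logVars m t ^ ((2 * m : ℝ) / (m + 1)) / 2) :
    (Fintype.card (Var m t) : ℝ) * 2 ^ (-(10 * logVars m t ^ ((m : ℝ) / (m + 1)))) ≤ M := by
  have h1 := family_features hm ht hD (List.ofFn h)
    (fun f hf => by
      rw [List.mem_ofFn] at hf
      obtain ⟨i, rfl⟩ := hf
      exact hh i)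
    (fun x y hxy => by
      have : (fun i => h i x) = fun i => h i y := by
        funext i
        exact hxy (h i) (by rw [List.mem_ofFn]; exact ⟨i, rfl⟩)
      rw [← hΦ, ← hΦ, this])
  rw [List.length_ofFn] at h1
  have h2 : (2 : ℝ) ^ ((t : ℝ) ^ (m + 1)) ≤ 2 * M := by
    have h3 : ((2 ^ (t ^ (m + 1)) : ℕ) : ℝ) ≤ ((2 * M : ℕ) : ℝ) := by exact_mod_cast h1
    push_cast at h3
    rw [← Real.rpow_natCast] at h3
    push_cast at h3
    exact h3
  refine (card_mul_le m t).trans ?_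
  have h7 : (2 : ℝ) ≤ (t : ℝ) ^ m := by
    have htR : (1000 : ℝ) ≤ t := by exact_mod_cast ht
    calc (2 : ℝ) ≤ (t : ℝ) ^ 1 := by linarith
      _ ≤ (t : ℝ) ^ m := pow_le_pow_right₀ (by linarith) (by omega)
  have h8 : (2 : ℝ) ^ ((t : ℝ) ^ (m + 1) - (t : ℝ) ^ m + 1) ≤
      2 ^ ((t : ℝ) ^ (m + 1) + (-1)) := by
    apply Real.rpow_le_rpow_of_exponent_le (by norm_num)
    linarith
  refine h8.trans ?_
  rw [Real.rpow_add (by norm_num), Real.rpow_neg_one]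
  linarith

/-- Formulas with few NOT gates. -/
theorem formula_nots {m t : ℕ} (hm : 2 ≤ m) (ht : 1000 ≤ t) (F : Formula (Var m t))
    (hF : ∀ x, F.eval x = true ↔ family m t x)
    (hD : (F.depth : ℝ) ≤ logVars m t ^ ((2 * m : ℝ) / (m + 1)) / 2) :
    (Fintype.card (Var m t) : ℝ) * 2 ^ (-(10 * logVars m t ^ ((m : ℝ) / (m + 1)))) ≤ F.nots := by
  obtain ⟨L, hlen, hL, hdet⟩ := F.features
  have h1 := family_features hm ht hD L hL (fun x y hxy => by
    rw [← hF, ← hF, hdet x y hxy])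
  have h1' : 2 ^ (t ^ (m + 1)) ≤ 10 * F.nots + 2 := by omega
  have h2 : (2 : ℝ) ^ ((t : ℝ) ^ (m + 1)) ≤ 10 * F.nots + 2 := by
    have h3 : ((2 ^ (t ^ (m + 1)) : ℕ) : ℝ) ≤ ((10 * F.nots + 2 : ℕ) : ℝ) := by
      exact_mod_cast h1'
    push_cast at h3
    rw [← Real.rpow_natCast] at h3
    push_cast at h3
    exact h3
  refine (card_mul_le m t).trans ?_
  have htR : (1000 : ℝ) ≤ t := by exact_mod_cast ht
  have h7 : (1000 : ℝ) ≤ (t : ℝ) ^ m := by
    calc (1000 : ℝ) ≤ (t : ℝ) ^ 1 := by linarith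
      _ ≤ (t : ℝ) ^ m := pow_le_pow_right₀ (by linarith) (by omega)
  have h8 : (2 : ℝ) ^ ((t : ℝ) ^ (m + 1) - (t : ℝ) ^ m + 1) ≤
      2 ^ ((t : ℝ) ^ (m + 1) + (-4)) := by
    apply Real.rpow_le_rpow_of_exponent_le (by norm_num)
    linarith
  have h9 : (32 : ℝ) ≤ 2 ^ ((t : ℝ) ^ (m + 1)) := by
    calc (32 : ℝ) = 2 ^ (5 : ℝ) := by
          rw [show (5 : ℝ) = ((5 : ℕ) : ℝ) by norm_num, Real.rpow_natCast]; norm_num
      _ ≤ _ := by
          apply Real.rpow_le_rpow_of_exponent_le (by norm_num)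
          calc (5 : ℝ) ≤ (t : ℝ) ^ 1 := by linarith
            _ ≤ (t : ℝ) ^ (m + 1) := pow_le_pow_right₀ (by linarith) (by omega)
  refine h8.trans ?_
  have h10 : (2 : ℝ) ^ (-4 : ℝ) = 1 / 16 := by
    rw [show (-4 : ℝ) = ((-4 : ℤ) : ℝ) by norm_num, Real.rpow_intCast]; norm_num
  rw [Real.rpow_add (by norm_num), h10]
  linarith

end Pool.Agent.H.MP_027d00_lc
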