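import Pool.Agent.H.MP_027d00_lc.Graph

/-!
# The lower bound for layered reachability
-/

set_option autoImplicit false

open Finset

namespace Pool.Agent.H.MP_027d00_lc

section

variable {w : ℕ} [NeZero w]

theorem reduce_right {L M D : ℕ} (s : Fin w) (x : Fin L → Fin w)
    {h : (E w → Bool) → Bool} (hh : MonoDepth D h) (T : Finset (Fin M → Fin w))
    (hv : ∀ y ∈ T, h (path s (Fin.append x y)) = true ∧ h (cut s (Fin.append x y)) = false) :
    ∃ h' : (E w → Bool) → Bool, MonoDepth D h' ∧ Valid (vert s x L) h' T := by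
  classical
  let θ : E w → (E w → Bool) → Bool := fun e F =>
    if e.1 < L then decide (e.2.1 ≠ vert s x e.1 ∨ e.2.2 = vert s x (e.1 + 1))
    else if e.1 = L ∧ e.2.1 ≠ vert s x L then true else F (e.1 - L, e.2.1, e.2.2)
  refine ⟨fun F => h (fun e => θ e F), hh.subst θ ?_, ?_⟩
  · intro e
    by_cases h1 : e.1 < L
    · right
      exact ⟨decide (e.2.1 ≠ vert s x e.1 ∨ e.2.2 = vert s x (e.1 + 1)),
        by funext F; simp only [θ, if_pos h1]⟩
    · by_cases h2 : e.1 = L ∧ e.2.1 ≠ vert s x L
      · right
        exact ⟨true, by funext F; simp only [θ, if_neg h1, if_pos h2]⟩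
      · left
        exact ⟨(e.1 - L, e.2.1, e.2.2), by funext F; simp only [θ, if_neg h1, if_neg h2]⟩
  · intro y hy
    obtain ⟨hp, hc⟩ := hv y hy
    constructor
    · have hle : path s (Fin.append x y) ≤ fun e => θ e (path (vert s x L) y) := by
        rintro ⟨i, a, b⟩
        rw [Bool.le_iff_imp]
        intro he
        simp only [path, decide_eq_true_eq] at he
        obtain ⟨hi, ha, hb⟩ := he
        by_cases h1 : i < L
        · simp only [θ, if_pos h1, decide_eq_true_eq]
          right
          rw [hb, vert_append_left _ _ _ _ (by omega)]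
        · obtain ⟨k, rfl⟩ : ∃ k, i = L + k := ⟨i - L, by omega⟩
          rw [vert_append_right] at ha
          rw [Nat.add_assoc, vert_append_right] at hb
          by_cases h2 : L + k = L ∧ a ≠ vert s x L
          · simp only [θ, if_neg h1, if_pos h2]
          · simp only [θ, if_neg h1, if_neg h2, path, decide_eq_true_eq, Nat.add_sub_cancel_left]
            exact ⟨by omega, ha, hb⟩
      have := hh.monotone hle
      rw [hp] at this
      exact Bool.eq_true_of_true_le this
    · have hle : (fun e => θ e (cut (vert s x L) y)) ≤ cut s (Fin.append x y) := by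
        rintro ⟨i, a, b⟩
        rw [Bool.le_iff_imp]
        intro he
        simp only [cut, decide_eq_true_eq]
        by_cases h1 : i < L
        · simp only [θ, if_pos h1, decide_eq_true_eq] at he
          rcases he with ha | hb
          · left
            rw [vert_append_left _ _ _ _ (by omega)]
            exact ha
          · right
            refine ⟨by omega, ?_⟩
            rw [vert_append_left _ _ _ _ (by omega)]
            exact hb
        · obtain ⟨k, rfl⟩ : ∃ k, i = L + k := ⟨i - L, by omega⟩
          by_cases h2 : L + k = L ∧ a ≠ vert s x L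
          · left
            obtain ⟨hk, ha⟩ := h2
            have hk0 : k = 0 := by omega
            subst hk0
            rw [vert_append_right, vert_zero]
            exact ha
          · simp only [θ, if_neg h1, if_neg h2, cut, decide_eq_true_eq,
              Nat.add_sub_cancel_left] at he
            rcases he with ha | ⟨hk, hb⟩
            · left
              rw [vert_append_right]
              exact ha
            · right
              refine ⟨by omega, ?_⟩
              rw [Nat.add_assoc, vert_append_right]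
              exact hb
      have := hh.monotone hle
      rw [hc] at this
      exact Bool.eq_false_of_le_false this

theorem reduce_left {L M D : ℕ} (hM : 0 < M) (s : Fin w)
    {h : (E w → Bool) → Bool} (hh : MonoDepth D h) (c : Fin M → Fin w → Bool)
    (R : Finset (Fin L → Fin w))
    (hA : ∀ x ∈ R, ∃ y : Fin M → Fin w, InBox c y ∧ h (path s (Fin.append x y)) = true)
    (hB : ∀ x ∈ R, ∃ y : Fin M → Fin w, InBox (flip c) y ∧ h (cut s (Fin.append x y)) = false) :
    ∃ h' : (E w → Bool) → Bool, MonoDepth D h' ∧ Valid s h' R := by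
  classical
  let θ : E w → (E w → Bool) → Bool := fun e F =>
    if e.1 < L then F e
    else if e.1 = L then (if c ⟨0, hM⟩ e.2.2 = true then F (L, e.2.1, 0) else false)
    else if hk : e.1 - L - 1 < M then c ⟨e.1 - L - 1, hk⟩ e.2.1 else false
  refine ⟨fun F => h (fun e => θ e F), hh.subst θ ?_, ?_⟩
  · intro e
    by_cases h1 : e.1 < L
    · left
      exact ⟨e, by funext F; simp only [θ, if_pos h1]⟩
    · by_cases h2 : e.1 = L
      · by_cases h3 : c ⟨0, hM⟩ e.2.2 = true
        · left
          exact ⟨(L, e.2.1, 0), by funext F; simp only [θ, if_neg h1, if_pos h2, if_pos h3]⟩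
        · right
          exact ⟨false, by funext F; simp only [θ, if_neg h1, if_pos h2, if_neg h3]⟩
      · right
        by_cases h3 : e.1 - L - 1 < M
        · exact ⟨c ⟨e.1 - L - 1, h3⟩ e.2.1,
            by funext F; simp only [θ, if_neg h1, if_neg h2, dif_pos h3]⟩
        · exact ⟨false, by funext F; simp only [θ, if_neg h1, if_neg h2, dif_neg h3]⟩
  · intro x hx
    constructor
    · obtain ⟨y, hy, hp⟩ := hA x hx
      have hle : path s (Fin.append x y) ≤ fun e => θ e (path s x) := by
        rintro ⟨i, a, b⟩
        rw [Bool.le_iff_imp]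
        intro he
        simp only [path, decide_eq_true_eq] at he
        obtain ⟨hi, ha, hb⟩ := he
        by_cases h1 : i < L
        · simp only [θ, if_pos h1, path, decide_eq_true_eq]
          rw [vert_append_left _ _ _ _ (by omega)] at ha hb
          exact ⟨by omega, ha, hb⟩
        · by_cases h2 : i = L
          · subst h2
            have hb2 : b = y ⟨0, hM⟩ := by
              rw [hb, vert_append_right, vert_succ, dif_pos hM]
            have h3 : c ⟨0, hM⟩ b = true := by rw [hb2]; exact hy _
            simp only [θ, if_neg h1, if_true, if_pos h3, path, decide_eq_true_eq]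
            refine ⟨le_rfl, ?_, ?_⟩
            · rw [ha, vert_append_left _ _ _ _ le_rfl]
            · rw [vert_succ, dif_neg (lt_irrefl _)]
          · obtain ⟨k, rfl⟩ : ∃ k, i = L + (k + 1) := ⟨i - L - 1, by omega⟩
            have hk : k < M := by omega
            have hk' : L + (k + 1) - L - 1 < M := by omega
            have hk2 : (⟨L + (k + 1) - L - 1, hk'⟩ : Fin M) = ⟨k, hk⟩ := by
              apply Fin.ext
              simp only
              omega
            simp only [θ, if_neg h1, if_neg h2, dif_pos hk', hk2]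
            rw [ha, vert_append_right, vert_succ, dif_pos hk]
            exact hy _
      have := hh.monotone hle
      rw [hp] at this
      exact Bool.eq_true_of_true_le this
    · obtain ⟨y, hy, hc⟩ := hB x hx
      have hle : (fun e => θ e (cut s x)) ≤ cut s (Fin.append x y) := by
        rintro ⟨i, a, b⟩
        rw [Bool.le_iff_imp]
        intro he
        simp only [cut, decide_eq_true_eq]
        by_cases h1 : i < L
        · simp only [θ, if_pos h1, cut, decide_eq_true_eq] at he
          rcases he with ha | ⟨_, hb⟩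
          · left
            rw [vert_append_left _ _ _ _ (by omega)]
            exact ha
          · right
            refine ⟨by omega, ?_⟩
            rw [vert_append_left _ _ _ _ (by omega)]
            exact hb
        · by_cases h2 : i = L
          · subst h2
            left
            by_cases h3 : c ⟨0, hM⟩ b = true
            · simp only [θ, if_neg h1, if_true, if_pos h3, cut, decide_eq_true_eq,
                lt_irrefl, false_and, or_false] at he
              rw [vert_append_left _ _ _ _ le_rfl]
              exact he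
            · simp only [θ, if_neg h1, if_true, if_neg h3] at he
              exact absurd he (by decide)
          · left
            obtain ⟨k, rfl⟩ : ∃ k, i = L + (k + 1) := ⟨i - L - 1, by omega⟩
            by_cases hk' : L + (k + 1) - L - 1 < M
            · have hk : k < M := by omega
              have hk2 : (⟨L + (k + 1) - L - 1, hk'⟩ : Fin M) = ⟨k, hk⟩ := by
                apply Fin.ext
                simp only
                omega
              simp only [θ, if_neg h1, if_neg h2, dif_pos hk', hk2] at he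
              rw [vert_append_right, vert_succ, dif_pos hk]
              intro hay
              have hyk := hy ⟨k, hk⟩
              rw [← hay] at hyk
              simp only [flip, he] at hyk
              exact absurd hyk (by decide)
            · simp only [θ, if_neg h1, if_neg h2, dif_neg hk'] at he
              exact absurd he (by decide)
      have := hh.monotone hle
      rw [hc] at this
      exact Bool.eq_false_of_le_false this

end

/-- Bernoulli type estimate -/
theorem pow_succ_sub_le (w : ℝ) (hw : 0 < w) (L : ℕ) (hL : 2 * (L : ℝ) ≤ w) :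
    w * ((w + 1) ^ L - w ^ L) ≤ 2 * L * w ^ L := by
  induction L with
  | zero => simp
  | succ L ih =>
    have hL' : 2 * (L : ℝ) ≤ w := by
      push_cast at hL
      linarith
    have ih' := ih hL'
    push_cast at hL ⊢
    have hwL : 0 < w ^ L := by positivity
    have h1 : w * (w + 1) ^ L ≤ 2 * L * w ^ L + w * w ^ L := by linarith
    have h2 : w * (w + 1) ^ (L + 1) ≤ (2 * L * w ^ L + w * w ^ L) * (w + 1) := by
      calc w * (w + 1) ^ (L + 1) = (w * (w + 1) ^ L) * (w + 1) := by ring
        _ ≤ _ := mul_le_mul_of_nonneg_right h1 (by linarith)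
    have h3 : (2 * L * w ^ L + w * w ^ L) * (w + 1) =
        2 * L * w ^ (L + 1) + w * w ^ (L + 1) + (2 * L * w ^ L + w * w ^ L) := by ring
    have h4 : 2 * (L : ℝ) * w ^ L ≤ w * w ^ L := mul_le_mul_of_nonneg_right hL' hwL.le
    have h5 : w ^ (L + 1) = w * w ^ L := by ring
    calc w * ((w + 1) ^ (L + 1) - w ^ (L + 1)) = w * (w + 1) ^ (L + 1) - w * w ^ (L + 1) := by ring
      _ ≤ 2 * L * w ^ (L + 1) + (2 * L * w ^ L + w * w ^ L) := by linarith
      _ ≤ 2 * (L + 1) * w ^ (L + 1) := by
        rw [h5]
        linarith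

theorem amplify {q L D w : ℕ} [NeZero w] (hw : w = 16 ^ q) (hL0 : 0 < L)
    (hL : 4 * L ≤ 4 ^ q)
    (s : Fin w) {h : (E w → Bool) → Bool} (hh : MonoDepth D h)
    (S : Finset (Fin (L + L) → Fin w)) (hv : Valid s h S)
    (hS : 4 * w ^ (L + L) ≤ 4 ^ q * S.card) :
    ∃ (s' : Fin w) (h' : (E w → Bool) → Bool) (S' : Finset (Fin L → Fin w)),
      MonoDepth D h' ∧ Valid s' h' S' ∧ w ^ L ≤ 2 ^ q * S'.card := by
  classical
  let T : (Fin L → Fin w) → Finset (Fin L → Fin w) :=
    fun x => Finset.univ.filter (fun y => Fin.append x y ∈ S)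
  have hsum : ∑ x, (T x).card = S.card := by
    have h1 : ∑ x, (T x).card = ((Finset.univ : Finset (Fin L → Fin w)).sigma T).card := by
      rw [Finset.card_sigma]
    rw [h1]
    refine Finset.card_bij' (fun p _ => Fin.append p.1 p.2)
      (fun u _ => ⟨fun i => u (Fin.castAdd L i), fun i => u (Fin.natAdd L i)⟩) ?_ ?_ ?_ ?_
    · intro p hp
      rw [Finset.mem_sigma] at hp
      exact (Finset.mem_filter.1 hp.2).2
    · intro u hu
      rw [Finset.mem_sigma]
      refine ⟨Finset.mem_univ _, Finset.mem_filter.2 ⟨Finset.mem_univ _, ?_⟩⟩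
      dsimp only
      rw [Fin.append_castAdd_natAdd]
      exact hu
    · intro p hp
      obtain ⟨x, y⟩ := p
      dsimp only
      congr 1
      · funext i
        exact Fin.append_left _ _ _
      · simp only [Fin.append_right]
    · intro u hu
      dsimp only
      exact Fin.append_castAdd_natAdd
  by_cases hA : ∃ x, w ^ L ≤ 2 ^ q * (T x).card
  · obtain ⟨x, hx⟩ := hA
    obtain ⟨h', hh', hv'⟩ := reduce_right s x hh (T x) (fun y hy => hv _ (Finset.mem_filter.1 hy).2)
    exact ⟨_, h', T x, hh', hv', hx⟩
  · push Not at hA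
    let R : Finset (Fin L → Fin w) := Finset.univ.filter (fun x => 2 * w ^ L ≤ 4 ^ q * (T x).card)
    have hR : 2 * w ^ L ≤ 2 ^ q * R.card := by
      have h1 : 4 ^ q * S.card ≤ R.card * (2 ^ q * w ^ L) + w ^ L * (2 * w ^ L) := by
        rw [← hsum, Finset.mul_sum, ← Finset.sum_filter_add_sum_filter_not Finset.univ
          (fun x => 2 * w ^ L ≤ 4 ^ q * (T x).card)]
        apply Nat.add_le_add
        · calc _ ≤ ∑ x ∈ R, 2 ^ q * w ^ L := by
                apply Finset.sum_le_sum
                intro x _
                have := (hA x).le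
                calc 4 ^ q * (T x).card = 2 ^ q * (2 ^ q * (T x).card) := by
                      rw [← mul_assoc, ← mul_pow]; norm_num
                  _ ≤ _ := Nat.mul_le_mul_left _ this
            _ = _ := by rw [Finset.sum_const, smul_eq_mul]
        · calc _ ≤ ∑ x ∈ Finset.univ.filter (fun x => ¬ 2 * w ^ L ≤ 4 ^ q * (T x).card),
                (2 * w ^ L) := by
                apply Finset.sum_le_sum
                intro x hx
                have := (Finset.mem_filter.1 hx).2
                omega
            _ = (Finset.univ.filter (fun x => ¬ 2 * w ^ L ≤ 4 ^ q * (T x).card)).card *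
                (2 * w ^ L) := by rw [Finset.sum_const, smul_eq_mul]
            _ ≤ w ^ L * (2 * w ^ L) := by
                apply Nat.mul_le_mul_right
                calc _ ≤ (Finset.univ : Finset (Fin L → Fin w)).card :=
                      Finset.card_le_card (Finset.filter_subset _ _)
                  _ = w ^ L := by simp
      have hwpos : 0 < w ^ L := pow_pos (Nat.pos_of_neZero w) L
      have h2 : w ^ L * (2 * w ^ L) ≤ w ^ L * (2 ^ q * R.card) := by
        have h3 : 4 * w ^ (L + L) = 2 * (w ^ L * (2 * w ^ L)) := by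
          rw [pow_add]; ring
        have h4 : R.card * (2 ^ q * w ^ L) = w ^ L * (2 ^ q * R.card) := by ring
        omega
      exact le_of_mul_le_mul_left h2 hwpos
    have hcond : ∀ x ∈ R, 4 * (((w : ℝ) + 1) ^ L - (w : ℝ) ^ L) ≤ (T x).card := by
      intro x hx
      have hx2 : 2 * w ^ L ≤ 4 ^ q * (T x).card := (Finset.mem_filter.1 hx).2
      have hx3 : 2 * (w : ℝ) ^ L ≤ 4 ^ q * (T x).card := by exact_mod_cast hx2
      have hw16 : (w : ℝ) = 4 ^ q * 4 ^ q := by
        rw [hw]; push_cast; rw [← mul_pow]; norm_num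
      have h4q : (0 : ℝ) < 4 ^ q := by positivity
      have hLr : 4 * (L : ℝ) ≤ 4 ^ q := by exact_mod_cast hL
      have h1q : (1 : ℝ) ≤ 4 ^ q := one_le_pow₀ (by norm_num)
      have hwpos : (0 : ℝ) < w := by rw [hw16]; positivity
      have h2L : 2 * (L : ℝ) ≤ w := by
        rw [hw16]
        nlinarith
      have hb := pow_succ_sub_le (w : ℝ) hwpos L h2L
      have hwL : (0 : ℝ) < (w : ℝ) ^ L := by positivity
      -- w * (4 * diff) ≤ 8 L w^L ≤ 2 * 4^q * w^L ≤ 4^q * 4^q * card = w * card
      have h5 : (w : ℝ) * (4 * (((w : ℝ) + 1) ^ L - (w : ℝ) ^ L)) ≤ w * (T x).card := by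
        calc (w : ℝ) * (4 * (((w : ℝ) + 1) ^ L - (w : ℝ) ^ L))
            = 4 * (w * (((w : ℝ) + 1) ^ L - (w : ℝ) ^ L)) := by ring
          _ ≤ 4 * (2 * L * (w : ℝ) ^ L) := by linarith
          _ = (4 * L) * (2 * (w : ℝ) ^ L) := by ring
          _ ≤ 4 ^ q * (2 * (w : ℝ) ^ L) := mul_le_mul_of_nonneg_right hLr (by positivity)
          _ ≤ 4 ^ q * (4 ^ q * (T x).card) := mul_le_mul_of_nonneg_left hx3 h4q.le
          _ = w * (T x).card := by rw [hw16]; ring
      exact le_of_mul_le_mul_left h5 hwpos
    have hcond0 : ∀ x ∈ R, 0 < (T x).card := by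
      intro x hx
      have hx2 : 2 * w ^ L ≤ 4 ^ q * (T x).card := (Finset.mem_filter.1 hx).2
      have hwpos : 0 < w ^ L := pow_pos (Nat.pos_of_neZero w) L
      by_contra h0
      have h0' : (T x).card = 0 := by omega
      rw [h0'] at hx2
      omega
    obtain ⟨c, R', hR'R, hR'c, hR'⟩ := exists_coloring R T hcond hcond0
    obtain ⟨h', hh', hv'⟩ := reduce_left hL0 s hh c R'
      (fun x hx => by
        obtain ⟨⟨y, hy, hy2⟩, -⟩ := hR' x hx
        exact ⟨y, hy2, (hv _ (Finset.mem_filter.1 hy).2).1⟩)
      (fun x hx => by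
        obtain ⟨-, ⟨y, hy, hy2⟩⟩ := hR' x hx
        exact ⟨y, hy2, (hv _ (Finset.mem_filter.1 hy).2).2⟩)
    refine ⟨s, h', R', hh', hv', ?_⟩
    have h6 : 2 ^ q * R.card ≤ 2 ^ q * (2 * R'.card) := Nat.mul_le_mul_left _ hR'c
    have h7 : 2 ^ q * (2 * R'.card) = 2 * (2 ^ q * R'.card) := by ring
    omega

/-- lengths `2 ^ j`, by doubling -/
def len : ℕ → ℕ
  | 0 => 1
  | j + 1 => len j + len j

theorem len_eq (j : ℕ) : len j = 2 ^ j := by
  induction j with
  | zero => rfl
  | succ j ih => rw [len, ih]; ring

theorem gs_aux {q w : ℕ} (hq : 2 ≤ q) [NeZero w] (hw : w = 16 ^ q) (j : ℕ)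
    (hj : j + 1 ≤ 2 * q) {D : ℕ}
    (s : Fin w) {h : (E w → Bool) → Bool} (hh : MonoDepth D h)
    (S : Finset (Fin (len j) → Fin w)) (hv : Valid s h S)
    (hS : w ^ (len j) ≤ 2 ^ q * S.card) : j * (q - 2) + 3 * q ≤ D := by
  induction j generalizing D s h with
  | zero =>
    by_contra hlt
    push Not at hlt
    have hD : MonoDepth (0 + D) h := by rw [Nat.zero_add]; exact hh
    obtain ⟨h', S', hh', hv', hc⟩ := halve_iter D hD hv
    have h0 := depth_zero (by decide : 0 < len 0) hh' hv'
    have hl : w ^ (len 0) = w := by simp [len]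
    rw [hl] at h0 hS
    have hwpos : 0 < w := Nat.pos_of_neZero w
    have hS' : S'.card ≤ 1 := by
      by_contra hcon
      push Not at hcon
      have : w * 2 ≤ w * S'.card := Nat.mul_le_mul_left _ hcon
      omega
    have h1 : w ≤ 2 ^ q * (2 ^ D * 1) := by
      calc w ≤ 2 ^ q * S.card := hS
        _ ≤ 2 ^ q * (2 ^ D * S'.card) := Nat.mul_le_mul_left _ hc
        _ ≤ 2 ^ q * (2 ^ D * 1) := Nat.mul_le_mul_left _ (Nat.mul_le_mul_left _ hS')
    rw [hw, mul_one, ← pow_add, show (16 : ℕ) = 2 ^ 4 by norm_num, ← pow_mul] at h1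
    have h2 := (Nat.pow_le_pow_iff_right (by norm_num : 1 < 2)).1 h1
    omega
  | succ j ih =>
    have hL0 : 0 < len j := by rw [len_eq]; positivity
    -- D ≥ q - 2
    have hDq : q - 2 ≤ D := by
      by_contra hlt
      push Not at hlt
      have hD : MonoDepth (0 + D) h := by rw [Nat.zero_add]; exact hh
      obtain ⟨h', S', hh', hv', hc⟩ := halve_iter D hD hv
      have h0 := depth_zero (by rw [len]; omega : 0 < len (j + 1)) hh' hv'
      have hWpos : 0 < w ^ (len (j + 1)) := pow_pos (Nat.pos_of_neZero w) _
      have h1 : w * w ^ (len (j + 1)) ≤ 2 ^ q * 2 ^ D * w ^ (len (j + 1)) := by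
        calc w * w ^ (len (j + 1)) ≤ w * (2 ^ q * S.card) := Nat.mul_le_mul_left _ hS
          _ ≤ w * (2 ^ q * (2 ^ D * S'.card)) :=
            Nat.mul_le_mul_left _ (Nat.mul_le_mul_left _ hc)
          _ = 2 ^ q * 2 ^ D * (w * S'.card) := by ring
          _ ≤ 2 ^ q * 2 ^ D * w ^ (len (j + 1)) := Nat.mul_le_mul_left _ h0
      have h2 : w ≤ 2 ^ q * 2 ^ D := le_of_mul_le_mul_right h1 hWpos
      rw [hw, ← pow_add, show (16 : ℕ) = 2 ^ 4 by norm_num, ← pow_mul] at h2
      have h3 := (Nat.pow_le_pow_iff_right (by norm_num : 1 < 2)).1 h2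
      omega
    have hD : MonoDepth ((D - (q - 2)) + (q - 2)) h := by
      rw [Nat.sub_add_cancel hDq]; exact hh
    obtain ⟨h1, S1, hh1, hv1, hc1⟩ := halve_iter (q - 2) hD hv
    have hS1 : 4 * w ^ (len j + len j) ≤ 4 ^ q * S1.card := by
      have h4 : (4 : ℕ) ^ q = 2 ^ q * 2 ^ q := by rw [← mul_pow]; norm_num
      have h5 : (2 : ℕ) ^ q = 4 * 2 ^ (q - 2) := by
        obtain ⟨r, rfl⟩ : ∃ r, q = r + 2 := ⟨q - 2, by omega⟩
        simp only [Nat.add_sub_cancel]
        rw [pow_add]; ring
      calc 4 * w ^ (len j + len j) ≤ 4 * (2 ^ q * S.card) := Nat.mul_le_mul_left _ hS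
        _ ≤ 4 * (2 ^ q * (2 ^ (q - 2) * S1.card)) :=
          Nat.mul_le_mul_left _ (Nat.mul_le_mul_left _ hc1)
        _ = 2 ^ q * (4 * 2 ^ (q - 2)) * S1.card := by ring
        _ = 4 ^ q * S1.card := by rw [h4, ← h5]
    have hL : 4 * len j ≤ 4 ^ q := by
      rw [len_eq]
      calc 4 * 2 ^ j = 2 ^ (j + 2) := by rw [pow_add]; ring
        _ ≤ 2 ^ (2 * q) := Nat.pow_le_pow_right (by norm_num) (by omega)
        _ = 4 ^ q := by rw [pow_mul]; norm_num
    obtain ⟨s', h', S', hh', hv', hc'⟩ := amplify hw hL0 hL s hh1 S1 hv1 hS1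
    have := ih (by omega) s' hh' S' hv' hc'
    have h6 : (j + 1) * (q - 2) = j * (q - 2) + (q - 2) := by ring
    omega

/-- Lower bound: a monotone circuit separating all paths from all cuts (with `2 ^ j` inner layers
of width `16 ^ q`) has depth at least `j (q - 2) + 3 q`. -/
theorem gs {q w : ℕ} (hq : 2 ≤ q) [NeZero w] (hw : w = 16 ^ q) (j : ℕ) (hj : j + 1 ≤ 2 * q)
    {D : ℕ} (s : Fin w) {h : (E w → Bool) → Bool} (hh : MonoDepth D h)
    (hv : ∀ u : Fin (2 ^ j) → Fin w, h (path s u) = true ∧ h (cut s u) = false) :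
    j * (q - 2) + 3 * q ≤ D := by
  rw [← len_eq j] at hv
  refine gs_aux hq hw j hj s hh Finset.univ (fun u _ => hv u) ?_
  rw [Finset.card_univ, Fintype.card_fun, Fintype.card_fin, Fintype.card_fin]
  exact Nat.le_mul_of_pos_left _ (by positivity)

end Pool.Agent.H.MP_027d00_lc
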