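import Pool.Agent.H.MP_027d00_lc.Defs
import Pool.Agent.H.MP_027d00_lc.Color

/-!
# The density argument of Grigni and Sipser for layered reachability
-/

set_option autoImplicit false

open Finset

namespace Pool.Agent.H.MP_027d00_lc

/-- edges `(i, a, b)`: from vertex `a` of layer `i` to vertex `b` of layer `i + 1` -/
abbrev E (w : ℕ) : Type := ℕ × Fin w × Fin w

/-- The vertex sequence `s, u_1, ..., u_l, 0, 0, ...` -/
def vert {w l : ℕ} [NeZero w] (s : Fin w) (u : Fin l → Fin w) (i : ℕ) : Fin w :=
  if i = 0 then s else if h : i - 1 < l then u ⟨i - 1, h⟩ else 0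

/-- The path from `(0, s)` to `(l + 1, 0)` along `u`. -/
def path {w l : ℕ} [NeZero w] (s : Fin w) (u : Fin l → Fin w) : E w → Bool :=
  fun e => decide (e.1 ≤ l ∧ e.2.1 = vert s u e.1 ∧ e.2.2 = vert s u (e.1 + 1))

/-- The maximal graph in which only the vertices of `u` can be reached from `(0, s)`. -/
def cut {w l : ℕ} [NeZero w] (s : Fin w) (u : Fin l → Fin w) : E w → Bool :=
  fun e => decide (e.2.1 ≠ vert s u e.1 ∨ (e.1 < l ∧ e.2.2 = vert s u (e.1 + 1)))

/-- `h` separates the paths and the cuts given by the strings in `S`. -/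
def Valid {w l : ℕ} [NeZero w] (s : Fin w) (h : (E w → Bool) → Bool)
    (S : Finset (Fin l → Fin w)) : Prop :=
  ∀ u ∈ S, h (path s u) = true ∧ h (cut s u) = false

section

variable {w : ℕ} [NeZero w]

theorem vert_zero {l : ℕ} (s : Fin w) (u : Fin l → Fin w) : vert s u 0 = s := by
  simp [vert]

theorem vert_succ {l : ℕ} (s : Fin w) (u : Fin l → Fin w) (i : ℕ) :
    vert s u (i + 1) = if h : i < l then u ⟨i, h⟩ else 0 := by
  simp [vert]

theorem vert_append_left {L M : ℕ} (s : Fin w) (x : Fin L → Fin w) (y : Fin M → Fin w) (i : ℕ)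
    (hi : i ≤ L) : vert s (Fin.append x y) i = vert s x i := by
  cases i with
  | zero => simp [vert_zero]
  | succ i =>
    have h1 : i < L := hi
    have h2 : i < L + M := by omega
    rw [vert_succ, vert_succ, dif_pos h1, dif_pos h2]
    exact Fin.append_left x y ⟨i, h1⟩

theorem vert_append_right {L M : ℕ} (s : Fin w) (x : Fin L → Fin w) (y : Fin M → Fin w) (k : ℕ) :
    vert s (Fin.append x y) (L + k) = vert (vert s x L) y k := by
  cases k with
  | zero => rw [vert_zero, Nat.add_zero, vert_append_left _ _ _ _ le_rfl]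
  | succ k =>
    rw [← Nat.add_assoc, vert_succ, vert_succ]
    by_cases hk : k < M
    · have h2 : L + k < L + M := by omega
      rw [dif_pos hk, dif_pos h2]
      exact Fin.append_right x y ⟨k, hk⟩
    · have h2 : ¬ L + k < L + M := by omega
      rw [dif_neg hk, dif_neg h2]

/-! ### halving the set -/

theorem halve {l D : ℕ} {s : Fin w} {h : (E w → Bool) → Bool} (hh : MonoDepth (D + 1) h)
    {S : Finset (Fin l → Fin w)} (hv : Valid s h S) :
    ∃ (h' : (E w → Bool) → Bool) (S' : Finset (Fin l → Fin w)),
      MonoDepth D h' ∧ Valid s h' S' ∧ S.card ≤ 2 * S'.card := by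
  classical
  cases hh with
  | var _ v => exact ⟨_, S, .var _ v, hv, by omega⟩
  | const _ b => exact ⟨_, S, .const _ b, hv, by omega⟩
  | @and _ f g hf hg =>
    let S1 := S.filter (fun u => f (cut s u) = false)
    let S2 := S.filter (fun u => g (cut s u) = false)
    have hu : S ⊆ S1 ∪ S2 := by
      intro u hu
      have := (hv u hu).2
      rw [Finset.mem_union, Finset.mem_filter, Finset.mem_filter]
      simp only [Bool.and_eq_false_iff] at this
      rcases this with h | h
      · exact Or.inl ⟨hu, h⟩
      · exact Or.inr ⟨hu, h⟩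
    have hc := (Finset.card_le_card hu).trans (Finset.card_union_le _ _)
    have h1 : Valid s f S1 := by
      intro u hu
      rw [Finset.mem_filter] at hu
      have := (hv u hu.1).1
      simp only [Bool.and_eq_true] at this
      exact ⟨this.1, hu.2⟩
    have h2 : Valid s g S2 := by
      intro u hu
      rw [Finset.mem_filter] at hu
      have := (hv u hu.1).1
      simp only [Bool.and_eq_true] at this
      exact ⟨this.2, hu.2⟩
    by_cases hle : S2.card ≤ S1.card
    · exact ⟨f, S1, hf, h1, by omega⟩
    · exact ⟨g, S2, hg, h2, by omega⟩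
  | @or _ f g hf hg =>
    let S1 := S.filter (fun u => f (path s u) = true)
    let S2 := S.filter (fun u => g (path s u) = true)
    have hu : S ⊆ S1 ∪ S2 := by
      intro u hu
      have := (hv u hu).1
      rw [Finset.mem_union, Finset.mem_filter, Finset.mem_filter]
      simp only [Bool.or_eq_true] at this
      rcases this with h | h
      · exact Or.inl ⟨hu, h⟩
      · exact Or.inr ⟨hu, h⟩
    have hc := (Finset.card_le_card hu).trans (Finset.card_union_le _ _)
    have h1 : Valid s f S1 := by
      intro u hu
      rw [Finset.mem_filter] at hu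
      have := (hv u hu.1).2
      simp only [Bool.or_eq_false_iff] at this
      exact ⟨hu.2, this.1⟩
    have h2 : Valid s g S2 := by
      intro u hu
      rw [Finset.mem_filter] at hu
      have := (hv u hu.1).2
      simp only [Bool.or_eq_false_iff] at this
      exact ⟨hu.2, this.2⟩
    by_cases hle : S2.card ≤ S1.card
    · exact ⟨f, S1, hf, h1, by omega⟩
    · exact ⟨g, S2, hg, h2, by omega⟩

theorem halve_iter {l D : ℕ} {s : Fin w} (k : ℕ) {h : (E w → Bool) → Bool}
    (hh : MonoDepth (D + k) h) {S : Finset (Fin l → Fin w)} (hv : Valid s h S) :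
    ∃ (h' : (E w → Bool) → Bool) (S' : Finset (Fin l → Fin w)),
      MonoDepth D h' ∧ Valid s h' S' ∧ S.card ≤ 2 ^ k * S'.card := by
  induction k generalizing h S with
  | zero => exact ⟨h, S, hh, hv, by omega⟩
  | succ k ih =>
    obtain ⟨h1, S1, hh1, hv1, hc1⟩ := halve (D := D + k) hh hv
    obtain ⟨h2, S2, hh2, hv2, hc2⟩ := ih hh1 hv1
    refine ⟨h2, S2, hh2, hv2, ?_⟩
    calc S.card ≤ 2 * S1.card := hc1
      _ ≤ 2 * (2 ^ k * S2.card) := Nat.mul_le_mul_left _ hc2
      _ = 2 ^ (k + 1) * S2.card := by ring

/-! ### depth zero -/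

theorem depth_zero {l : ℕ} (hl : 0 < l) {s : Fin w} {h : (E w → Bool) → Bool}
    (hh : MonoDepth 0 h) {S : Finset (Fin l → Fin w)} (hv : Valid s h S) :
    w * S.card ≤ w ^ l := by
  classical
  have key : ∀ v : E w, (∀ u ∈ S, path s u v = true ∧ cut s u v = false) → w * S.card ≤ w ^ l := by
    rintro ⟨i, a, b⟩ hv
    obtain ⟨l', rfl⟩ : ∃ l', l = l' + 1 := ⟨l - 1, by omega⟩
    -- all strings of `S` end with `a`
    have hend : ∀ u ∈ S, u (Fin.last l') = a := by
      intro u hu
      obtain ⟨h1, h2⟩ := hv u hu
      simp only [path, cut, decide_eq_true_eq, decide_eq_false_iff_not, not_or, not_not,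
        not_and] at h1 h2
      obtain ⟨hi, ha, hb⟩ := h1
      have hi2 : i = l' + 1 := by
        by_contra hne
        exact h2.2 (by omega) hb
      subst hi2
      rw [vert_succ, dif_pos (Nat.lt_succ_self l')] at ha
      exact ha.symm
    have hinj : S.card ≤ (Finset.univ : Finset (Fin l' → Fin w)).card := by
      apply Finset.card_le_card_of_injOn (fun u => fun k : Fin l' => u k.castSucc)
      · intro u _; exact Finset.mem_coe.2 (Finset.mem_univ _)
      · intro u hu v hv' huv
        funext k
        refine Fin.lastCases ?_ (fun k => ?_) k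
        · rw [hend u hu, hend v hv']
        · exact congrFun huv k
    rw [Finset.card_univ, Fintype.card_fun, Fintype.card_fin, Fintype.card_fin] at hinj
    calc w * S.card ≤ w * w ^ l' := Nat.mul_le_mul_left _ hinj
      _ = w ^ (l' + 1) := by ring
  cases hh with
  | var _ v => exact key v hv
  | const _ b =>
    have : S = ∅ := by
      rw [Finset.eq_empty_iff_forall_notMem]
      intro u hu
      have := hv u hu
      rw [this.1] at this
      exact absurd this.2 (by decide)
    rw [this]
    simp

end

end Pool.Agent.H.MP_027d00_lc
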