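import Pool.Agent.H.MP_027d00_lc.Base

/-!
# The hybrid argument
-/

set_option autoImplicit false

open Finset

namespace Pool.Agent.H.MP_027d00_lc

section

variable {w l K : ℕ} [NeZero w]

/-- restriction to the edges of one layered graph -/
def emb (e : Fin (l + 1) × Fin w × Fin w) : E w := (e.1.val, e.2.1, e.2.2)

/-- Hybrid inputs: copies `b < s` are cuts, copy `s` is a path if `t = true`, a cut otherwise,
all later copies are empty. -/
def hyb (s : ℕ) (t : Bool) (u : Fin K → Fin l → Fin w) :
    Fin K × Fin (l + 1) × Fin w × Fin w → Bool :=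
  fun v => if v.1.val < s then cut 0 (u v.1) (emb v.2)
    else if v.1.val = s ∧ t = true then path 0 (u v.1) (emb v.2) else false

theorem connected_mono {x y : Fin (l + 1) × Fin w × Fin w → Bool} (hxy : x ≤ y)
    (h : Connected l w x) : Connected l w y := by
  obtain ⟨p, h0, h1, hp⟩ := h
  refine ⟨p, h0, h1, fun i => ?_⟩
  have := hxy (i, p i.castSucc, p i.succ)
  rw [hp i] at this
  exact Bool.eq_true_of_true_le this

theorem connected_path (u : Fin l → Fin w) : Connected l w (fun e => path 0 u (emb e)) := by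
  refine ⟨fun i => vert 0 u i.val, ?_, ?_, ?_⟩
  · exact vert_zero 0 u
  · change vert 0 u (l + 1) = 0
    rw [vert_succ, dif_neg (lt_irrefl _)]
  · intro i
    simp only [path, emb, decide_eq_true_eq, Fin.val_castSucc, Fin.val_succ]
    exact ⟨by omega, trivial, trivial⟩

theorem not_connected_cut (u : Fin l → Fin w) :
    ¬ Connected l w (fun e => cut 0 u (emb e)) := by
  rintro ⟨p, h0, -, hp⟩
  have key : ∀ i : ℕ, ∀ hi : i < l + 1, p ⟨i, by omega⟩ = vert 0 u i ∧ i < l := by
    intro i
    induction i with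
    | zero =>
      intro hi
      have h1 : p ⟨0, by omega⟩ = vert 0 u 0 := by
        rw [vert_zero]; exact h0
      refine ⟨h1, ?_⟩
      have h2 := of_decide_eq_true (hp ⟨0, hi⟩)
      rcases h2 with h2 | h2
      · exact absurd h1 h2
      · exact h2.1
    | succ i ih =>
      intro hi
      obtain ⟨h1, h2⟩ := ih (by omega)
      have h3 := of_decide_eq_true (hp ⟨i, by omega⟩)
      have h4 : p ⟨i + 1, by omega⟩ = vert 0 u (i + 1) := by
        rcases h3 with h3 | h3
        · exact absurd h1 h3
        · exact h3.2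
      refine ⟨h4, ?_⟩
      have h5 := of_decide_eq_true (hp ⟨i + 1, hi⟩)
      rcases h5 with h5 | h5
      · exact absurd h4 h5
      · exact h5.1
  exact absurd (key l (by omega)).2 (lt_irrefl _)

theorem not_connected_false : ¬ Connected l w (fun _ => false) := by
  rintro ⟨p, -, -, hp⟩
  exact absurd (hp 0) Bool.false_ne_true

theorem hyb_false_not (s : ℕ) (u : Fin K → Fin l → Fin w) : ¬ OrConn K l w (hyb s false u) := by
  rintro ⟨b, hb⟩
  by_cases hs : b.val < s
  · have : (fun e => hyb s false u (b, e)) = fun e => cut 0 (u b) (emb e) := by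
      funext e
      simp only [hyb, if_pos hs]
    rw [this] at hb
    exact not_connected_cut _ hb
  · have : (fun e => hyb s false u (b, e)) = fun _ => false := by
      funext e
      simp [hyb, if_neg hs]
    rw [this] at hb
    exact not_connected_false hb

theorem hyb_true (s : Fin K) (u : Fin K → Fin l → Fin w) : OrConn K l w (hyb s.val true u) := by
  refine ⟨s, ?_⟩
  have : (fun e => hyb s.val true u (s, e)) = fun e => path 0 (u s) (emb e) := by
    funext e
    simp [hyb]
  rw [this]
  exact connected_path _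

theorem hyb_le (s : ℕ) (u : Fin K → Fin l → Fin w) : hyb s false u ≤ hyb s true u := by
  intro v
  by_cases h1 : v.1.val < s
  · simp only [hyb, if_pos h1]
    exact le_rfl
  · simp [hyb, if_neg h1]

/-- averaging over one coordinate -/
theorem sum_update {α : Type} [Fintype α] [DecidableEq α] (s : Fin K) (g : (Fin K → α) → ℝ) :
    ∑ u : Fin K → α, ∑ v : α, g (Function.update u s v) =
      (Fintype.card α : ℝ) * ∑ u : Fin K → α, g u := by
  have h1 : ∑ u : Fin K → α, ∑ v : α, g (Function.update u s v) =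
      ∑ p : (Fin K → α) × α, g (Function.update p.1 s p.2) := by
    rw [Fintype.sum_prod_type]
  have h2 : ∑ p : (Fin K → α) × α, g (Function.update p.1 s p.2) =
      ∑ p : (Fin K → α) × α, g p.1 := by
    refine Finset.sum_bij' (fun p _ => (Function.update p.1 s p.2, p.1 s))
      (fun p _ => (Function.update p.1 s p.2, p.1 s)) (fun _ _ => Finset.mem_univ _)
      (fun _ _ => Finset.mem_univ _) ?_ ?_ ?_
    · intro p _
      simp
    · intro p _
      simp
    · intro p _
      rfl
  rw [h1, h2, Fintype.sum_prod_type]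
  have h3 : ∀ u : Fin K → α, ∑ _v : α, g u = (Fintype.card α : ℝ) * g u := by
    intro u
    rw [Finset.sum_const, nsmul_eq_mul, Finset.card_univ]
  rw [Finset.sum_congr rfl (fun u _ => h3 u), ← Finset.mul_sum]

end

theorem hybrid_point {w K l : ℕ} [NeZero w] {D : ℕ} {c : ℝ}
    (hbase : ∀ g : (E w → Bool) → Bool, MonoDepth D g →
      ∑ v : Fin l → Fin w, ind (g (path 0 v)) ≤
        ∑ v : Fin l → Fin w, ind (g (cut 0 v)) + c * (w : ℝ) ^ l)
    {h : (Fin K × Fin (l + 1) × Fin w × Fin w → Bool) → Bool} (hh : MonoDepth D h)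
    (s : Fin K) (u : Fin K → Fin l → Fin w) :
    ∑ v : Fin l → Fin w, ind (h (hyb s.val true (Function.update u s v))) ≤
      ∑ v : Fin l → Fin w, ind (h (hyb (s.val + 1) false (Function.update u s v))) +
        c * (w : ℝ) ^ l := by
  classical
  -- the restriction of `h` to the copy `s`
  let θ : (Fin K × Fin (l + 1) × Fin w × Fin w) → (E w → Bool) → Bool := fun v x =>
    if v.1.val < s.val then cut 0 (u v.1) (emb v.2)
    else if v.1.val = s.val then x (emb v.2) else false
  have hθ : MonoDepth D (fun x => h (fun v => θ v x)) := by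
    apply hh.subst
    intro v
    by_cases h1 : v.1.val < s.val
    · right
      exact ⟨cut 0 (u v.1) (emb v.2), by funext x; simp only [θ, if_pos h1]⟩
    · by_cases h2 : v.1.val = s.val
      · left
        exact ⟨emb v.2, by funext x; simp only [θ, if_neg h1, if_pos h2]⟩
      · right
        exact ⟨false, by funext x; simp only [θ, if_neg h1, if_neg h2]⟩
  have hb := hbase _ hθ
  have e1 : ∀ v : Fin l → Fin w, hyb s.val true (Function.update u s v) =
      fun e => θ e (path 0 v) := by
    intro v
    funext e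
    by_cases h1 : e.1.val < s.val
    · have hne : e.1 ≠ s := fun h => by rw [h] at h1; exact lt_irrefl _ h1
      simp only [hyb, θ, if_pos h1, Function.update_of_ne hne]
    · by_cases h2 : e.1.val = s.val
      · have he : e.1 = s := Fin.ext h2
        simp only [hyb, θ, if_neg h1, if_pos h2]
        rw [he, Function.update_self, if_pos ⟨rfl, trivial⟩]
      · simp only [hyb, θ, if_neg h1, if_neg h2]
        rw [if_neg (fun h => h2 h.1)]
  have e2 : ∀ v : Fin l → Fin w, hyb (s.val + 1) false (Function.update u s v) =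
      fun e => θ e (cut 0 v) := by
    intro v
    funext e
    by_cases h1 : e.1.val < s.val
    · have hne : e.1 ≠ s := fun h => by rw [h] at h1; exact lt_irrefl _ h1
      have h3 : e.1.val < s.val + 1 := by omega
      simp only [hyb, θ, if_pos h1, if_pos h3, Function.update_of_ne hne]
    · by_cases h2 : e.1.val = s.val
      · have he : e.1 = s := Fin.ext h2
        have h3 : e.1.val < s.val + 1 := by omega
        simp only [hyb, θ, if_pos h3, if_neg h1, if_pos h2]
        rw [he, Function.update_self]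
      · have h3 : ¬ e.1.val < s.val + 1 := by omega
        have h4 : ¬ (e.1.val = s.val + 1 ∧ false = true) := fun h => Bool.false_ne_true h.2
        simp only [hyb, θ, if_neg h1, if_neg h2, if_neg h3, if_neg h4]
  have e1' : ∑ v : Fin l → Fin w, ind (h (hyb s.val true (Function.update u s v))) =
      ∑ v : Fin l → Fin w, ind (h (fun e => θ e (path 0 v))) :=
    Finset.sum_congr rfl (fun v _ => by rw [e1 v])
  have e2' : ∑ v : Fin l → Fin w, ind (h (hyb (s.val + 1) false (Function.update u s v))) =
      ∑ v : Fin l → Fin w, ind (h (fun e => θ e (cut 0 v))) :=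
    Finset.sum_congr rfl (fun v _ => by rw [e2 v])
  rw [e1', e2']
  exact hb

theorem hybrid_step_gen {w K l : ℕ} [NeZero w] {D : ℕ} {c : ℝ}
    (hbase : ∀ g : (E w → Bool) → Bool, MonoDepth D g →
      ∑ v : Fin l → Fin w, ind (g (path 0 v)) ≤
        ∑ v : Fin l → Fin w, ind (g (cut 0 v)) + c * (w : ℝ) ^ l)
    {h : (Fin K × Fin (l + 1) × Fin w × Fin w → Bool) → Bool} (hh : MonoDepth D h)
    (s : Fin K) :
    ∑ u : Fin K → Fin l → Fin w, ind (h (hyb s.val true u)) ≤
      ∑ u : Fin K → Fin l → Fin w, ind (h (hyb (s.val + 1) false u)) +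
        c * ((w : ℝ) ^ l) ^ K := by
  classical
  set W : ℝ := (w : ℝ) ^ l with hW
  have hwpos : (0 : ℝ) < w := by exact_mod_cast Nat.pos_of_neZero w
  have hWpos : 0 < W := pow_pos hwpos l
  have hcard : (Fintype.card (Fin l → Fin w) : ℝ) = W := by simp [hW]
  have h1 := sum_update (α := Fin l → Fin w) s (fun u => ind (h (hyb s.val true u)))
  have h2 := sum_update (α := Fin l → Fin w) s (fun u => ind (h (hyb (s.val + 1) false u)))
  rw [hcard] at h1 h2
  have hsum := Finset.sum_le_sum (s := (Finset.univ : Finset (Fin K → Fin l → Fin w)))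
    (fun u _ => hybrid_point hbase hh s u)
  rw [Finset.sum_add_distrib, h1, h2, Finset.sum_const, Finset.card_univ, nsmul_eq_mul] at hsum
  have hcard2 : (Fintype.card (Fin K → Fin l → Fin w) : ℝ) = W ^ K := by
    rw [Fintype.card_fun, Nat.cast_pow, hcard, Fintype.card_fin]
  rw [hcard2] at hsum
  have h3 : W * ∑ u : Fin K → Fin l → Fin w, ind (h (hyb s.val true u)) ≤
      W * (∑ u : Fin K → Fin l → Fin w, ind (h (hyb (s.val + 1) false u)) +
        c * W ^ K) := by
    calc _ ≤ _ := hsum
      _ = _ := by ring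
  exact le_of_mul_le_mul_left h3 hWpos

theorem hybrid_step {q w K : ℕ} (hq : 2 ≤ q) [NeZero w] (hw : w = 16 ^ q) (j N : ℕ)
    (hj : j + 1 ≤ 2 * q) {D : ℕ} (hD : D + 9 * N + 3 * j + 12 < j * (q - 2))
    {h : (Fin K × Fin (2 ^ j + 1) × Fin w × Fin w → Bool) → Bool} (hh : MonoDepth D h)
    (s : Fin K) :
    ∑ u : Fin K → Fin (2 ^ j) → Fin w, ind (h (hyb s.val true u)) ≤
      ∑ u : Fin K → Fin (2 ^ j) → Fin w, ind (h (hyb (s.val + 1) false u)) +
        (1 / 2) ^ N * ((w : ℝ) ^ (2 ^ j)) ^ K :=
  hybrid_step_gen (fun _ hg => base_hard hq hw j N hj hD 0 hg) hh s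

/-- The expected number of copies at which a monotone circuit of small depth sees a change is at
most `1 + K / 2^N`. -/
theorem hybrid_total {q w K : ℕ} (hq : 2 ≤ q) [NeZero w] (hw : w = 16 ^ q) (j N : ℕ)
    (hj : j + 1 ≤ 2 * q) {D : ℕ} (hD : D + 9 * N + 3 * j + 12 < j * (q - 2))
    {h : (Fin K × Fin (2 ^ j + 1) × Fin w × Fin w → Bool) → Bool} (hh : MonoDepth D h) :
    ∑ s : Fin K, ∑ u : Fin K → Fin (2 ^ j) → Fin w,
      (ind (h (hyb s.val true u)) - ind (h (hyb s.val false u))) ≤
      (1 + K * (1 / 2) ^ N) * ((w : ℝ) ^ (2 ^ j)) ^ K := by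
  classical
  set W : ℝ := (w : ℝ) ^ (2 ^ j) with hW
  have hwpos : (0 : ℝ) < w := by exact_mod_cast Nat.pos_of_neZero w
  have hWpos : 0 < W := pow_pos hwpos _
  let G : ℕ → ℝ := fun s => ∑ u : Fin K → Fin (2 ^ j) → Fin w, ind (h (hyb s false u))
  have h1 : ∀ s : Fin K, ∑ u : Fin K → Fin (2 ^ j) → Fin w,
      (ind (h (hyb s.val true u)) - ind (h (hyb s.val false u))) ≤
      (G (s.val + 1) - G s.val) + (1 / 2) ^ N * W ^ K := by
    intro s
    have := hybrid_step hq hw j N hj hD hh s
    rw [Finset.sum_sub_distrib]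
    simp only [G]
    linarith
  have h2 : ∑ s : Fin K, (G (s.val + 1) - G s.val) = G K - G 0 := by
    rw [Fin.sum_univ_eq_sum_range (fun s => G (s + 1) - G s) K, Finset.sum_range_sub]
  have h3 : G K ≤ W ^ K := by
    calc G K ≤ ∑ _u : Fin K → Fin (2 ^ j) → Fin w, (1 : ℝ) :=
          Finset.sum_le_sum (fun u _ => ind_le_one _)
      _ = W ^ K := by simp [hW]
  have h4 : 0 ≤ G 0 := Finset.sum_nonneg (fun u _ => ind_nonneg _)
  calc _ ≤ ∑ s : Fin K, ((G (s.val + 1) - G s.val) + (1 / 2) ^ N * W ^ K) :=
        Finset.sum_le_sum (fun s _ => h1 s)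
    _ = (G K - G 0) + K * ((1 / 2) ^ N * W ^ K) := by
        rw [Finset.sum_add_distrib, h2, Finset.sum_const, Finset.card_univ, Fintype.card_fin,
          nsmul_eq_mul]
    _ ≤ (1 + K * (1 / 2) ^ N) * W ^ K := by nlinarith

/-- Main inequality: if the function is determined by finitely many monotone functions of small
depth, then there are at least `K / 2` of them. -/
theorem features {q w K : ℕ} (hq : 2 ≤ q) [NeZero w] (hw : w = 16 ^ q) (j N : ℕ)
    (hj : j + 1 ≤ 2 * q) (hK : K ≤ 2 ^ N) {D : ℕ}
    (hD : D + 9 * N + 3 * j + 12 < j * (q - 2))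
    {ι : Type} (I : Finset ι)
    (h : ι → (Fin K × Fin (2 ^ j + 1) × Fin w × Fin w → Bool) → Bool)
    (hh : ∀ i ∈ I, MonoDepth D (h i))
    (hdet : ∀ x y, (∀ i ∈ I, h i x = h i y) → (OrConn K (2 ^ j) w x ↔ OrConn K (2 ^ j) w y)) :
    K ≤ 2 * I.card := by
  classical
  set W : ℝ := (w : ℝ) ^ (2 ^ j) with hW
  have hwpos : (0 : ℝ) < w := by exact_mod_cast Nat.pos_of_neZero w
  have hWpos : 0 < W := pow_pos hwpos _
  have hWK : 0 < W ^ K := pow_pos hWpos _
  have h1 : ∀ (s : Fin K) (u : Fin K → Fin (2 ^ j) → Fin w),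
      (1 : ℝ) ≤ ∑ i ∈ I, (ind (h i (hyb s.val true u)) - ind (h i (hyb s.val false u))) := by
    intro s u
    have hnn : ∀ i ∈ I, 0 ≤ ind (h i (hyb s.val true u)) - ind (h i (hyb s.val false u)) := by
      intro i hi
      have := (hh i hi).monotone (hyb_le s.val u)
      rw [Bool.le_iff_imp] at this
      by_cases hf : h i (hyb s.val false u) = true
      · rw [hf, this hf, ind_true]; norm_num
      · have hf' : h i (hyb s.val false u) = false := by simpa using hf
        rw [hf', ind_false]
        have := ind_nonneg (h i (hyb s.val true u))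
        linarith
    have hex : ∃ i ∈ I, h i (hyb s.val true u) ≠ h i (hyb s.val false u) := by
      by_contra hcon
      push Not at hcon
      have := (hdet _ _ hcon).1 (hyb_true s u)
      exact hyb_false_not _ _ this
    obtain ⟨i, hi, hne⟩ := hex
    refine le_trans ?_ (Finset.single_le_sum hnn hi)
    have hmono := (hh i hi).monotone (hyb_le s.val u)
    rw [Bool.le_iff_imp] at hmono
    by_cases hf : h i (hyb s.val false u) = true
    · exact absurd ((hmono hf).trans hf.symm) hne
    · have hf' : h i (hyb s.val false u) = false := by simpa using hf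
      have ht : h i (hyb s.val true u) = true := by
        rw [hf'] at hne
        simpa using hne
      rw [hf', ht, ind_true, ind_false]
      norm_num
  have h2 : (K : ℝ) * W ^ K ≤ I.card * (2 * W ^ K) := by
    calc (K : ℝ) * W ^ K = ∑ _s : Fin K, ∑ _u : Fin K → Fin (2 ^ j) → Fin w, (1 : ℝ) := by
          simp [hW]
      _ ≤ ∑ s : Fin K, ∑ u : Fin K → Fin (2 ^ j) → Fin w, ∑ i ∈ I,
          (ind (h i (hyb s.val true u)) - ind (h i (hyb s.val false u))) :=
          Finset.sum_le_sum (fun s _ => Finset.sum_le_sum (fun u _ => h1 s u))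
      _ = ∑ s : Fin K, ∑ i ∈ I, ∑ u : Fin K → Fin (2 ^ j) → Fin w,
          (ind (h i (hyb s.val true u)) - ind (h i (hyb s.val false u))) :=
          Finset.sum_congr rfl (fun s _ => Finset.sum_comm)
      _ = ∑ i ∈ I, ∑ s : Fin K, ∑ u : Fin K → Fin (2 ^ j) → Fin w,
          (ind (h i (hyb s.val true u)) - ind (h i (hyb s.val false u))) := by
          rw [Finset.sum_comm]
      _ ≤ ∑ i ∈ I, 2 * W ^ K := by
          apply Finset.sum_le_sum
          intro i hi
          have hT := hybrid_total hq hw j N hj hD (hh i hi)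
          have hK2 : (K : ℝ) * (1 / 2) ^ N ≤ 1 := by
            have : (K : ℝ) ≤ 2 ^ N := by exact_mod_cast hK
            rw [one_div, inv_pow, ← div_eq_mul_inv, div_le_one (by positivity)]
            exact this
          rw [← hW] at hT
          nlinarith
      _ = I.card * (2 * W ^ K) := by rw [Finset.sum_const, nsmul_eq_mul]
  have h3 : (K : ℝ) * W ^ K ≤ (2 * I.card) * W ^ K := by linarith
  have h4 := le_of_mul_le_mul_right h3 hWK
  exact_mod_cast h4

end Pool.Agent.H.MP_027d00_lc
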