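import Pool.Agent.H.MP_027d00_lc.Circuit

/-!
# NOT gates and negation depth
-/

set_option autoImplicit false

open Finset

namespace Pool.Agent.H.MP_027d00_lc

/-- the OR of a list of functions -/
def orList {V : Type} (L : List ((V → Bool) → Bool)) : (V → Bool) → Bool :=
  fun x => L.any (fun f => f x)

theorem orList_depth {V : Type} {D : ℕ} (e : ℕ) :
    ∀ L : List ((V → Bool) → Bool), (∀ f ∈ L, MonoDepth D f) → L.length ≤ 2 ^ e →
      MonoDepth (D + e) (orList L) := by
  induction e with
  | zero =>
    intro L hL hlen
    match L with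
    | [] => exact .const _ false
    | [f] =>
      have : orList [f] = f := by funext x; simp [orList]
      rw [this]
      exact hL f (List.mem_singleton.2 rfl)
    | f :: g :: L => simp at hlen
  | succ e ih =>
    intro L hL hlen
    have h1 := ih (L.take (2 ^ e)) (fun f hf => hL f (List.mem_of_mem_take hf))
      (by rw [List.length_take]; exact min_le_left _ _)
    have h2 := ih (L.drop (2 ^ e)) (fun f hf => hL f (List.mem_of_mem_drop hf))
      (by rw [List.length_drop, pow_succ] at *; omega)
    have h3 : orList L = fun x => orList (L.take (2 ^ e)) x || orList (L.drop (2 ^ e)) x := by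
      funext x
      calc orList L x = (L.take (2 ^ e) ++ L.drop (2 ^ e)).any (fun f => f x) := by
            rw [List.take_append_drop]; rfl
        _ = _ := by rw [List.any_append]; rfl
    rw [h3]
    exact h1.or h2

namespace Circuit

variable {V : Type} {s : ℕ}

/-- the value at gate `i` when the outputs of the NOT gates are replaced by `c` -/
def valFix (C : Circuit V s) (c : Fin s → Bool) (x : V → Bool) (i : Fin s) : Bool :=
  match C.gate i with
  | .var v => x v
  | .const b => b
  | .and a b => C.valFix c x ⟨a.val, a.isLt.trans i.isLt⟩ &&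
      C.valFix c x ⟨b.val, b.isLt.trans i.isLt⟩
  | .or a b => C.valFix c x ⟨a.val, a.isLt.trans i.isLt⟩ ||
      C.valFix c x ⟨b.val, b.isLt.trans i.isLt⟩
  | .not _ => c i
termination_by i.val
decreasing_by
  all_goals first | exact a.isLt | exact b.isLt

theorem valFix_depth (C : Circuit V s) (c : Fin s → Bool) (k : Fin s) :
    MonoDepth (C.depthAt k) (fun x => C.valFix c x k) := by
  obtain ⟨n, hn⟩ : ∃ n, n = k.val := ⟨_, rfl⟩
  induction n using Nat.strong_induction_on generalizing k with
  | _ n ih =>
    have e1 : (fun x => C.valFix c x k) = fun x => (match C.gate k with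
      | .var v => x v
      | .const b => b
      | .and a b => C.valFix c x ⟨a.val, a.isLt.trans k.isLt⟩ &&
          C.valFix c x ⟨b.val, b.isLt.trans k.isLt⟩
      | .or a b => C.valFix c x ⟨a.val, a.isLt.trans k.isLt⟩ ||
          C.valFix c x ⟨b.val, b.isLt.trans k.isLt⟩
      | .not _ => c k) := by
      funext x
      rw [valFix]
    rw [e1, depthAt]
    cases hg : C.gate k with
    | var v => exact .var _ v
    | const b => exact .const _ b
    | and a b =>
      simp only
      have h1 := ih a.val (by rw [hn]; exact a.isLt) ⟨a.val, a.isLt.trans k.isLt⟩ rfl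
      have h2 := ih b.val (by rw [hn]; exact b.isLt) ⟨b.val, b.isLt.trans k.isLt⟩ rfl
      exact (h1.mono (le_max_left _ _)).and (h2.mono (le_max_right _ _))
    | or a b =>
      simp only
      have h1 := ih a.val (by rw [hn]; exact a.isLt) ⟨a.val, a.isLt.trans k.isLt⟩ rfl
      have h2 := ih b.val (by rw [hn]; exact b.isLt) ⟨b.val, b.isLt.trans k.isLt⟩ rfl
      exact (h1.mono (le_max_left _ _)).or (h2.mono (le_max_right _ _))
    | not a => exact .const _ _

/-- the relevant NOT gates -/
def IsRel (C : Circuit V s) (D k : ℕ) (i : Fin s) : Prop :=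
  (C.gate i).isNot = true ∧ C.depthAt i ≤ D ∧ C.negAt i ≤ k

theorem valFix_eq (C : Circuit V s) (D k : ℕ) (c : Fin s → Bool) (x : V → Bool) (i : Fin s)
    (hc : ∀ j : Fin s, j.val ≤ i.val → C.IsRel D k j → c j = C.val x j)
    (hD : C.depthAt i ≤ D) (hk : C.negAt i ≤ k) : C.valFix c x i = C.val x i := by
  obtain ⟨n, hn⟩ : ∃ n, n = i.val := ⟨_, rfl⟩
  induction n using Nat.strong_induction_on generalizing i with
  | _ n ih =>
    rw [depthAt] at hD
    rw [negAt] at hk
    cases hg : C.gate i with
    | var v => rw [valFix, val, hg]
    | const b => rw [valFix, val, hg]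
    | and a b =>
      rw [hg] at hD hk
      simp only at hD hk
      rw [valFix, val, hg]
      simp only
      rw [ih a.val (by rw [hn]; exact a.isLt) ⟨a.val, a.isLt.trans i.isLt⟩
          (fun j hj => hc j (hj.trans a.isLt.le)) (by omega) (by omega) rfl,
        ih b.val (by rw [hn]; exact b.isLt) ⟨b.val, b.isLt.trans i.isLt⟩
          (fun j hj => hc j (hj.trans b.isLt.le)) (by omega) (by omega) rfl]
    | or a b =>
      rw [hg] at hD hk
      simp only at hD hk
      rw [valFix, val, hg]
      simp only
      rw [ih a.val (by rw [hn]; exact a.isLt) ⟨a.val, a.isLt.trans i.isLt⟩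
          (fun j hj => hc j (hj.trans a.isLt.le)) (by omega) (by omega) rfl,
        ih b.val (by rw [hn]; exact b.isLt) ⟨b.val, b.isLt.trans i.isLt⟩
          (fun j hj => hc j (hj.trans b.isLt.le)) (by omega) (by omega) rfl]
    | not a =>
      have h1 : C.valFix c x i = c i := by rw [valFix, hg]
      rw [h1]
      apply hc i le_rfl
      refine ⟨by rw [hg]; rfl, ?_, ?_⟩
      · rw [depthAt]; exact hD
      · rw [negAt]; exact hk

/-- the function computed at the input of a NOT gate, when the NOT gates are replaced by `c` -/
def inFix (C : Circuit V s) (c : Fin s → Bool) (x : V → Bool) (i : Fin s) : Bool :=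
  match C.gate i with
  | .not a => C.valFix c x ⟨a.val, a.isLt.trans i.isLt⟩
  | _ => false

theorem inFix_depth (C : Circuit V s) (c : Fin s → Bool) (i : Fin s) :
    MonoDepth (C.depthAt i) (fun x => C.inFix c x i) := by
  cases hg : C.gate i with
  | var v =>
    have : (fun x => C.inFix c x i) = fun _ => false := by funext x; rw [inFix, hg]
    rw [this]; exact .const _ _
  | const b =>
    have : (fun x => C.inFix c x i) = fun _ => false := by funext x; rw [inFix, hg]
    rw [this]; exact .const _ _
  | and a b =>
    have : (fun x => C.inFix c x i) = fun _ => false := by funext x; rw [inFix, hg]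
    rw [this]; exact .const _ _
  | or a b =>
    have : (fun x => C.inFix c x i) = fun _ => false := by funext x; rw [inFix, hg]
    rw [this]; exact .const _ _
  | not a =>
    have : (fun x => C.inFix c x i) = fun x => C.valFix c x ⟨a.val, a.isLt.trans i.isLt⟩ := by
      funext x; rw [inFix, hg]
    rw [this]
    have h2 : C.depthAt i = C.depthAt ⟨a.val, a.isLt.trans i.isLt⟩ := by
      conv_lhs => rw [depthAt, hg]
    rw [h2]
    exact C.valFix_depth c _

/-- the value of a relevant NOT gate from the fixed values of the earlier relevant NOT gates -/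
theorem val_eq_not_inFix (C : Circuit V s) (D k : ℕ) (c : Fin s → Bool) (x : V → Bool) (i : Fin s)
    (hi : C.IsRel D k i)
    (hc : ∀ j : Fin s, j.val < i.val → C.IsRel D (k - 1) j → c j = C.val x j) :
    C.val x i = !(C.inFix c x i) := by
  obtain ⟨h1, h2, h3⟩ := hi
  cases hg : C.gate i with
  | var v => rw [hg] at h1; exact absurd h1 (by simp [Gate.isNot])
  | const b => rw [hg] at h1; exact absurd h1 (by simp [Gate.isNot])
  | and a b => rw [hg] at h1; exact absurd h1 (by simp [Gate.isNot])
  | or a b => rw [hg] at h1; exact absurd h1 (by simp [Gate.isNot])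
  | not a =>
    rw [depthAt, hg] at h2
    rw [negAt, hg] at h3
    simp only at h2 h3
    have h4 : C.val x i = !(C.val x ⟨a.val, a.isLt.trans i.isLt⟩) := by
      conv_lhs => rw [val, hg]
    have h5 : C.inFix c x i = C.valFix c x ⟨a.val, a.isLt.trans i.isLt⟩ := by
      rw [inFix, hg]
    rw [h4, h5, C.valFix_eq D (k - 1) c x ⟨a.val, a.isLt.trans i.isLt⟩
      (fun j hj hr => hc j (lt_of_le_of_lt hj a.isLt) hr) h2 (by omega)]

/-- the relevant NOT gates of level at most `j` have the same output on `x` and on `y` -/
def Agree (C : Circuit V s) (D j : ℕ) (x y : V → Bool) : Prop :=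
  ∀ i : Fin s, C.IsRel D j i → C.val x i = C.val y i

theorem IsRel.mono {C : Circuit V s} {D j k : ℕ} {i : Fin s} (h : C.IsRel D j i) (hjk : j ≤ k) :
    C.IsRel D k i := ⟨h.1, h.2.1, h.2.2.trans hjk⟩

/-- if the NOT gates of level at most `j` agree, the NOT gates of level `j + 1` are antitone -/
theorem antitone_of_agree (C : Circuit V s) (D j : ℕ) {x y : V → Bool} (hxy : x ≤ y)
    (h : C.Agree D j x y) (i : Fin s) (hi : C.IsRel D (j + 1) i) :
    C.val y i = true → C.val x i = true := by
  intro hy
  have ex := C.val_eq_not_inFix D (j + 1) (fun i => C.val x i) x i hi (fun _ _ _ => rfl)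
  have ey := C.val_eq_not_inFix D (j + 1) (fun i => C.val x i) y i hi
    (fun l _ hl => h l hl)
  rw [ex]
  rw [ey] at hy
  have hm := (C.inFix_depth (fun i => C.val x i) i).monotone hxy
  rw [Bool.le_iff_imp] at hm
  cases hv : C.inFix (fun i => C.val x i) x i with
  | false => rfl
  | true =>
    have := hm hv
    rw [this] at hy
    exact absurd hy (by decide)

open Classical in
/-- the relevant NOT gates of level exactly `j` -/
noncomputable def level (C : Circuit V s) (D j : ℕ) : Finset (Fin s) :=
  univ.filter (fun i => (C.gate i).isNot = true ∧ C.depthAt i ≤ D ∧ C.negAt i = j)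

open Classical in
/-- the number of them with output `false` -/
noncomputable def offs (C : Circuit V s) (D j : ℕ) (x : V → Bool) : ℕ :=
  ((C.level D j).filter (fun i => C.val x i = false)).card

theorem offs_le (C : Circuit V s) (D j : ℕ) (x : V → Bool) : C.offs D j x ≤ (C.level D j).card :=
  Finset.card_le_card (Finset.filter_subset _ _)

/-- the potential -/
noncomputable def pot (C : Circuit V s) (D : ℕ) (x : V → Bool) : ℕ → ℕ
  | 0 => 0
  | j + 1 => C.pot D x j * ((C.level D (j + 1)).card + 1) + C.offs D (j + 1) x

/-- the maximal number of values of the potential -/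
noncomputable def cap (C : Circuit V s) (D : ℕ) : ℕ → ℕ
  | 0 => 1
  | j + 1 => C.cap D j * ((C.level D (j + 1)).card + 1)

theorem pot_lt_cap (C : Circuit V s) (D : ℕ) (x : V → Bool) (j : ℕ) : C.pot D x j < C.cap D j := by
  induction j with
  | zero => simp [pot, cap]
  | succ j ih =>
    rw [pot, cap]
    have h1 := C.offs_le D (j + 1) x
    calc C.pot D x j * ((C.level D (j + 1)).card + 1) + C.offs D (j + 1) x
        < C.pot D x j * ((C.level D (j + 1)).card + 1) + ((C.level D (j + 1)).card + 1) := by omega
      _ = (C.pot D x j + 1) * ((C.level D (j + 1)).card + 1) := by ring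
      _ ≤ C.cap D j * ((C.level D (j + 1)).card + 1) := Nat.mul_le_mul_right _ ih

theorem agree_zero (C : Circuit V s) (D : ℕ) (x y : V → Bool) : C.Agree D 0 x y := by
  rintro i ⟨h1, -, h3⟩
  cases hg : C.gate i with
  | var v => rw [hg] at h1; exact absurd h1 (by simp [Gate.isNot])
  | const b => rw [hg] at h1; exact absurd h1 (by simp [Gate.isNot])
  | and a b => rw [hg] at h1; exact absurd h1 (by simp [Gate.isNot])
  | or a b => rw [hg] at h1; exact absurd h1 (by simp [Gate.isNot])
  | not a =>
    rw [negAt, hg] at h3
    simp only at h3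
    omega

/-- The potential is monotone and increases whenever a relevant NOT gate changes. -/
theorem pot_mono (C : Circuit V s) (D : ℕ) {x y : V → Bool} (hxy : x ≤ y) (j : ℕ) :
    C.pot D x j ≤ C.pot D y j ∧ (¬ C.Agree D j x y → C.pot D x j < C.pot D y j) := by
  classical
  induction j with
  | zero => exact ⟨le_rfl, fun h => absurd (C.agree_zero D x y) h⟩
  | succ j ih =>
    obtain ⟨ih1, ih2⟩ := ih
    by_cases hag : C.Agree D j x y
    · have hsub : (C.level D (j + 1)).filter (fun i => C.val x i = false) ⊆
          (C.level D (j + 1)).filter (fun i => C.val y i = false) := by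
        intro i hi
        rw [Finset.mem_filter] at hi ⊢
        refine ⟨hi.1, ?_⟩
        have hl := (Finset.mem_filter.1 hi.1).2
        have hr : C.IsRel D (j + 1) i := ⟨hl.1, hl.2.1, hl.2.2.le⟩
        cases hv : C.val y i with
        | false => rfl
        | true =>
          have := C.antitone_of_agree D j hxy hag i hr hv
          rw [hi.2] at this
          exact absurd this (by decide)
      have hoff : C.offs D (j + 1) x ≤ C.offs D (j + 1) y := Finset.card_le_card hsub
      constructor
      · rw [pot, pot]
        have := Nat.mul_le_mul_right ((C.level D (j + 1)).card + 1) ih1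
        omega
      · intro hnot
        have hlt : C.offs D (j + 1) x < C.offs D (j + 1) y := by
          apply Finset.card_lt_card
          rw [Finset.ssubset_iff_of_subset hsub]
          unfold Agree at hnot
          push Not at hnot
          obtain ⟨i, hi, hne⟩ := hnot
          have hlev : C.negAt i = j + 1 := by
            by_contra hcon
            have : C.IsRel D j i := ⟨hi.1, hi.2.1, by have := hi.2.2; omega⟩
            exact hne (hag i this)
          refine ⟨i, ?_, ?_⟩
          · rw [Finset.mem_filter]
            refine ⟨Finset.mem_filter.2 ⟨Finset.mem_univ _, hi.1, hi.2.1, hlev⟩, ?_⟩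
            cases hv : C.val y i with
            | false => rfl
            | true =>
              have := C.antitone_of_agree D j hxy hag i hi hv
              rw [this, hv] at hne
              exact absurd rfl hne
          · rw [Finset.mem_filter]
            rintro ⟨-, hx⟩
            cases hv : C.val y i with
            | false => rw [hx, hv] at hne; exact absurd rfl hne
            | true =>
              have := C.antitone_of_agree D j hxy hag i hi hv
              rw [hx] at this
              exact absurd this (by decide)
        rw [pot, pot]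
        have := Nat.mul_le_mul_right ((C.level D (j + 1)).card + 1) ih1
        omega
    · have hlt := ih2 hag
      have h1 : (C.pot D x j + 1) * ((C.level D (j + 1)).card + 1) ≤
          C.pot D y j * ((C.level D (j + 1)).card + 1) := Nat.mul_le_mul_right _ hlt
      have h2 := C.offs_le D (j + 1) x
      have h3 : C.pot D x (j + 1) < C.pot D y (j + 1) := by
        rw [pot, pot]
        have h4 : (C.pot D x j + 1) * ((C.level D (j + 1)).card + 1) =
          C.pot D x j * ((C.level D (j + 1)).card + 1) + ((C.level D (j + 1)).card + 1) := by ring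
        omega
      exact ⟨h3.le, fun _ => h3⟩

open Classical in
/-- Along an increasing chain the number of changes is less than `cap`. -/
theorem changes_lt (C : Circuit V s) (D k K : ℕ) (Z : ℕ → V → Bool) (hZ : Monotone Z) :
    ((range K).filter (fun t => ¬ C.Agree D k (Z t) (Z (t + 1)))).card < C.cap D k := by
  have h : ((range K).filter (fun t => ¬ C.Agree D k (Z t) (Z (t + 1)))).card ≤
      C.pot D (Z K) k := by
    induction K with
    | zero => simp
    | succ K ih =>
      rw [Finset.range_add_one, Finset.filter_insert]
      have h1 := C.pot_mono D (hZ (Nat.le_succ K)) k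
      by_cases hc : C.Agree D k (Z K) (Z (K + 1))
      · rw [if_neg (not_not.2 hc)]
        exact ih.trans h1.1
      · rw [if_pos hc, Finset.card_insert_of_notMem (by simp)]
        have := h1.2 hc
        have h2 : K.succ = K + 1 := rfl
        rw [h2] at this
        omega
  exact lt_of_le_of_lt h (C.pot_lt_cap D _ k)

/-- `cap` is at most `(R / k + 1) ^ k` with `R` the number of NOT gates. -/
theorem cap_le (C : Circuit V s) (D k : ℕ) (hk : 0 < k) :
    (C.cap D k : ℝ) ≤ (1 + (C.nots : ℝ) / k) ^ k := by
  classical
  have h1 : (C.cap D k : ℝ) = ∏ j ∈ range k, (((C.level D (j + 1)).card : ℝ) + 1) := by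
    induction k with
    | zero => omega
    | succ k ih =>
      rw [Finset.prod_range_succ]
      by_cases hk0 : 0 < k
      · rw [← ih hk0, cap]; push_cast; ring
      · have : k = 0 := by omega
        subst this
        simp [cap]
  have h2 : ∑ j ∈ range k, ((C.level D (j + 1)).card : ℝ) ≤ C.nots := by
    have h3 : ∑ j ∈ range k, (C.level D (j + 1)).card =
        ((range k).biUnion (fun j => C.level D (j + 1))).card := by
      rw [Finset.card_biUnion]
      intro a _ b _ hab
      change Disjoint (C.level D (a + 1)) (C.level D (b + 1))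
      rw [Finset.disjoint_left]
      intro i hi hi'
      have e1 := (Finset.mem_filter.1 hi).2.2.2
      have e2 := (Finset.mem_filter.1 hi').2.2.2
      omega
    have h4 : ((range k).biUnion (fun j => C.level D (j + 1))).card ≤ C.nots := by
      apply Finset.card_le_card
      intro i hi
      rw [Finset.mem_biUnion] at hi
      obtain ⟨j, -, hj⟩ := hi
      exact Finset.mem_filter.2 ⟨Finset.mem_univ _, (Finset.mem_filter.1 hj).2.1⟩
    have h5 : ∑ j ∈ range k, (C.level D (j + 1)).card ≤ C.nots := by omega
    exact_mod_cast h5
  have hkR : (0 : ℝ) < k := by exact_mod_cast hk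
  -- AM-GM
  have hsum1 : ∑ _j ∈ range k, (1 : ℝ) = k := by
    rw [Finset.sum_const, Finset.card_range, nsmul_eq_mul, mul_one]
  have h3 := Real.geom_mean_le_arith_mean (range k) (fun _ => (1 : ℝ))
    (fun j => ((C.level D (j + 1)).card : ℝ) + 1) (fun _ _ => zero_le_one)
    (by rw [hsum1]; exact hkR) (fun j _ => add_nonneg (Nat.cast_nonneg _) zero_le_one)
  rw [hsum1] at h3
  simp only [Real.rpow_one, one_mul] at h3
  rw [← h1] at h3
  have h4 : ((C.cap D k : ℝ) ^ ((k : ℝ)⁻¹)) ^ k ≤
      ((∑ j ∈ range k, (((C.level D (j + 1)).card : ℝ) + 1)) / k) ^ k :=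
    pow_le_pow_left₀ (by positivity) h3 k
  have h5 : ((C.cap D k : ℝ) ^ ((k : ℝ)⁻¹)) ^ k = C.cap D k := by
    rw [← Real.rpow_natCast, ← Real.rpow_mul (Nat.cast_nonneg _), inv_mul_cancel₀ hkR.ne',
      Real.rpow_one]
  rw [h5] at h4
  refine h4.trans (pow_le_pow_left₀ (by positivity) ?_ k)
  rw [Finset.sum_add_distrib, Finset.sum_const, Finset.card_range, nsmul_eq_mul, mul_one,
    add_div, div_self hkR.ne', add_comm]
  have := div_le_div_of_nonneg_right h2 hkR.le
  linarith

end Circuit

end Pool.Agent.H.MP_027d00_lc
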