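import Pool.Agent.H.MP_027d00_lc.Hybrid
import Pool.Agent.H.MP_027d00_lc.Neg
import Pool.Agent.H.MP_027d00_lc.Final

/-!
# The trade-off between the number of NOT gates and the negation depth
-/

set_option autoImplicit false

open Finset

namespace Pool.Agent.H.MP_027d00_lc

section

variable {w l K : ℕ} [NeZero w]

theorem hyb_mono (u : Fin K → Fin l → Fin w) : Monotone (fun s => hyb s false u) := by
  intro a b hab v
  by_cases h1 : v.1.val < a
  · have h2 : v.1.val < b := lt_of_lt_of_le h1 hab
    simp only [hyb, if_pos h1, if_pos h2]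
    exact le_rfl
  · simp [hyb, if_neg h1]

theorem hyb_update (s : Fin K) (u : Fin K → Fin l → Fin w) (v : Fin l → Fin w) :
    hyb s.val false (Function.update u s v) = hyb s.val false u := by
  funext e
  by_cases h1 : e.1.val < s.val
  · have hne : e.1 ≠ s := fun h => by rw [h] at h1; exact lt_irrefl _ h1
    simp only [hyb, if_pos h1, Function.update_of_ne hne]
  · have h4 : ¬ (e.1.val = s.val ∧ false = true) := fun h => Bool.false_ne_true h.2
    simp only [hyb, if_neg h1, if_neg h4]

end

open Classical in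
/-- the number of relevant NOT gates -/
noncomputable def relCount {V : Type} {s : ℕ} (C : Circuit V s) (D k : ℕ) : ℕ :=
  (univ.filter (fun i => C.IsRel D k i)).card

/-- The test: is one of the NOT gates that are on at `X` switched off, or the output on? -/
noncomputable def test {V : Type} {s : ℕ} (C : Circuit V s) (D k : ℕ) (c : Fin s → Bool) :
    (V → Bool) → Bool := by
  classical
  exact orList ((fun x => C.valFix c x C.out) ::
    ((univ.filter (fun i => C.IsRel D k i ∧ c i = true)).toList.map
      (fun i x => C.inFix c x i)))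

theorem test_depth {V : Type} {s : ℕ} (C : Circuit V s) (D k e : ℕ) (hD : C.depth ≤ D)
    (he : relCount C D k + 1 ≤ 2 ^ e) (c : Fin s → Bool) : MonoDepth (D + e) (test C D k c) := by
  classical
  unfold test
  apply orList_depth e
  · intro f hf
    rw [List.mem_cons, List.mem_map] at hf
    rcases hf with rfl | ⟨i, hi, rfl⟩
    · exact (C.valFix_depth c C.out).mono hD
    · rw [Finset.mem_toList, Finset.mem_filter] at hi
      exact (C.inFix_depth c i).mono hi.2.1.2.1
  · rw [List.length_cons, List.length_map, Finset.length_toList]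
    refine le_trans ?_ he
    apply Nat.add_le_add_right
    apply Finset.card_le_card
    intro i hi
    rw [Finset.mem_filter] at hi
    exact Finset.mem_filter.2 ⟨Finset.mem_univ _, hi.2.1⟩

/-- the test accepts `y` if `y ≥ x` and `C` accepts `y` -/
theorem test_true {V : Type} {s : ℕ} (C : Circuit V s) (D k : ℕ) (hD : C.depth ≤ D)
    (hk : C.negDepth ≤ k) {x y : V → Bool} (hxy : x ≤ y) (hy : C.eval y = true) :
    test C D k (fun i => C.val x i) y = true := by
  classical
  by_contra hcon
  unfold test orList at hcon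
  rw [List.any_cons, Bool.or_eq_true, not_or] at hcon
  obtain ⟨h1, h2⟩ := hcon
  have h3 : ∀ i, C.IsRel D k i → C.val x i = true →
      C.inFix (fun i => C.val x i) y i = false := by
    intro i hi hxi
    by_contra hcon
    apply h2
    rw [List.any_eq_true]
    refine ⟨fun x' => C.inFix (fun i => C.val x i) x' i, ?_, by simpa using hcon⟩
    rw [List.mem_map]
    refine ⟨i, ?_, rfl⟩
    rw [Finset.mem_toList, Finset.mem_filter]
    exact ⟨Finset.mem_univ _, hi, hxi⟩
  -- all relevant NOT gates agree
  have key : ∀ n : ℕ, ∀ i : Fin s, i.val = n → C.IsRel D k i → C.val x i = C.val y i := by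
    intro n
    induction n using Nat.strong_induction_on with
    | _ n ih =>
      intro i hin hi
      have ey := C.val_eq_not_inFix D k (fun i => C.val x i) y i hi
        (fun j hj hr => ih j.val (by omega) j rfl (hr.mono (Nat.sub_le _ _)))
      have ex := C.val_eq_not_inFix D k (fun i => C.val x i) x i hi (fun _ _ _ => rfl)
      cases hxi : C.val x i with
      | true => rw [ey, h3 i hi hxi]; rfl
      | false =>
        rw [hxi] at ex
        have hinx : C.inFix (fun i => C.val x i) x i = true := by
          cases hv : C.inFix (fun i => C.val x i) x i with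
          | true => rfl
          | false => rw [hv] at ex; exact absurd ex (by decide)
        have hm := (C.inFix_depth (fun i => C.val x i) i).monotone hxy
        rw [Bool.le_iff_imp] at hm
        rw [ey, hm hinx]; rfl
  have h4 := C.valFix_eq D k (fun i => C.val x i) y C.out
    (fun j _ hr => key j.val j rfl hr) hD hk
  have h5 : C.val y C.out = true := hy
  rw [h5] at h4
  exact h1 h4

/-- if the test accepts `z` and `C` rejects `z` then some relevant NOT gate has changed -/
theorem not_agree_of_test {V : Type} {s : ℕ} (C : Circuit V s) (D k : ℕ) (hD : C.depth ≤ D)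
    (hk : C.negDepth ≤ k) {x z : V → Bool} (hz : C.eval z = false)
    (ht : test C D k (fun i => C.val x i) z = true) : ¬ C.Agree D k x z := by
  classical
  intro hag
  unfold test orList at ht
  rw [List.any_cons, Bool.or_eq_true] at ht
  rcases ht with h1 | h1
  · have h4 := C.valFix_eq D k (fun i => C.val x i) z C.out
      (fun j _ hr => hag j hr) hD hk
    have h5 : C.val z C.out = false := hz
    rw [h5] at h4
    change C.valFix (fun i => C.val x i) z C.out = true at h1
    rw [h4] at h1
    exact absurd h1 (by decide)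
  · rw [List.any_eq_true] at h1
    obtain ⟨f, hf, hfz⟩ := h1
    rw [List.mem_map] at hf
    obtain ⟨i, hi, rfl⟩ := hf
    rw [Finset.mem_toList, Finset.mem_filter] at hi
    have ez := C.val_eq_not_inFix D k (fun i => C.val x i) z i hi.2.1
      (fun j _ hr => hag j (hr.mono (Nat.sub_le _ _)))
    change C.inFix (fun i => C.val x i) z i = true at hfz
    rw [hfz] at ez
    have h6 := hag i hi.2.1
    have h7 : C.val x i = true := hi.2.2
    rw [h7, ez] at h6
    exact absurd h6 (by decide)

/-- In every step of the chain of hybrids some relevant NOT gate changes with overwhelming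
probability. -/
theorem step_change {w K l : ℕ} [NeZero w] {D e : ℕ} {c : ℝ}
    (hbase : ∀ g : (E w → Bool) → Bool, MonoDepth (D + e) g →
      ∑ v : Fin l → Fin w, ind (g (path 0 v)) ≤
        ∑ v : Fin l → Fin w, ind (g (cut 0 v)) + c * (w : ℝ) ^ l)
    {s : ℕ} (C : Circuit (Fin K × Fin (l + 1) × Fin w × Fin w) s)
    (hC : ∀ x, C.eval x = true ↔ OrConn K l w x) (k : ℕ) (hD : C.depth ≤ D)
    (hk : C.negDepth ≤ k) (he : relCount C D k + 1 ≤ 2 ^ e) (t : Fin K) (χ : Prop → ℝ)
    (hχ0 : ∀ p, 0 ≤ χ p) (hχ1 : ∀ p, p → χ p = 1) :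
    (1 - c) * ((w : ℝ) ^ l) ^ K ≤ ∑ u : Fin K → Fin l → Fin w,
      χ (¬ C.Agree D k (hyb t.val false u) (hyb (t.val + 1) false u)) := by
  classical
  set W : ℝ := (w : ℝ) ^ l with hW
  have hwpos : (0 : ℝ) < w := by exact_mod_cast Nat.pos_of_neZero w
  have hWpos : 0 < W := pow_pos hwpos l
  have hcard : (Fintype.card (Fin l → Fin w) : ℝ) = W := by simp [hW]
  have h1 := sum_update (α := Fin l → Fin w) t
    (fun u => χ (¬ C.Agree D k (hyb t.val false u) (hyb (t.val + 1) false u)))
  rw [hcard] at h1
  have key : ∀ u : Fin K → Fin l → Fin w, (1 - c) * W ≤ ∑ v : Fin l → Fin w,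
      χ (¬ C.Agree D k (hyb t.val false (Function.update u t v))
        (hyb (t.val + 1) false (Function.update u t v))) := by
    intro u
    have hp := hybrid_point hbase (test_depth C D k e hD he
      (fun i => C.val (hyb t.val false u) i)) t u
    have h2 : ∀ v : Fin l → Fin w,
        ind (test C D k (fun i => C.val (hyb t.val false u) i)
          (hyb t.val true (Function.update u t v))) = 1 := by
      intro v
      rw [← hyb_update t u v]
      rw [test_true C D k hD hk (hyb_le t.val _) ((hC _).2 (hyb_true t _)), ind_true]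
    have h3 : ∀ v : Fin l → Fin w,
        ind (test C D k (fun i => C.val (hyb t.val false u) i)
          (hyb (t.val + 1) false (Function.update u t v))) ≤
        χ (¬ C.Agree D k (hyb t.val false (Function.update u t v))
          (hyb (t.val + 1) false (Function.update u t v))) := by
      intro v
      rw [hyb_update t u v]
      cases ht : test C D k (fun i => C.val (hyb t.val false u) i)
          (hyb (t.val + 1) false (Function.update u t v)) with
      | false => rw [ind_false]; exact hχ0 _
      | true =>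
        have hz : C.eval (hyb (t.val + 1) false (Function.update u t v)) = false := by
          cases hv : C.eval (hyb (t.val + 1) false (Function.update u t v)) with
          | false => rfl
          | true => exact absurd ((hC _).1 hv) (hyb_false_not _ _)
        rw [hχ1 _ (not_agree_of_test C D k hD hk hz ht), ind_true]
    rw [Finset.sum_congr rfl (fun v _ => h2 v)] at hp
    have h4 : ∑ _v : Fin l → Fin w, (1 : ℝ) = W := by simp [hW]
    rw [h4] at hp
    have h5 := Finset.sum_le_sum (s := (Finset.univ : Finset (Fin l → Fin w))) (fun v _ => h3 v)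
    linarith
  have hsum := Finset.sum_le_sum (s := (Finset.univ : Finset (Fin K → Fin l → Fin w)))
    (fun u _ => key u)
  rw [h1, Finset.sum_const, Finset.card_univ, nsmul_eq_mul] at hsum
  have hcard2 : (Fintype.card (Fin K → Fin l → Fin w) : ℝ) = W ^ K := by
    rw [Fintype.card_fun, Nat.cast_pow, hcard, Fintype.card_fin]
  rw [hcard2] at hsum
  have h6 : W * ((1 - c) * W ^ K) ≤ W * ∑ u : Fin K → Fin l → Fin w,
      χ (¬ C.Agree D k (hyb t.val false u) (hyb (t.val + 1) false u)) := by
    calc W * ((1 - c) * W ^ K) = W ^ K * ((1 - c) * W) := by ring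
      _ ≤ _ := hsum
  exact le_of_mul_le_mul_left h6 hWpos

/-- The number of changes. -/
theorem le_cap {w K l : ℕ} [NeZero w] {D e : ℕ} {c : ℝ}
    (hbase : ∀ g : (E w → Bool) → Bool, MonoDepth (D + e) g →
      ∑ v : Fin l → Fin w, ind (g (path 0 v)) ≤
        ∑ v : Fin l → Fin w, ind (g (cut 0 v)) + c * (w : ℝ) ^ l)
    {s : ℕ} (C : Circuit (Fin K × Fin (l + 1) × Fin w × Fin w) s)
    (hC : ∀ x, C.eval x = true ↔ OrConn K l w x) (k : ℕ) (hD : C.depth ≤ D)
    (hk : C.negDepth ≤ k) (he : relCount C D k + 1 ≤ 2 ^ e) :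
    (1 - c) * K ≤ (C.cap D k : ℝ) - 1 := by
  classical
  set W : ℝ := (w : ℝ) ^ l with hW
  have hwpos : (0 : ℝ) < w := by exact_mod_cast Nat.pos_of_neZero w
  have hWpos : 0 < W := pow_pos hwpos l
  have hWK : 0 < W ^ K := pow_pos hWpos K
  let χ : Prop → ℝ := fun p => if p then 1 else 0
  have hχ0 : ∀ p, 0 ≤ χ p := fun p => by simp only [χ]; split_ifs <;> norm_num
  have hχ1 : ∀ p, p → χ p = 1 := fun p hp => by simp only [χ, if_pos hp]
  have h1 : (K : ℝ) * ((1 - c) * W ^ K) ≤ ∑ t : Fin K, ∑ u : Fin K → Fin l → Fin w,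
      χ (¬ C.Agree D k (hyb t.val false u) (hyb (t.val + 1) false u)) := by
    calc (K : ℝ) * ((1 - c) * W ^ K) = ∑ _t : Fin K, (1 - c) * W ^ K := by
          rw [Finset.sum_const, Finset.card_univ, Fintype.card_fin, nsmul_eq_mul]
      _ ≤ _ := Finset.sum_le_sum (fun t _ =>
          step_change hbase C hC k hD hk he t χ hχ0 hχ1)
  have h2 : ∀ u : Fin K → Fin l → Fin w, ∑ t : Fin K,
      χ (¬ C.Agree D k (hyb t.val false u) (hyb (t.val + 1) false u)) ≤ (C.cap D k : ℝ) - 1 := by
    intro u
    have h3 := C.changes_lt D k K (fun t => hyb t false u) (hyb_mono u)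
    have h4 : ∑ t : Fin K, χ (¬ C.Agree D k (hyb t.val false u) (hyb (t.val + 1) false u)) =
        (((range K).filter (fun t => ¬ C.Agree D k (hyb t false u) (hyb (t + 1) false u))).card :
          ℝ) := by
      rw [Fin.sum_univ_eq_sum_range
        (fun t => χ (¬ C.Agree D k (hyb t false u) (hyb (t + 1) false u))) K]
      rw [Finset.card_filter]
      push_cast
      refine Finset.sum_congr rfl fun x _ => ?_
      by_cases hx : C.Agree D k (hyb x false u) (hyb (x + 1) false u)
      · simp [χ, hx]
      · simp [χ, hx]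
    rw [h4]
    have h5 : (((range K).filter (fun t => ¬ C.Agree D k (hyb t false u)
        (hyb (t + 1) false u))).card : ℝ) + 1 ≤ C.cap D k := by
      exact_mod_cast h3
    linarith
  rw [Finset.sum_comm] at h1
  have h3 : ∑ u : Fin K → Fin l → Fin w, ∑ t : Fin K,
      χ (¬ C.Agree D k (hyb t.val false u) (hyb (t.val + 1) false u)) ≤
      W ^ K * ((C.cap D k : ℝ) - 1) := by
    calc _ ≤ ∑ _u : Fin K → Fin l → Fin w, ((C.cap D k : ℝ) - 1) :=
          Finset.sum_le_sum (fun u _ => h2 u)
      _ = _ := by
        rw [Finset.sum_const, Finset.card_univ, nsmul_eq_mul]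
        simp [hW]
  have h4 : W ^ K * ((1 - c) * K) ≤ W ^ K * ((C.cap D k : ℝ) - 1) := by
    calc W ^ K * ((1 - c) * K) = (K : ℝ) * ((1 - c) * W ^ K) := by ring
      _ ≤ _ := h1.trans h3
  exact le_of_mul_le_mul_left h4 hWK

/-- The trade-off for the family. -/
theorem family_tradeoff {m t : ℕ} (hm : 2 ≤ m) (ht : 1000 ≤ t) {s : ℕ} (C : Circuit (Var m t) s)
    (hC : ∀ x, C.eval x = true ↔ family m t x)
    (hD : (C.depth : ℝ) ≤ logVars m t ^ ((2 * m : ℝ) / (m + 1)) / 2) :
    (2 : ℝ) ^ (t ^ (m + 1)) ≤ (1 + (C.nots : ℝ) / C.negDepth) ^ C.negDepth := by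
  classical
  have hq : 2 ≤ t ^ m := by
    calc 2 ≤ t := by omega
      _ = t ^ 1 := (pow_one t).symm
      _ ≤ t ^ m := Nat.pow_le_pow_right (by omega) (by omega)
  by_cases hsmall : relCount C C.depth C.negDepth + 1 ≤ 2 ^ (t ^ (m + 1))
  · have hb := depth_bound10 hm ht hD
    have hbase : ∀ g : (E (16 ^ (t ^ m)) → Bool) → Bool,
        MonoDepth (C.depth + t ^ (m + 1)) g →
        ∑ v : Fin (2 ^ (t ^ m)) → Fin (16 ^ (t ^ m)), ind (g (path 0 v)) ≤
          ∑ v : Fin (2 ^ (t ^ m)) → Fin (16 ^ (t ^ m)), ind (g (cut 0 v)) +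
            (1 / 2) ^ (t ^ (m + 1)) * ((16 ^ (t ^ m) : ℕ) : ℝ) ^ (2 ^ (t ^ m)) :=
      fun g hg => base_hard hq rfl (t ^ m) (t ^ (m + 1)) (by omega) (by omega) 0 hg
    have h1 := le_cap hbase C hC C.negDepth le_rfl le_rfl hsmall
    have h2 : (1 : ℝ) - (1 / 2) ^ (t ^ (m + 1)) = 1 - 1 / 2 ^ (t ^ (m + 1)) := by
      rw [one_div_pow]
    rw [h2] at h1
    push_cast at h1
    have hpos : (0 : ℝ) < 2 ^ (t ^ (m + 1)) := by positivity
    have h3 : (1 - 1 / (2 : ℝ) ^ (t ^ (m + 1))) * 2 ^ (t ^ (m + 1)) = 2 ^ (t ^ (m + 1)) - 1 := by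
      field_simp
    rw [h3] at h1
    have h4 : (2 : ℝ) ^ (t ^ (m + 1)) ≤ C.cap C.depth C.negDepth := by linarith
    refine h4.trans ?_
    by_cases hk : 0 < C.negDepth
    · exact C.cap_le C.depth C.negDepth hk
    · have hk0 : C.negDepth = 0 := by omega
      rw [hk0]
      simp [Circuit.cap]
  · -- many NOT gates
    push Not at hsmall
    have h1 : 0 < relCount C C.depth C.negDepth := by
      have : 1 ≤ 2 ^ (t ^ (m + 1)) := Nat.one_le_two_pow
      omega
    obtain ⟨i, hi⟩ := Finset.card_pos.1 h1
    have hrel := (Finset.mem_filter.1 hi).2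
    have hk : 0 < C.negDepth := by
      by_contra hcon
      have hk0 : C.negDepth = 0 := by omega
      rw [hk0] at hrel
      obtain ⟨g1, -, g3⟩ := hrel
      cases hg : C.gate i with
      | var v => rw [hg] at g1; exact absurd g1 (by simp [Gate.isNot])
      | const b => rw [hg] at g1; exact absurd g1 (by simp [Gate.isNot])
      | and a b => rw [hg] at g1; exact absurd g1 (by simp [Gate.isNot])
      | or a b => rw [hg] at g1; exact absurd g1 (by simp [Gate.isNot])
      | not a =>
        rw [Circuit.negAt, hg] at g3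
        simp only at g3
        omega
    have h2 : relCount C C.depth C.negDepth ≤ C.nots := by
      apply Finset.card_le_card
      intro i hi
      exact Finset.mem_filter.2 ⟨Finset.mem_univ _, (Finset.mem_filter.1 hi).2.1⟩
    have hkR : (0 : ℝ) < C.negDepth := by exact_mod_cast hk
    have h3 : (2 : ℝ) ^ (t ^ (m + 1)) ≤ C.nots := by
      have : 2 ^ (t ^ (m + 1)) ≤ C.nots := by omega
      exact_mod_cast this
    have h4 := one_add_mul_le_pow (a := (C.nots : ℝ) / C.negDepth)
      (by have : (0 : ℝ) ≤ (C.nots : ℝ) / C.negDepth := by positivity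
          linarith) C.negDepth
    have h5 : (C.negDepth : ℝ) * ((C.nots : ℝ) / C.negDepth) = C.nots := by
      field_simp
    rw [h5] at h4
    linarith

/-- The trade-off, in logarithmic form. -/
theorem family_tradeoff_log {m t : ℕ} (hm : 2 ≤ m) (ht : 1000 ≤ t) {s : ℕ}
    (C : Circuit (Var m t) s) (hC : ∀ x, C.eval x = true ↔ family m t x)
    (hD : (C.depth : ℝ) ≤ logVars m t ^ ((2 * m : ℝ) / (m + 1)) / 2) :
    logVars m t - 10 * logVars m t ^ ((m : ℝ) / (m + 1)) ≤
      C.negDepth * Real.logb 2 (1 + (C.nots : ℝ) / C.negDepth) := by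
  have h1 := family_tradeoff hm ht C hC hD
  have h2 := Real.logb_le_logb_of_le (b := 2) (by norm_num) (by positivity) h1
  rw [Real.logb_pow, Real.logb_pow, Real.logb_self_eq_one (by norm_num), mul_one] at h2
  push_cast at h2
  have h5 := logVars_le m t
  have h6 := pow_le_rpow m t
  have h7 : (2 : ℝ) ≤ (t : ℝ) ^ m := by
    have htR : (1000 : ℝ) ≤ t := by exact_mod_cast ht
    calc (2 : ℝ) ≤ (t : ℝ) ^ 1 := by linarith
      _ ≤ (t : ℝ) ^ m := pow_le_pow_right₀ (by linarith) (by omega)
  linarith

end Pool.Agent.H.MP_027d00_lc
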